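import Mathlib.MeasureTheory.Integral.CircleIntegral
import Mathlib.Analysis.CStarAlgebra.Classes

/-!
Definitions for the Laurent coefficient problem on an annulus.
-/

open scoped Real ComplexConjugate

namespace Pool.Agent.MP_faa29e_an

/-- The open annulus `a < |z| < b`. -/
def ann (a b : ℝ) : Set ℂ := {z | a < ‖z‖ ∧ ‖z‖ < b}

/-- The closed annulus `a ≤ |z| ≤ b`. -/
def cann (a b : ℝ) : Set ℂ := {z | a ≤ ‖z‖ ∧ ‖z‖ ≤ b}

/-- The class `B(A_r)`: holomorphic on `r < |z| < 1` and bounded by one there. -/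
def Bd (r : ℝ) (f : ℂ → ℂ) : Prop :=
  DifferentiableOn ℂ f (ann r 1) ∧ ∀ z ∈ ann r 1, ‖f z‖ ≤ 1

/-- The Laurent coefficient `a_k` of `f` on `r < |z| < 1`, by Cauchy's integral over the circle
of radius `√r`. -/
noncomputable def coeff (r : ℝ) (f : ℂ → ℂ) (k : ℤ) : ℂ :=
  (2 * π * Complex.I)⁻¹ * ∮ z in C(0, √r), f z / z ^ (k + 1)

/-- The coefficient vector `(a_{-N}, ..., a_N)`; entry `j` is `a_{j-N}`. -/
noncomputable def coeffVec (r : ℝ) (N : ℕ) (f : ℂ → ℂ) : Fin (2 * N + 1) → ℂ :=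
  fun j => coeff r f ((j : ℤ) - N)

/-- The coefficient body `V_N(r)`. -/
def body (r : ℝ) (N : ℕ) : Set (Fin (2 * N + 1) → ℂ) :=
  {v | ∃ f, Bd r f ∧ coeffVec r N f = v}

/-- The Laurent polynomial `∑_{|k| ≤ N} c_k z^k`; entry `j` of `c` is `c_{j-N}`. -/
noncomputable def lpoly (N : ℕ) (c : Fin (2 * N + 1) → ℂ) (z : ℂ) : ℂ :=
  ∑ j, c j * z ^ ((j : ℤ) - N)

/-- The theta function `θ_q(w) = ∏_{n ≥ 0} (1 - q^n w) (1 - q^{n+1} / w)`. -/
noncomputable def theta (q : ℝ) (w : ℂ) : ℂ :=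
  ∏' n : ℕ, ((1 - (q : ℂ) ^ n * w) * (1 - (q : ℂ) ^ (n + 1) / w))

/-- The theta product `κ z^{-m} ∏_{w ∈ a} θ(z / w) / θ(conj w * z)` with nome `q = r²`. -/
noncomputable def bla (r : ℝ) (κ : ℂ) (m : ℤ) (a : Multiset ℂ) (z : ℂ) : ℂ :=
  κ * z ^ (-m) * (a.map fun w => theta (r ^ 2) (z / w) / theta (r ^ 2) (conj w * z)).prod

/-- The data of a finite Blaschke product of the annulus: zeros in the annulus whose moduli
multiply to `r^m = |κ|`. -/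
def BlaData (r : ℝ) (κ : ℂ) (m : ℤ) (a : Multiset ℂ) : Prop :=
  (∀ w ∈ a, w ∈ ann r 1) ∧ (a.map fun w => ‖w‖).prod = r ^ m ∧ ‖κ‖ = r ^ m

/-- The Laurent series `t + ∑_{k ≠ 0} (G_k - conj G_{-k}) / (1 - r^{2k}) z^k`. -/
noncomputable def inn (r : ℝ) (G : ℂ → ℂ) (t : ℝ) (z : ℂ) : ℂ :=
  ∑' k : ℤ, (if k = 0 then (t : ℂ) else
    (coeff r G k - conj (coeff r G (-k))) / (1 - (r : ℂ) ^ (2 * k))) * z ^ k

/-- A complex number that is real and nonnegative. -/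
def Nonneg (w : ℂ) : Prop := w.im = 0 ∧ 0 ≤ w.re

/-- Extremal functions of the first kind (theta products). -/
def TypeI (r : ℝ) (N : ℕ) (f : ℂ → ℂ) : Prop :=
  ∃ (κ : ℂ) (m : ℤ) (a : Multiset ℂ), BlaData r κ m a ∧ (∀ z ∈ ann r 1, f z = bla r κ m a z) ∧
    ∃ c : Fin (2 * N + 1) → ℂ, c ≠ 0 ∧ ∃ t : ℝ,
      (∀ z : ℂ, ‖z‖ = r → Nonneg (inn r (fun z => f z * lpoly N c z) t z)) ∧
      (∀ z : ℂ, ‖z‖ = 1 →
        Nonneg (bla r κ m a z * lpoly N c z - inn r (fun z => f z * lpoly N c z) t z)) ∧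
      ∀ w ∈ a, ∀ i < a.count w, iteratedDeriv i (inn r (fun z => f z * lpoly N c z) t) w = 0

/-- Extremal functions of the second kind: `f² p = p*`, reflection in the outer circle. -/
def TypeII (r : ℝ) (N : ℕ) (f : ℂ → ℂ) : Prop :=
  ∃ c : Fin (2 * N + 1) → ℂ, c ≠ 0 ∧
    ∀ z ∈ ann r 1, f z ^ 2 * lpoly N c z = conj (lpoly N c (1 / conj z))

/-- Extremal functions of the third kind: reflection in the inner circle. -/
def TypeIII (r : ℝ) (N : ℕ) (f : ℂ → ℂ) : Prop :=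
  ∃ c : Fin (2 * N + 1) → ℂ, c ≠ 0 ∧
    ∀ z ∈ ann r 1, f z ^ 2 * lpoly N c z = conj (lpoly N c ((r : ℂ) ^ 2 / conj z))

end Pool.Agent.MP_faa29e_an
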