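import Mathlib.Topology.Sheaves.Presheaf
import Mathlib.Tactic.Monotonicity.Lemmas
import Mathlib.Algebra.Module.StablyFree.Basic
import Mathlib.Algebra.Ring.IsFormallyReal
import Mathlib.Analysis.CStarAlgebra.ContinuousMap
import Mathlib.Analysis.Normed.Module.HahnBanach
import Mathlib.Analysis.Complex.LocallyUniformLimit
import Mathlib.Analysis.Complex.AbsMax
import Mathlib.Analysis.Meromorphic.NormalForm
import Mathlib.MeasureTheory.Integral.CircleAverage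
import Mathlib.Topology.Compactness.CompactlyGeneratedSpace
import Mathlib.Combinatorics.SimpleGraph.Basic
import Mathlib.Analysis.Fourier.AddCircle
import Mathlib.RingTheory.PiTensorProduct
import Mathlib.RingTheory.SimpleRing.Principal
import Pool.Agent.MP_faa29e_an.Defs

-- ======== part 0: formerly Pool.Agent.MP_faa29e_an.Laurent
section MrgPart0

/-!
Laurent series on an annulus: circle means, coefficients, expansion and synthesis.
-/

open Metric Set Filter Topology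
open Real (circleAverage)
open scoped Real

namespace Pool.Agent.MP_faa29e_an

lemma isOpen_ann (a b : ℝ) : IsOpen (ann a b) :=
  (isOpen_lt continuous_const continuous_norm).inter (isOpen_lt continuous_norm continuous_const)

lemma ann_subset_cann (a b : ℝ) : ann a b ⊆ cann a b := fun _ hz => ⟨hz.1.le, hz.2.le⟩

lemma ann_mono {a b a' b' : ℝ} (h1 : a ≤ a') (h2 : b' ≤ b) : ann a' b' ⊆ ann a b :=
  fun _ hz => ⟨h1.trans_lt hz.1, hz.2.trans_le h2⟩

lemma ne_zero_of_mem_ann {a b : ℝ} (ha : 0 ≤ a) {z : ℂ} (hz : z ∈ ann a b) : z ≠ 0 := by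
  intro h
  have := hz.1
  rw [h, norm_zero] at this
  linarith

lemma norm_of_mem_sphere {ρ : ℝ} {z : ℂ} (hz : z ∈ sphere (0 : ℂ) ρ) : ‖z‖ = ρ := by
  simpa using hz

lemma norm_of_mem_sphere' {ρ : ℝ} (hρ : 0 < ρ) {z : ℂ} (hz : z ∈ sphere (0 : ℂ) |ρ|) : ‖z‖ = ρ := by
  rw [abs_of_pos hρ] at hz
  simpa using hz

lemma sphere_subset_ann {a b ρ : ℝ} (h1 : a < ρ) (h2 : ρ < b) : sphere (0 : ℂ) ρ ⊆ ann a b := by
  intro z hz
  have := norm_of_mem_sphere hz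
  exact ⟨by rw [this]; exact h1, by rw [this]; exact h2⟩

lemma isPreconnected_ann {a b : ℝ} (ha : 0 ≤ a) : IsPreconnected (ann a b) := by
  have h : ann a b = (fun x : ℝ × ℝ => circleMap 0 x.1 x.2) '' (Ioo a b ×ˢ univ) := by
    ext z
    constructor
    · intro hz
      refine ⟨(‖z‖, Complex.arg z), ⟨hz, trivial⟩, ?_⟩
      simp [circleMap, Complex.norm_mul_exp_arg_mul_I]
    · rintro ⟨x, ⟨hx, -⟩, rfl⟩
      have h0 : 0 < x.1 := ha.trans_lt hx.1
      simp only [ann, mem_ofPred_eq, norm_circleMap_zero, abs_of_pos h0]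
      exact hx
  rw [h]
  exact (isPreconnected_Ioo.prod isPreconnected_univ).image _
    Real.circleMap.continuous.continuousOn

lemma circleIntegrable_of_contOn {E : Type*} [NormedAddCommGroup E] {F : ℂ → E} {ρ : ℝ}
    (hρ : 0 < ρ) (hF : ContinuousOn F (sphere 0 ρ)) : CircleIntegrable F 0 ρ :=
  hF.circleIntegrable hρ.le

lemma CA_congr {E : Type*} [NormedAddCommGroup E] [NormedSpace ℝ E] {F G : ℂ → E} {ρ : ℝ}
    (hρ : 0 < ρ) (h : ∀ z : ℂ, ‖z‖ = ρ → F z = G z) :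
    circleAverage F 0 ρ = circleAverage G 0 ρ :=
  Real.circleAverage_congr_sphere fun z hz => h z (norm_of_mem_sphere' hρ hz)

lemma CA_mono {F G : ℂ → ℝ} {ρ : ℝ} (hρ : 0 < ρ) (hF : ContinuousOn F (sphere 0 ρ))
    (hG : ContinuousOn G (sphere 0 ρ)) (h : ∀ z : ℂ, ‖z‖ = ρ → F z ≤ G z) :
    circleAverage F 0 ρ ≤ circleAverage G 0 ρ :=
  Real.circleAverage_mono (circleIntegrable_of_contOn hρ hF) (circleIntegrable_of_contOn hρ hG)
    fun z hz => h z (norm_of_mem_sphere' hρ hz)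

lemma norm_CA_le (F : ℂ → ℂ) (ρ : ℝ) :
    ‖circleAverage F 0 ρ‖ ≤ circleAverage (fun z => ‖F z‖) 0 ρ := by
  simp only [circleAverage, norm_smul, smul_eq_mul]
  have h2 : (0 : ℝ) < (2 * π)⁻¹ := by positivity
  rw [Real.norm_of_nonneg h2.le]
  exact mul_le_mul_of_nonneg_left
    (intervalIntegral.norm_integral_le_integral_norm Real.two_pi_pos.le) h2.le

lemma norm_CA_le_const {F : ℂ → ℂ} {ρ C : ℝ} (hρ : 0 < ρ) (hF : ContinuousOn F (sphere 0 ρ))
    (h : ∀ z : ℂ, ‖z‖ = ρ → ‖F z‖ ≤ C) : ‖circleAverage F 0 ρ‖ ≤ C := by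
  refine (norm_CA_le F ρ).trans ?_
  have := CA_mono hρ hF.norm (continuousOn_const (c := C)) h
  rwa [Real.circleAverage_const] at this

lemma CA_add {E : Type*} [NormedAddCommGroup E] [NormedSpace ℝ E] {F G : ℂ → E} {ρ : ℝ}
    (hρ : 0 < ρ) (hF : ContinuousOn F (sphere 0 ρ)) (hG : ContinuousOn G (sphere 0 ρ)) :
    circleAverage (fun z => F z + G z) 0 ρ = circleAverage F 0 ρ + circleAverage G 0 ρ :=
  Real.circleAverage_fun_add (circleIntegrable_of_contOn hρ hF) (circleIntegrable_of_contOn hρ hG)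

lemma CA_sub {E : Type*} [NormedAddCommGroup E] [NormedSpace ℝ E] {F G : ℂ → E} {ρ : ℝ}
    (hρ : 0 < ρ) (hF : ContinuousOn F (sphere 0 ρ)) (hG : ContinuousOn G (sphere 0 ρ)) :
    circleAverage (fun z => F z - G z) 0 ρ = circleAverage F 0 ρ - circleAverage G 0 ρ :=
  Real.circleAverage_fun_sub (circleIntegrable_of_contOn hρ hF) (circleIntegrable_of_contOn hρ hG)

lemma CA_const_mul (c : ℂ) (F : ℂ → ℂ) (ρ : ℝ) :
    circleAverage (fun z => c * F z) 0 ρ = c * circleAverage F 0 ρ :=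
  Real.circleAverage_fun_smul (a := c) (f := F)

lemma CA_const_mul_real (c : ℝ) (F : ℂ → ℝ) (ρ : ℝ) :
    circleAverage (fun z => c * F z) 0 ρ = c * circleAverage F 0 ρ :=
  Real.circleAverage_fun_smul (a := c) (f := F)

lemma CA_re {F : ℂ → ℂ} {ρ : ℝ} (hρ : 0 < ρ) (hF : ContinuousOn F (sphere 0 ρ)) :
    circleAverage (fun z => (F z).re) 0 ρ = (circleAverage F 0 ρ).re :=
  Complex.reCLM.circleAverage_comp_comm (circleIntegrable_of_contOn hρ hF)

lemma CA_conj {F : ℂ → ℂ} {ρ : ℝ} (hρ : 0 < ρ) (hF : ContinuousOn F (sphere 0 ρ)) :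
    circleAverage (fun z => (starRingEnd ℂ) (F z)) 0 ρ = (starRingEnd ℂ) (circleAverage F 0 ρ) :=
  (Complex.conjCLE : ℂ →L[ℝ] ℂ).circleAverage_comp_comm (circleIntegrable_of_contOn hρ hF)

lemma CA_ofReal {F : ℂ → ℝ} {ρ : ℝ} (hρ : 0 < ρ) (hF : ContinuousOn F (sphere 0 ρ)) :
    circleAverage (fun z => ((F z : ℝ) : ℂ)) 0 ρ = ((circleAverage F 0 ρ : ℝ) : ℂ) :=
  Complex.ofRealCLM.circleAverage_comp_comm (circleIntegrable_of_contOn hρ hF)

/-- Cauchy's theorem for circle means. -/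
lemma CA_eq_of_diff {F : ℂ → ℂ} {ρ₁ ρ₂ : ℝ} (h0 : 0 < ρ₁) (hle : ρ₁ ≤ ρ₂)
    (hc : ContinuousOn F (cann ρ₁ ρ₂)) (hd : DifferentiableOn ℂ F (ann ρ₁ ρ₂)) :
    circleAverage F 0 ρ₂ = circleAverage F 0 ρ₁ := by
  rw [Real.circleAverage_eq_circleIntegral (h0.trans_le hle).ne',
    Real.circleAverage_eq_circleIntegral h0.ne']
  congr 1
  refine Complex.circleIntegral_sub_center_inv_smul_eq_of_differentiable_on_annulus_off_countable
    h0 hle countable_empty (hc.mono ?_) ?_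
  · intro z hz
    simp only [Set.mem_sdiff, mem_closedBall, dist_zero_right, mem_ball, not_lt] at hz
    exact ⟨hz.2, hz.1⟩
  · intro z hz
    simp only [Set.mem_sdiff, mem_closedBall, dist_zero_right, mem_ball, not_le] at hz
    exact hd.differentiableAt ((isOpen_ann _ _).mem_nhds ⟨hz.1.2, hz.1.1⟩)

lemma cann_subset_ann {a b ρ₁ ρ₂ : ℝ} (h1 : a < ρ₁) (h2 : ρ₂ < b) : cann ρ₁ ρ₂ ⊆ ann a b :=
  fun _ hz => ⟨h1.trans_le hz.1, hz.2.trans_lt h2⟩

lemma CA_eq_ann {F : ℂ → ℂ} {a b ρ₁ ρ₂ : ℝ} (ha : 0 ≤ a) (hd : DifferentiableOn ℂ F (ann a b))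
    (h1 : ρ₁ ∈ Ioo a b) (h2 : ρ₂ ∈ Ioo a b) : circleAverage F 0 ρ₁ = circleAverage F 0 ρ₂ := by
  wlog h : ρ₁ ≤ ρ₂ generalizing ρ₁ ρ₂
  · exact (this h2 h1 (le_of_not_ge h)).symm
  exact (CA_eq_of_diff (ha.trans_lt h1.1) h
    (hd.continuousOn.mono (cann_subset_ann h1.1 h2.2)) (hd.mono (ann_mono h1.1.le h2.2.le))).symm

lemma continuousOn_zpow_sphere {ρ : ℝ} (hρ : 0 < ρ) (k : ℤ) :
    ContinuousOn (fun z : ℂ => z ^ k) (sphere 0 ρ) := by
  refine continuousOn_id.zpow₀ k fun z hz => Or.inl ?_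
  intro h
  have := norm_of_mem_sphere hz
  simp only [id] at h
  rw [h, norm_zero] at this
  linarith

lemma differentiableOn_zpow_ann {a b : ℝ} (ha : 0 ≤ a) (k : ℤ) :
    DifferentiableOn ℂ (fun z : ℂ => z ^ k) (ann a b) :=
  fun _ hz => (differentiableAt_zpow.2 (Or.inl (ne_zero_of_mem_ann ha hz))).differentiableWithinAt

lemma CA_zpow {ρ : ℝ} (hρ : 0 < ρ) (k : ℤ) :
    circleAverage (fun z : ℂ => z ^ k) 0 ρ = if k = 0 then 1 else 0 := by
  split_ifs with hk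
  · subst hk
    simp [Real.circleAverage_const]
  · rw [Real.circleAverage_eq_circleIntegral hρ.ne']
    have h := circleIntegral.integral_sub_zpow_of_ne (n := k - 1) (by omega) 0 0 ρ
    have h2 : (∮ z in C(0, ρ), (z - 0)⁻¹ • z ^ k) = ∮ z in C(0, ρ), (z - 0) ^ (k - 1) := by
      refine circleIntegral.integral_congr hρ.le fun z hz => ?_
      have hz0 : z ≠ 0 := by
        intro h
        have := norm_of_mem_sphere hz
        rw [h, norm_zero] at this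
        linarith
      simp only [sub_zero, smul_eq_mul]
      rw [zpow_sub_one₀ hz0, mul_comm]
    rw [h2, h, smul_zero]

/-- Termwise circle means. -/
lemma hasSum_CA {ι : Type*} [Countable ι] {F : ι → ℂ → ℂ} {G : ℂ → ℂ} {ρ : ℝ} (hρ : 0 < ρ)
    (hF : ∀ i, ContinuousOn (F i) (sphere 0 ρ)) {b : ι → ℝ} (hb : Summable b)
    (hFb : ∀ i z, ‖z‖ = ρ → ‖F i z‖ ≤ b i) (hG : ∀ z, ‖z‖ = ρ → HasSum (fun i => F i z) (G z)) :
    HasSum (fun i => circleAverage (F i) 0 ρ) (circleAverage G 0 ρ) := by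
  unfold circleAverage
  refine HasSum.const_smul _ ?_
  have hn : ∀ θ, ‖circleMap 0 ρ θ‖ = ρ := fun θ => by simp [abs_of_pos hρ]
  refine intervalIntegral.hasSum_integral_of_dominated_convergence (fun i _ => b i) ?_ ?_ ?_ ?_ ?_
  · intro i
    have : Continuous fun θ => F i (circleMap 0 ρ θ) :=
      (hF i).comp_continuous (continuous_circleMap 0 ρ) fun θ => by simp [abs_of_pos hρ]
    exact this.aestronglyMeasurable
  · exact fun i => Eventually.of_forall fun θ _ => hFb i _ (hn θ)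
  · exact Eventually.of_forall fun θ _ => hb
  · exact intervalIntegrable_const
  · exact Eventually.of_forall fun θ _ => hG _ (hn θ)

/-- The `k`-th Laurent coefficient computed on the circle of radius `ρ`. -/
noncomputable def lc (F : ℂ → ℂ) (ρ : ℝ) (k : ℤ) : ℂ :=
  circleAverage (fun z => F z * z ^ (-k)) 0 ρ

lemma lc_eq_ann {F : ℂ → ℂ} {a b ρ₁ ρ₂ : ℝ} (ha : 0 ≤ a) (hd : DifferentiableOn ℂ F (ann a b))
    (h1 : ρ₁ ∈ Ioo a b) (h2 : ρ₂ ∈ Ioo a b) (k : ℤ) : lc F ρ₁ k = lc F ρ₂ k :=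
  CA_eq_ann ha (hd.mul (differentiableOn_zpow_ann ha _)) h1 h2

lemma lc_congr {F G : ℂ → ℂ} {ρ : ℝ} (hρ : 0 < ρ) (h : ∀ z : ℂ, ‖z‖ = ρ → F z = G z) (k : ℤ) :
    lc F ρ k = lc G ρ k :=
  CA_congr hρ fun z hz => by rw [h z hz]

lemma norm_lc_le {F : ℂ → ℂ} {ρ : ℝ} (hρ : 0 < ρ) (k : ℤ) :
    ‖lc F ρ k‖ * ρ ^ k ≤ circleAverage (fun z => ‖F z‖) 0 ρ := by
  have h1 : ‖lc F ρ k‖ ≤ circleAverage (fun z => ρ ^ (-k) * ‖F z‖) 0 ρ := by
    refine (norm_CA_le _ ρ).trans (le_of_eq (CA_congr hρ fun z hz => ?_))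
    rw [norm_mul, norm_zpow, hz, mul_comm]
  rw [CA_const_mul_real] at h1
  have h2 : 0 < ρ ^ k := zpow_pos hρ k
  calc ‖lc F ρ k‖ * ρ ^ k ≤ ρ ^ (-k) * circleAverage (fun z => ‖F z‖) 0 ρ * ρ ^ k :=
        mul_le_mul_of_nonneg_right h1 h2.le
    _ = _ := by rw [zpow_neg]; field_simp

lemma norm_lc_le_const {F : ℂ → ℂ} {ρ C : ℝ} (hρ : 0 < ρ) (hF : ContinuousOn F (sphere 0 ρ))
    (h : ∀ z : ℂ, ‖z‖ = ρ → ‖F z‖ ≤ C) (k : ℤ) : ‖lc F ρ k‖ * ρ ^ k ≤ C := by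
  refine (norm_lc_le hρ k).trans ?_
  have := CA_mono hρ hF.norm (continuousOn_const (c := C)) h
  rwa [Real.circleAverage_const] at this

lemma summable_of_bounds {g : ℤ → ℂ} {a b C ρ : ℝ} (ha : 0 < a) (h1 : a < ρ) (h2 : ρ < b)
    (hp : ∀ n : ℕ, ‖g n‖ * b ^ n ≤ C) (hm : ∀ n : ℕ, ‖g (-n)‖ ≤ C * a ^ n) :
    Summable fun k : ℤ => ‖g k‖ * ρ ^ k := by
  have hρ : 0 < ρ := ha.trans h1
  have hb : 0 < b := hρ.trans h2
  refine Summable.of_nat_of_neg ?_ ?_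
  · refine Summable.of_nonneg_of_le (fun n => by positivity) (fun n => ?_)
      ((summable_geometric_of_lt_one (r := ρ / b) (by positivity)
        ((div_lt_one hb).2 h2)).mul_left C)
    rw [zpow_natCast, div_pow]
    have : ‖g n‖ * ρ ^ n = ‖g n‖ * b ^ n * (ρ ^ n / b ^ n) := by field_simp
    rw [this]
    exact mul_le_mul_of_nonneg_right (hp n) (by positivity)
  · refine Summable.of_nonneg_of_le (fun n => by positivity) (fun n => ?_)
      ((summable_geometric_of_lt_one (r := a / ρ) (by positivity)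
        ((div_lt_one hρ).2 h1)).mul_left C)
    rw [zpow_neg, zpow_natCast, div_pow]
    calc ‖g (-n)‖ * (ρ ^ n)⁻¹ ≤ C * a ^ n * (ρ ^ n)⁻¹ :=
          mul_le_mul_of_nonneg_right (hm n) (by positivity)
      _ = _ := by ring

lemma summable_lc {F : ℂ → ℂ} {a b ρ σ : ℝ} (ha : 0 ≤ a) (hd : DifferentiableOn ℂ F (ann a b))
    (hρ : ρ ∈ Ioo a b) (hσ : σ ∈ Ioo a b) : Summable fun k : ℤ => ‖lc F ρ k‖ * σ ^ k := by
  obtain ⟨a', ha1, ha2⟩ := exists_between hσ.1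
  obtain ⟨b', hb1, hb2⟩ := exists_between hσ.2
  have ha0 : 0 < a' := ha.trans_lt ha1
  have hb0 : 0 < b' := ha0.trans (ha2.trans hb1)
  set C := max (circleAverage (fun z => ‖F z‖) 0 a') (circleAverage (fun z => ‖F z‖) 0 b')
  refine summable_of_bounds (C := C) ha0 ha2 hb1 (fun n => ?_) (fun n => ?_)
  · rw [lc_eq_ann ha hd hρ ⟨ha1.trans (ha2.trans hb1), hb2⟩, ← zpow_natCast]
    exact (norm_lc_le hb0 _).trans (le_max_right _ _)
  · rw [lc_eq_ann ha hd hρ ⟨ha1, ha2.trans hσ.2⟩]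
    have := (norm_lc_le (F := F) ha0 (-(n : ℤ))).trans (le_max_left _ (circleAverage (fun z => ‖F z‖) 0 b'))
    rw [zpow_neg, zpow_natCast] at this
    have h3 : 0 < a' ^ n := pow_pos ha0 n
    calc ‖lc F a' (-(n : ℤ))‖ = ‖lc F a' (-(n : ℤ))‖ * (a' ^ n)⁻¹ * a' ^ n := by field_simp
      _ ≤ C * a' ^ n := mul_le_mul_of_nonneg_right this h3.le

/-- Fourier expansion on one circle. -/
lemma hasSum_lc_sphere {F : ℂ → ℂ} {ρ : ℝ} (hρ : 0 < ρ) (hF : ContinuousOn F (sphere 0 ρ))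
    (hs : Summable fun k : ℤ => ‖lc F ρ k‖ * ρ ^ k) {z : ℂ} (hz : ‖z‖ = ρ) :
    HasSum (fun k : ℤ => lc F ρ k * z ^ k) (F z) := by
  have : Fact (0 < 2 * π) := ⟨Real.two_pi_pos⟩
  have hmem : ∀ x : AddCircle (2 * π), (ρ : ℂ) * (AddCircle.toCircle x : ℂ) ∈ sphere (0 : ℂ) ρ := by
    intro x
    simp [abs_of_pos hρ]
  let g : C(AddCircle (2 * π), ℂ) := ⟨fun x => F ((ρ : ℂ) * (AddCircle.toCircle x : ℂ)),
    hF.comp_continuous (continuous_const.mul
      (continuous_induced_dom.comp AddCircle.continuous_toCircle)) hmem⟩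
  have hfour : ∀ (n : ℤ) (θ : ℝ), fourier n (θ : AddCircle (2 * π)) =
      Complex.exp (θ * Complex.I) ^ n := by
    intro n θ
    rw [fourier_coe_apply, ← Complex.exp_int_mul]
    congr 1
    have : (π : ℂ) ≠ 0 := by exact_mod_cast Real.pi_ne_zero
    push_cast
    field_simp
  have hto : ∀ θ : ℝ, (AddCircle.toCircle (θ : AddCircle (2 * π)) : ℂ) =
      Complex.exp (θ * Complex.I) := by
    intro θ
    rw [← fourier_one, hfour, zpow_one]
  have hρc : (ρ : ℂ) ≠ 0 := by exact_mod_cast hρ.ne'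
  have hcoef : ∀ k : ℤ, fourierCoeff g k = lc F ρ k * (ρ : ℂ) ^ k := by
    intro k
    rw [fourierCoeff_eq_intervalIntegral g k 0, lc, mul_comm _ ((ρ : ℂ) ^ k), ← CA_const_mul,
      circleAverage]
    simp only [zero_add, one_div]
    congr 1
    refine intervalIntegral.integral_congr fun θ _ => ?_
    simp only [g, ContinuousMap.coe_mk, hfour, hto, circleMap, zero_add, smul_eq_mul, mul_zpow]
    have : (ρ : ℂ) ^ k * (ρ : ℂ) ^ (-k) = 1 := by
      rw [← zpow_add₀ hρc]; simp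
    linear_combination (-(F (ρ * Complex.exp (θ * Complex.I)) * Complex.exp (θ * Complex.I) ^ (-k))) * this
  have hsum : Summable (fourierCoeff g) := by
    refine Summable.of_norm ?_
    refine hs.congr fun k => ?_
    rw [hcoef, norm_mul, norm_zpow, Complex.norm_real, Real.norm_of_nonneg hρ.le]
  have h := has_pointwise_sum_fourier_series_of_summable hsum ((Complex.arg z : ℝ) : AddCircle (2 * π))
  have hzz : (ρ : ℂ) * Complex.exp (Complex.arg z * Complex.I) = z := by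
    rw [← hz]; exact Complex.norm_mul_exp_arg_mul_I z
  simp only [g, ContinuousMap.coe_mk, hto, hzz] at h
  convert h using 2 with k
  rw [hfour, smul_eq_mul]
  have := hcoef k
  simp only [g, ContinuousMap.coe_mk] at this
  rw [this, mul_assoc, ← mul_zpow, hzz]

/-- Laurent expansion. -/
lemma hasSum_lc {F : ℂ → ℂ} {a b ρ : ℝ} (ha : 0 ≤ a) (hd : DifferentiableOn ℂ F (ann a b))
    (hρ : ρ ∈ Ioo a b) {z : ℂ} (hz : z ∈ ann a b) :
    HasSum (fun k : ℤ => lc F ρ k * z ^ k) (F z) := by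
  have hz' : ‖z‖ ∈ Ioo a b := hz
  have h := hasSum_lc_sphere (ha.trans_lt hz.1)
    (hd.continuousOn.mono (sphere_subset_ann hz.1 hz.2)) (summable_lc ha hd hz' hz') rfl
  simpa only [lc_eq_ann ha hd hz' hρ] using h

lemma eq_zero_of_lc {F : ℂ → ℂ} {a b ρ : ℝ} (ha : 0 ≤ a) (hd : DifferentiableOn ℂ F (ann a b))
    (hρ : ρ ∈ Ioo a b) (h : ∀ k, lc F ρ k = 0) {z : ℂ} (hz : z ∈ ann a b) : F z = 0 := by
  have h1 := hasSum_lc ha hd hρ hz
  simp only [h, zero_mul] at h1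
  exact h1.unique hasSum_zero

/-- The sum of a Laurent series. -/
noncomputable def ser (g : ℤ → ℂ) (z : ℂ) : ℂ := ∑' k : ℤ, g k * z ^ k

lemma hasSum_ser {g : ℤ → ℂ} {z : ℂ} (hs : Summable fun k : ℤ => ‖g k‖ * ‖z‖ ^ k) :
    HasSum (fun k : ℤ => g k * z ^ k) (ser g z) := by
  refine Summable.hasSum (Summable.of_norm ?_)
  simpa only [norm_mul, norm_zpow] using hs

lemma zpow_le_add {a b t : ℝ} (ha : 0 < a) (h1 : a ≤ t) (h2 : t ≤ b) (k : ℤ) :
    t ^ k ≤ a ^ k + b ^ k := by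
  have ht : 0 < t := ha.trans_le h1
  have hb : 0 < b := ht.trans_le h2
  rcases le_total 0 k with hk | hk
  · have := zpow_le_zpow_left₀ hk ht.le h2
    have := zpow_pos ha k
    linarith
  · obtain ⟨n, rfl⟩ := Int.exists_eq_neg_ofNat hk
    have h3 : t ^ (-(n : ℤ)) ≤ a ^ (-(n : ℤ)) := by
      rw [zpow_neg, zpow_neg, zpow_natCast, zpow_natCast]
      exact inv_anti₀ (pow_pos ha n) (pow_le_pow_left₀ ha.le h1 n)
    have := zpow_pos hb (-(n : ℤ))
    linarith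

lemma differentiableOn_ser {g : ℤ → ℂ} {a b : ℝ} (ha : 0 ≤ a)
    (hs : ∀ ρ ∈ Ioo a b, Summable fun k : ℤ => ‖g k‖ * ρ ^ k) :
    DifferentiableOn ℂ (ser g) (ann a b) := by
  intro z hz
  obtain ⟨a', ha1, ha2⟩ := exists_between hz.1
  obtain ⟨b', hb1, hb2⟩ := exists_between hz.2
  have ha0 : 0 < a' := ha.trans_lt ha1
  have h := Complex.differentiableOn_tsum_of_summable_norm (F := fun (k : ℤ) (w : ℂ) => g k * w ^ k)
    (U := ann a' b') (u := fun k : ℤ => ‖g k‖ * a' ^ k + ‖g k‖ * b' ^ k)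
    ((hs a' ⟨ha1, ha2.trans hz.2⟩).add (hs b' ⟨hz.1.trans hb1, hb2⟩))
    (fun k => (differentiableOn_zpow_ann ha0.le k).const_mul _) (isOpen_ann _ _) (fun k w hw => by
      rw [norm_mul, norm_zpow, ← mul_add]
      exact mul_le_mul_of_nonneg_left (zpow_le_add ha0 hw.1.le hw.2.le k) (norm_nonneg _))
  exact (h.differentiableAt ((isOpen_ann _ _).mem_nhds ⟨ha2, hb1⟩)).differentiableWithinAt

lemma lc_of_hasSum {g : ℤ → ℂ} {F : ℂ → ℂ} {ρ : ℝ} (hρ : 0 < ρ)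
    (hs : Summable fun k : ℤ => ‖g k‖ * ρ ^ k)
    (hF : ∀ z : ℂ, ‖z‖ = ρ → HasSum (fun k : ℤ => g k * z ^ k) (F z)) (k : ℤ) :
    lc F ρ k = g k := by
  have h := hasSum_CA (F := fun (j : ℤ) (z : ℂ) => g j * z ^ j * z ^ (-k))
    (G := fun z => F z * z ^ (-k)) hρ
    (fun j => ((continuousOn_zpow_sphere hρ j).const_mul _).mul (continuousOn_zpow_sphere hρ _))
    (hs.mul_right (ρ ^ (-k))) (fun j z hz => by rw [norm_mul, norm_mul, norm_zpow, norm_zpow, hz])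
    (fun z hz => (hF z hz).mul_right _)
  have h2 : ∀ j : ℤ, circleAverage (fun z : ℂ => g j * z ^ j * z ^ (-k)) 0 ρ =
      if j = k then g k else 0 := by
    intro j
    have : circleAverage (fun z : ℂ => g j * z ^ j * z ^ (-k)) 0 ρ =
        circleAverage (fun z : ℂ => g j * z ^ (j - k)) 0 ρ := by
      refine CA_congr hρ fun z hz => ?_
      have hz0 : z ≠ 0 := by
        intro h
        rw [h, norm_zero] at hz
        linarith
      rw [mul_assoc, ← zpow_add₀ hz0, sub_eq_add_neg]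
    rw [this, CA_const_mul, CA_zpow hρ]
    by_cases hjk : j = k
    · simp [hjk]
    · simp [hjk, sub_eq_zero]
  simp only [h2] at h
  exact h.unique (hasSum_ite_eq k (g k))

lemma lc_ser {g : ℤ → ℂ} {ρ : ℝ} (hρ : 0 < ρ) (hs : Summable fun k : ℤ => ‖g k‖ * ρ ^ k) (k : ℤ) :
    lc (ser g) ρ k = g k :=
  lc_of_hasSum hρ hs (fun z hz => hasSum_ser (by rw [hz]; exact hs)) k

end Pool.Agent.MP_faa29e_an

end MrgPart0

-- ======== part 1: formerly Pool.Agent.MP_faa29e_an.Reflect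
section MrgPart1

/-!
Boundary behaviour of extremal pairs at the outer circle.
-/

open Metric Set Filter Topology
open Real (circleAverage)
open scoped Real ComplexConjugate

namespace Pool.Agent.MP_faa29e_an

/-- The pair `f`, `γ` is asymptotically aligned at the unit circle. -/
def Tight (f γ : ℂ → ℂ) : Prop :=
  Tendsto (fun ρ => circleAverage (fun z => ‖γ z‖ - (f z * γ z).re) 0 ρ) (𝓝[<] 1) (𝓝 0)

lemma ev_Ioo {r : ℝ} (hr : r < 1) : ∀ᶠ ρ in 𝓝[<] (1 : ℝ), ρ ∈ Ioo r 1 := Ioo_mem_nhdsLT hr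

lemma contOn_sphere {F : ℂ → ℂ} {a b ρ : ℝ} (hd : DifferentiableOn ℂ F (ann a b))
    (hρ : ρ ∈ Ioo a b) : ContinuousOn F (sphere 0 ρ) :=
  hd.continuousOn.mono (sphere_subset_ann hρ.1 hρ.2)

lemma mem_ann_of_norm {a b ρ : ℝ} (hρ : ρ ∈ Ioo a b) {z : ℂ} (hz : ‖z‖ = ρ) : z ∈ ann a b :=
  ⟨by rw [hz]; exact hρ.1, by rw [hz]; exact hρ.2⟩

lemma re_mul_le {w g : ℂ} (hw : ‖w‖ ≤ 1) : (w * g).re ≤ ‖g‖ := by
  refine (Complex.re_le_norm _).trans ?_
  rw [norm_mul]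
  exact mul_le_of_le_one_left (norm_nonneg _) hw

lemma Tight.tendsto_M1 {r : ℝ} (hr0 : 0 < r) (hr1 : r < 1) {f γ : ℂ → ℂ} (hf : Bd r f)
    (hγ : DifferentiableOn ℂ γ (ann r 1)) (h : Tight f γ) {σ : ℝ} (hσ : σ ∈ Ioo r 1) :
    Tendsto (fun ρ => circleAverage (fun z => ‖γ z‖) 0 ρ) (𝓝[<] 1)
      (𝓝 (circleAverage (fun z => f z * γ z) 0 σ).re) := by
  have h2 := h.add_const (circleAverage (fun z => f z * γ z) 0 σ).re
  rw [zero_add] at h2
  refine h2.congr' ?_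
  filter_upwards [ev_Ioo hr1] with ρ hρ
  have hρ0 : 0 < ρ := hr0.trans hρ.1
  have hc : ContinuousOn (fun z => f z * γ z) (sphere 0 ρ) := contOn_sphere (hf.1.mul hγ) hρ
  have hcr : ContinuousOn (fun z => (f z * γ z).re) (sphere 0 ρ) :=
    Complex.continuous_re.comp_continuousOn hc
  rw [CA_sub hρ0 (contOn_sphere hγ hρ).norm hcr,
    CA_re hρ0 hc, CA_eq_ann (F := fun z => f z * γ z) hr0.le (hf.1.mul hγ) hσ hρ]
  ring

lemma abs_im_le {w g : ℂ} (hw : ‖w‖ ≤ 1) {δ : ℝ} (hδ : 0 < δ) :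
    |(w * g).im| ≤ δ * ‖g‖ + (2 * δ)⁻¹ * (‖g‖ - (w * g).re) := by
  set u := w * g
  have h1 : ‖u‖ ≤ ‖g‖ := by
    rw [norm_mul]; exact mul_le_of_le_one_left (norm_nonneg _) hw
  have h2 : u.re ≤ ‖g‖ := re_mul_le hw
  have h3 : ‖u‖ ^ 2 = u.re ^ 2 + u.im ^ 2 := by
    rw [Complex.sq_norm, Complex.normSq_apply]; ring
  have h4 : 0 ≤ ‖g‖ := norm_nonneg _
  have h5 : ‖u‖ ^ 2 ≤ ‖g‖ ^ 2 := pow_le_pow_left₀ (norm_nonneg _) h1 2
  set A := δ * ‖g‖
  set B := (2 * δ)⁻¹ * (‖g‖ - u.re)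
  have hA : 0 ≤ A := by positivity
  have hB : 0 ≤ B := mul_nonneg (by positivity) (by linarith)
  have hAB : 2 * A * B = ‖g‖ * (‖g‖ - u.re) := by
    simp only [A, B]; field_simp
  refine abs_le_of_sq_le_sq ?_ (by linarith)
  nlinarith [sq_nonneg (A - B), mul_nonneg h4 (sub_nonneg.2 h2)]

lemma Tight.tendsto_im {r : ℝ} (hr0 : 0 < r) (hr1 : r < 1) {f γ : ℂ → ℂ} (hf : Bd r f)
    (hγ : DifferentiableOn ℂ γ (ann r 1)) (h : Tight f γ) :
    Tendsto (fun ρ => circleAverage (fun z => |(f z * γ z).im|) 0 ρ) (𝓝[<] 1) (𝓝 0) := by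
  obtain ⟨σ, hσ⟩ : ∃ σ, σ ∈ Ioo r 1 := exists_between hr1
  have hM := h.tendsto_M1 hr0 hr1 hf hγ hσ
  set m := (circleAverage (fun z => f z * γ z) 0 σ).re
  rw [Metric.tendsto_nhds]
  intro ε hε
  set δ := ε / (2 * (|m| + 1)) with hδ
  have hδ0 : 0 < δ := by positivity
  have e1 : ∀ᶠ ρ in 𝓝[<] (1 : ℝ), circleAverage (fun z => ‖γ z‖) 0 ρ < |m| + 1 :=
    hM.eventually (gt_mem_nhds (by linarith [le_abs_self m]))
  have e2 := h.eventually (gt_mem_nhds (show (0 : ℝ) < δ * ε by positivity))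
  filter_upwards [ev_Ioo hr1, e1, e2] with ρ hρ h1 h2
  have hρ0 : 0 < ρ := hr0.trans hρ.1
  have hc : ContinuousOn (fun z => f z * γ z) (sphere 0 ρ) := contOn_sphere (hf.1.mul hγ) hρ
  have hcg := (contOn_sphere hγ hρ).norm
  have hcr : ContinuousOn (fun z => ‖γ z‖ - (f z * γ z).re) (sphere 0 ρ) :=
    hcg.sub (Complex.continuous_re.comp_continuousOn hc)
  have h3 := CA_mono hρ0 (F := fun z => |(f z * γ z).im|)
    (G := fun z => δ * ‖γ z‖ + (2 * δ)⁻¹ * (‖γ z‖ - (f z * γ z).re))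
    (Complex.continuous_im.comp_continuousOn hc).abs
    ((hcg.const_mul _).add (hcr.const_mul _))
    (fun z hz => abs_im_le (hf.2 z (mem_ann_of_norm hρ hz)) hδ0)
  rw [CA_add hρ0 (hcg.const_mul _) (hcr.const_mul _), CA_const_mul_real, CA_const_mul_real] at h3
  have h4 : 0 ≤ circleAverage (fun z => |(f z * γ z).im|) 0 ρ :=
    Real.circleAverage_nonneg_of_nonneg fun z _ => abs_nonneg _
  rw [Real.dist_eq, sub_zero, abs_of_nonneg h4]
  have h5 : δ * circleAverage (fun z => ‖γ z‖) 0 ρ < δ * (|m| + 1) :=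
    mul_lt_mul_of_pos_left h1 hδ0
  have h6 : δ * (|m| + 1) = ε / 2 := by rw [hδ]; field_simp
  have h7 : (2 * δ)⁻¹ * circleAverage (fun z => ‖γ z‖ - (f z * γ z).re) 0 ρ ≤
      (2 * δ)⁻¹ * (δ * ε) := mul_le_mul_of_nonneg_left h2.le (by positivity)
  have h8 : (2 * δ)⁻¹ * (δ * ε) = ε / 2 := by field_simp
  linarith

lemma conj_eq_of_norm {z : ℂ} {ρ : ℝ} (hρ : 0 < ρ) (hz : ‖z‖ = ρ) : conj z = (ρ : ℂ) ^ 2 * z⁻¹ := by
  have hz0 : z ≠ 0 := by
    intro h; rw [h, norm_zero] at hz; linarith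
  have := Complex.mul_conj' z
  rw [hz] at this
  field_simp
  linear_combination this

/-- Reflection of Laurent coefficients from an asymptotic boundary identity. -/
lemma lc_reflect {r : ℝ} (hr0 : 0 < r) (hr1 : r < 1) {F G : ℂ → ℂ}
    (hF : DifferentiableOn ℂ F (ann r 1)) (hG : DifferentiableOn ℂ G (ann r 1))
    (h : Tendsto (fun ρ => circleAverage (fun z => ‖F z - conj (G z)‖) 0 ρ) (𝓝[<] 1) (𝓝 0))
    {σ : ℝ} (hσ : σ ∈ Ioo r 1) (k : ℤ) : lc F σ k = conj (lc G σ (-k)) := by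
  have h1 : Tendsto (fun ρ : ℝ => ‖lc F σ k * (ρ : ℂ) ^ k - conj (lc G σ (-k)) * (ρ : ℂ) ^ (-k)‖)
      (𝓝[<] 1) (𝓝 0) := by
    refine squeeze_zero' (Eventually.of_forall fun _ => norm_nonneg _) ?_ h
    filter_upwards [ev_Ioo hr1] with ρ hρ
    have hρ0 : 0 < ρ := hr0.trans hρ.1
    have hρc : (ρ : ℂ) ≠ 0 := by exact_mod_cast hρ0.ne'
    have hcF := contOn_sphere hF hρ
    have hcG := contOn_sphere hG hρ
    rw [lc_eq_ann hr0.le hF hσ hρ, lc_eq_ann hr0.le hG hσ hρ, lc, lc,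
      ← CA_conj (F := fun z => G z * z ^ (- -k)) hρ0 (hcG.mul (continuousOn_zpow_sphere hρ0 _)), mul_comm _ ((ρ : ℂ) ^ k),
      mul_comm _ ((ρ : ℂ) ^ (-k)), ← CA_const_mul, ← CA_const_mul, ← CA_sub hρ0]
    · refine (norm_CA_le _ _).trans (le_of_eq (CA_congr hρ0 fun z hz => ?_))
      have hz0 : z ≠ 0 := by
        intro h; rw [h, norm_zero] at hz; linarith
      have e : (ρ : ℂ) ^ k * (F z * z ^ (-k)) - (ρ : ℂ) ^ (-k) * conj (G z * z ^ (- -k)) =
          (F z - conj (G z)) * ((ρ : ℂ) ^ k * z ^ (-k)) := by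
        rw [map_mul, map_zpow₀, conj_eq_of_norm hρ0 hz, neg_neg, mul_zpow, inv_zpow', sq,
          mul_zpow]
        have : (ρ : ℂ) ^ (-k) * (ρ : ℂ) ^ k = 1 := by rw [← zpow_add₀ hρc]; simp
        linear_combination (-(conj (G z) * (ρ : ℂ) ^ k * z ^ (-k))) * this
      rw [e, norm_mul, norm_mul, norm_zpow, norm_zpow, hz, Complex.norm_real,
        Real.norm_of_nonneg hρ0.le, ← zpow_add₀ hρ0.ne']
      simp
    · exact (hcF.mul (continuousOn_zpow_sphere hρ0 _)).const_mul _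
    · exact (Complex.continuous_conj.comp_continuousOn
        (hcG.mul (continuousOn_zpow_sphere hρ0 _))).const_mul _
  have h2 : Tendsto (fun ρ : ℝ => ‖lc F σ k * (ρ : ℂ) ^ k - conj (lc G σ (-k)) * (ρ : ℂ) ^ (-k)‖)
      (𝓝[<] 1) (𝓝 ‖lc F σ k * ((1 : ℝ) : ℂ) ^ k - conj (lc G σ (-k)) * ((1 : ℝ) : ℂ) ^ (-k)‖) := by
    refine Tendsto.mono_left (ContinuousAt.tendsto ?_) nhdsWithin_le_nhds
    have hz : ∀ j : ℤ, ContinuousAt (fun ρ : ℝ => (ρ : ℂ) ^ j) 1 := fun j =>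
      Complex.continuous_ofReal.continuousAt.zpow₀ j (Or.inl (by simp))
    exact (((hz k).const_mul _).sub ((hz (-k)).const_mul _)).norm
  have h3 := tendsto_nhds_unique h2 h1
  simpa [sub_eq_zero] using h3

/-- Analytic continuation across the unit circle from reflected coefficients. -/
lemma extend_of_reflect {r : ℝ} (hr0 : 0 < r) {F G : ℂ → ℂ}
    (hF : DifferentiableOn ℂ F (ann r 1)) (hG : DifferentiableOn ℂ G (ann r 1))
    {σ : ℝ} (hσ : σ ∈ Ioo r 1) (h : ∀ k, lc F σ k = conj (lc G σ (-k))) :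
    DifferentiableOn ℂ (ser (lc F σ)) (ann r r⁻¹) ∧ (∀ z ∈ ann r 1, ser (lc F σ) z = F z) ∧
      ∀ z ∈ ann r 1, ser (lc F σ) (conj z)⁻¹ = conj (G z) := by
  have hs1 : ∀ ρ ∈ Ioo r 1, Summable fun k : ℤ => ‖lc F σ k‖ * ρ⁻¹ ^ k := by
    intro ρ hρ
    have h1 := summable_lc hr0.le hG hσ hρ
    have h2 := (Equiv.neg ℤ).summable_iff.2 h1
    refine h2.congr fun k => ?_
    simp only [Function.comp, Equiv.neg_apply]
    rw [h k, Complex.norm_conj, inv_zpow']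
  refine ⟨differentiableOn_ser hr0.le fun ρ hρ => ?_, fun z hz => ?_, fun z hz => ?_⟩
  · have hρ0 : 0 < ρ := hr0.trans hρ.1
    have h1 : r < ρ⁻¹ := by
      rw [lt_inv_comm₀ hr0 hρ0]; exact hρ.2
    obtain ⟨τ, hτ1, hτ2⟩ := exists_between (lt_min (lt_min hρ.1 h1) (hσ.1.trans hσ.2))
    have hτ : τ ∈ Ioo r 1 := ⟨hτ1, hτ2.trans_le (min_le_right _ _)⟩
    have hτ0 : 0 < τ := hr0.trans hτ1
    have h3 : τ ≤ ρ := (hτ2.trans_le ((min_le_left _ _).trans (min_le_left _ _))).le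
    have h4 : ρ ≤ τ⁻¹ := by
      rw [le_inv_comm₀ hρ0 hτ0]
      exact (hτ2.trans_le ((min_le_left _ _).trans (min_le_right _ _))).le
    refine Summable.of_nonneg_of_le (fun k => by positivity) (fun k => ?_)
      ((summable_lc hr0.le hF hσ hτ).add (hs1 τ hτ))
    rw [← mul_add]
    exact mul_le_mul_of_nonneg_left (zpow_le_add hτ0 h3 h4 k) (norm_nonneg _)
  · exact (hasSum_lc hr0.le hF hσ hz).tsum_eq
  · have h1 := hasSum_lc hr0.le hG hσ hz
    have h2 := (Equiv.neg ℤ).hasSum_iff.2 (Complex.hasSum_conj'.2 h1)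
    refine HasSum.tsum_eq ?_
    convert h2 using 2 with k
    simp only [Function.comp, Equiv.neg_apply]
    rw [h k, map_mul, map_zpow₀, inv_zpow']

lemma Tight.reflect_sq {r : ℝ} (hr0 : 0 < r) (hr1 : r < 1) {f γ : ℂ → ℂ} (hf : Bd r f)
    (hγ : DifferentiableOn ℂ γ (ann r 1)) (h : Tight f γ) {σ : ℝ} (hσ : σ ∈ Ioo r 1) (k : ℤ) :
    lc γ σ k = conj (lc (fun z => γ z * f z ^ 2) σ (-k)) := by
  refine lc_reflect hr0 hr1 hγ (hγ.mul (hf.1.pow 2)) ?_ hσ k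
  have h1 := (h.const_mul 2).add ((h.tendsto_im hr0 hr1 hf hγ).const_mul 2)
  simp only [mul_zero, add_zero] at h1
  refine squeeze_zero' (Eventually.of_forall fun _ =>
    Real.circleAverage_nonneg_of_nonneg fun z _ => norm_nonneg _) ?_ h1
  filter_upwards [ev_Ioo hr1] with ρ hρ
  have hρ0 : 0 < ρ := hr0.trans hρ.1
  have hc : ContinuousOn (fun z => f z * γ z) (sphere 0 ρ) := contOn_sphere (hf.1.mul hγ) hρ
  have hcg := contOn_sphere hγ hρ
  have hcr : ContinuousOn (fun z => ‖γ z‖ - (f z * γ z).re) (sphere 0 ρ) :=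
    hcg.norm.sub (Complex.continuous_re.comp_continuousOn hc)
  have hci : ContinuousOn (fun z => |(f z * γ z).im|) (sphere 0 ρ) :=
    (Complex.continuous_im.comp_continuousOn hc).abs
  rw [← CA_const_mul_real, ← CA_const_mul_real, ← CA_add hρ0 (hcr.const_mul _) (hci.const_mul _)]
  refine CA_mono hρ0 (hcg.sub (Complex.continuous_conj.comp_continuousOn
    (contOn_sphere (hγ.mul (hf.1.pow 2)) hρ))).norm ((hcr.const_mul _).add (hci.const_mul _))
    fun z hz => ?_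
  have hw := hf.2 z (mem_ann_of_norm hρ hz)
  set w := f z
  set g := γ z
  have e : g - conj (g * w ^ 2) = g * (1 - (‖w‖ : ℂ) ^ 2) + (2 * (w * g).im * Complex.I) * conj w := by
    have h1 := Complex.sub_conj (w * g)
    have h2 := Complex.mul_conj' w
    push_cast at h1
    rw [← h1, ← h2]
    simp only [map_mul, map_pow]
    ring
  have h2 : ‖g * (1 - (‖w‖ : ℂ) ^ 2)‖ ≤ 2 * (‖g‖ - (w * g).re) := by
    have h3 : (1 - (‖w‖ : ℂ) ^ 2) = ((1 - ‖w‖ ^ 2 : ℝ) : ℂ) := by push_cast; ring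
    have h4 : 0 ≤ ‖w‖ := norm_nonneg _
    rw [h3, norm_mul, Complex.norm_real, Real.norm_of_nonneg (by nlinarith)]
    have h5 : (w * g).re ≤ ‖w‖ * ‖g‖ := (Complex.re_le_norm _).trans (norm_mul _ _).le
    nlinarith [mul_nonneg (norm_nonneg g) (sq_nonneg (1 - ‖w‖))]
  have h3 : ‖(2 * (w * g).im * Complex.I) * conj w‖ ≤ 2 * |(w * g).im| := by
    rw [norm_mul, norm_mul, norm_mul, Complex.norm_I, Complex.norm_conj, Complex.norm_real,
      Real.norm_eq_abs, mul_one, Complex.norm_two]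
    exact mul_le_of_le_one_right (by positivity) hw
  change ‖g - conj (g * w ^ 2)‖ ≤ _
  rw [e]
  exact (norm_add_le _ _).trans (add_le_add h2 h3)

lemma Tight.reflect_prod {r : ℝ} (hr0 : 0 < r) (hr1 : r < 1) {f γ : ℂ → ℂ} (hf : Bd r f)
    (hγ : DifferentiableOn ℂ γ (ann r 1)) (h : Tight f γ) {σ : ℝ} (hσ : σ ∈ Ioo r 1) (k : ℤ) :
    lc (fun z => f z * γ z) σ k = conj (lc (fun z => f z * γ z) σ (-k)) := by
  refine lc_reflect hr0 hr1 (hf.1.mul hγ) (hf.1.mul hγ) ?_ hσ k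
  have h1 := (h.tendsto_im hr0 hr1 hf hγ).const_mul 2
  simp only [mul_zero] at h1
  refine h1.congr fun ρ => ?_
  rw [← CA_const_mul_real]
  congr 1
  ext z
  rw [Complex.sub_conj, norm_mul, Complex.norm_I, mul_one, Complex.norm_real, Real.norm_eq_abs,
    abs_mul, abs_two]
  rfl

lemma CA_eq_zero_imp {H : ℂ → ℝ} {ρ : ℝ} (hρ : 0 < ρ) (hH : ContinuousOn H (sphere 0 ρ))
    (h0 : ∀ z : ℂ, ‖z‖ = ρ → 0 ≤ H z) (h : circleAverage H 0 ρ = 0) {z : ℂ} (hz : ‖z‖ = ρ) :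
    H z = 0 := by
  by_contra hne
  have hpos : 0 < H z := lt_of_le_of_ne (h0 z hz) (Ne.symm hne)
  have hn : ∀ θ, ‖circleMap 0 ρ θ‖ = ρ := fun θ => by simp [abs_of_pos hρ]
  have hzs : z ∈ circleMap 0 ρ '' Ioc 0 (2 * π) := by
    rw [image_circleMap_Ioc, abs_of_pos hρ]; simpa using hz
  obtain ⟨θ, hθ, rfl⟩ := hzs
  have hc : Continuous fun θ => H (circleMap 0 ρ θ) :=
    hH.comp_continuous (continuous_circleMap 0 ρ) fun θ => by simp [abs_of_pos hρ]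
  have := intervalIntegral.integral_pos Real.two_pi_pos hc.continuousOn
    (fun x _ => h0 _ (hn x)) ⟨θ, Ioc_subset_Icc_self hθ, hpos⟩
  have h2 : 0 < circleAverage H 0 ρ := by
    rw [circleAverage, smul_eq_mul]; positivity
  linarith

lemma tendsto_radial (ζ : ℂ) : Tendsto (fun t : ℝ => (t : ℂ) * ζ) (𝓝[<] 1) (𝓝 ζ) := by
  have : ContinuousAt (fun t : ℝ => (t : ℂ) * ζ) 1 :=
    (Complex.continuous_ofReal.mul continuous_const).continuousAt
  have h := this.tendsto.mono_left (nhdsWithin_le_nhds (s := Iio 1))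
  simpa using h

lemma radial_mem {r : ℝ} (hr0 : 0 < r) {ζ : ℂ} (h1 : r < ‖ζ‖) (h2 : ‖ζ‖ ≤ 1) :
    ∀ᶠ t : ℝ in 𝓝[<] 1, (t : ℂ) * ζ ∈ ann r 1 ∧ (t : ℂ) * ζ ≠ ζ := by
  have hζ : 0 < ‖ζ‖ := hr0.trans h1
  have h3 : r / ‖ζ‖ < 1 := (div_lt_one hζ).2 h1
  filter_upwards [Ioo_mem_nhdsLT h3] with t ht
  have ht0 : 0 < t := (div_pos hr0 hζ).trans ht.1
  have hn : ‖(t : ℂ) * ζ‖ = t * ‖ζ‖ := by
    rw [norm_mul, Complex.norm_real, Real.norm_of_nonneg ht0.le]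
  refine ⟨⟨?_, ?_⟩, fun h => ?_⟩
  · rw [hn]; exact (div_lt_iff₀ hζ).1 ht.1
  · rw [hn]; nlinarith [ht.2]
  · rw [h] at hn
    nlinarith [ht.2]

lemma freq_ann {r : ℝ} (hr0 : 0 < r) {ζ : ℂ} (h1 : r < ‖ζ‖) (h2 : ‖ζ‖ ≤ 1) :
    ∃ᶠ w in 𝓝[≠] ζ, w ∈ ann r 1 := by
  have ht : Tendsto (fun t : ℝ => (t : ℂ) * ζ) (𝓝[<] 1) (𝓝[≠] ζ) :=
    tendsto_nhdsWithin_iff.2 ⟨tendsto_radial ζ, (radial_mem hr0 h1 h2).mono fun t h => h.2⟩
  exact ht.frequently ((radial_mem hr0 h1 h2).mono fun t h => h.1).frequently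

lemma le_of_le_on_ann {r : ℝ} (hr0 : 0 < r) {ζ : ℂ} (h1 : r < ‖ζ‖) (h2 : ‖ζ‖ ≤ 1) {u v : ℂ → ℝ}
    (hu : ContinuousAt u ζ) (hv : ContinuousAt v ζ) (h : ∀ z ∈ ann r 1, u z ≤ v z) : u ζ ≤ v ζ :=
  le_of_tendsto_of_tendsto (hu.tendsto.comp (tendsto_radial ζ))
    (hv.tendsto.comp (tendsto_radial ζ)) ((radial_mem hr0 h1 h2).mono fun _ ht => h _ ht.1)

lemma eq_of_eq_on_ann {r : ℝ} (hr0 : 0 < r) {ζ : ℂ} (h1 : r < ‖ζ‖) (h2 : ‖ζ‖ ≤ 1) {u v : ℂ → ℂ}
    (hu : ContinuousAt u ζ) (hv : ContinuousAt v ζ) (h : ∀ z ∈ ann r 1, u z = v z) : u ζ = v ζ :=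
  tendsto_nhds_unique_of_eventuallyEq (hu.tendsto.comp (tendsto_radial ζ))
    (hv.tendsto.comp (tendsto_radial ζ)) ((radial_mem hr0 h1 h2).mono fun _ ht => h _ ht.1)

lemma tendsto_CA_one {E : Type*} [NormedAddCommGroup E] [NormedSpace ℝ E] {H : ℂ → E} {r : ℝ}
    (hr0 : 0 < r) (hr1 : r < 1) (hH : ContinuousOn H {z | r < ‖z‖ ∧ ‖z‖ ≤ 1}) :
    Tendsto (fun ρ => circleAverage H 0 ρ) (𝓝[<] 1) (𝓝 (circleAverage H 0 1)) := by
  have h1 : ContinuousOn (circleAverage H 0) (Ioc r 1) :=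
    Real.ContinuousOn.circleAverage (c := 0) (s := Ioc r 1) (by simpa using hH)
      fun t ht => (hr0.trans ht.1).le
  have h2 := (h1 1 ⟨hr1, le_rfl⟩).tendsto
  refine h2.mono_left ?_
  exact nhdsWithin_le_iff.2 (mem_of_superset (Ioo_mem_nhdsLT hr1) Ioo_subset_Ioc_self)

lemma one_lt_inv' {r : ℝ} (hr0 : 0 < r) (hr1 : r < 1) : 1 < r⁻¹ := one_lt_inv₀ hr0 |>.2 hr1

lemma tendsto_rot (ζ : ℂ) (hζ : ζ ≠ 0) :
    Tendsto (fun t : ℝ => ζ * Complex.exp (t * Complex.I)) (𝓝[>] 0) (𝓝[≠] ζ) := by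
  refine tendsto_nhdsWithin_iff.2 ⟨?_, ?_⟩
  · have : ContinuousAt (fun t : ℝ => ζ * Complex.exp (t * Complex.I)) 0 := by fun_prop
    have h := this.tendsto.mono_left (nhdsWithin_le_nhds (s := Ioi 0))
    simpa using h
  · filter_upwards [Ioo_mem_nhdsGT Real.pi_pos] with t ht
    intro h
    have h1 : Complex.exp (t * Complex.I) = 1 := by
      have : ζ * Complex.exp (t * Complex.I) = ζ * 1 := by simpa using h
      exact mul_left_cancel₀ hζ this
    have h2 := congrArg Complex.im h1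
    rw [Complex.exp_ofReal_mul_I_im] at h2
    have := Real.sin_pos_of_pos_of_lt_pi ht.1 ht.2
    simp at h2
    linarith

/-- Structure of a tight pair at the outer circle. -/
theorem Tight.structure {r : ℝ} (hr0 : 0 < r) (hr1 : r < 1) {f γ : ℂ → ℂ} (hf : Bd r f)
    (hγ : DifferentiableOn ℂ γ (ann r 1)) (h : Tight f γ) :
    ∃ Γ : ℂ → ℂ, DifferentiableOn ℂ Γ (ann r r⁻¹) ∧ (∀ z ∈ ann r 1, Γ z = γ z) ∧
      (∀ z ∈ ann r 1, Γ (conj z)⁻¹ = conj (γ z * f z ^ 2)) ∧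
      ((∃ z ∈ ann r 1, γ z ≠ 0) → ∃ F : ℂ → ℂ, (∀ z ∈ ann r 1, F z = f z) ∧
        ∀ ζ : ℂ, ‖ζ‖ = 1 → AnalyticAt ℂ F ζ ∧ ‖F ζ‖ = 1 ∧ F ζ * Γ ζ = ‖Γ ζ‖) := by
  obtain ⟨σ, hσ⟩ : ∃ σ, σ ∈ Ioo r 1 := exists_between hr1
  have hri := one_lt_inv' hr0 hr1
  obtain ⟨hΓ1, hΓ2, hΓ3⟩ := extend_of_reflect hr0 hγ (hγ.mul (hf.1.pow 2)) hσ
    (h.reflect_sq hr0 hr1 hf hγ hσ)
  obtain ⟨hU1, hU2, -⟩ := extend_of_reflect hr0 (hf.1.mul hγ) (hf.1.mul hγ) hσ
    (h.reflect_prod hr0 hr1 hf hγ hσ)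
  set Γ := ser (lc γ σ)
  set U := ser (lc (f * γ) σ)
  refine ⟨Γ, hΓ1, hΓ2, hΓ3, ?_⟩
  rintro ⟨z₀, hz₀, hγ₀⟩
  have hsub : {z : ℂ | r < ‖z‖ ∧ ‖z‖ ≤ 1} ⊆ ann r r⁻¹ := fun z hz => ⟨hz.1, hz.2.trans_lt hri⟩
  have hΓa : AnalyticOnNhd ℂ Γ (ann r r⁻¹) := hΓ1.analyticOnNhd (isOpen_ann _ _)
  have hUa : AnalyticOnNhd ℂ U (ann r r⁻¹) := hU1.analyticOnNhd (isOpen_ann _ _)
  have hT : ∀ ζ : ℂ, ‖ζ‖ = 1 → ζ ∈ ann r r⁻¹ := fun ζ hζ => mem_ann_of_norm ⟨hr1, hri⟩ hζ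
  -- `U = |Γ|` on the unit circle
  have hUΓ : ∀ ζ : ℂ, ‖ζ‖ = 1 → U ζ = ‖Γ ζ‖ := by
    have hH : ContinuousOn (fun z => ‖Γ z‖ - (U z).re) (ann r r⁻¹) :=
      hΓ1.continuousOn.norm.sub (Complex.continuous_re.comp_continuousOn hU1.continuousOn)
    have h1 := tendsto_CA_one hr0 hr1 (hH.mono hsub)
    have h2 : Tendsto (fun ρ => circleAverage (fun z => ‖Γ z‖ - (U z).re) 0 ρ) (𝓝[<] 1) (𝓝 0) := by
      refine h.congr' ?_
      filter_upwards [ev_Ioo hr1] with ρ hρ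
      refine CA_congr (hr0.trans hρ.1) fun z hz => ?_
      rw [hΓ2 z (mem_ann_of_norm hρ hz), hU2 z (mem_ann_of_norm hρ hz)]
      rfl
    have h3 := tendsto_nhds_unique h1 h2
    have h4 : ∀ ζ : ℂ, ‖ζ‖ = 1 → ‖U ζ‖ ≤ ‖Γ ζ‖ := by
      intro ζ hζ
      refine le_of_le_on_ann hr0 (by rw [hζ]; exact hr1) hζ.le (u := fun z => ‖U z‖)
        (v := fun z => ‖Γ z‖) (hUa ζ (hT ζ hζ)).continuousAt.norm
        (hΓa ζ (hT ζ hζ)).continuousAt.norm fun z hz => ?_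
      rw [hΓ2 z hz, hU2 z hz, Pi.mul_apply, norm_mul]
      exact mul_le_of_le_one_left (norm_nonneg _) (hf.2 z hz)
    intro ζ hζ
    have h5 := CA_eq_zero_imp one_pos (hH.mono (sphere_subset_ann hr1 hri))
      (fun z hz => sub_nonneg.2 ((Complex.re_le_norm _).trans (h4 z hz))) h3 hζ
    have h6 : (U ζ).re = ‖Γ ζ‖ := by linarith
    have h7 : ‖U ζ‖ ^ 2 = (U ζ).re ^ 2 + (U ζ).im ^ 2 := by
      rw [Complex.sq_norm, Complex.normSq_apply]; ring
    have h8 := pow_le_pow_left₀ (norm_nonneg _) (h4 ζ hζ) 2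
    have h9 : (U ζ).im = 0 := by
      rw [h6] at h7
      exact pow_eq_zero_iff (n := 2) (by norm_num) |>.1
        (le_antisymm (by linarith) (sq_nonneg _))
    exact Complex.ext (by simpa using h6) (by simpa using h9)
  -- isolated zeros of `Γ`
  have hΓne : ∀ ζ ∈ ann r r⁻¹, ∀ᶠ w in 𝓝[≠] ζ, Γ w ≠ 0 := by
    intro ζ hζ
    rcases (hΓa ζ hζ).eventually_eq_zero_or_eventually_ne_zero with h0 | h0
    · exfalso
      have := hΓa.eqOn_zero_of_preconnected_of_eventuallyEq_zero (isPreconnected_ann hr0.le) hζ h0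
        (ann_mono le_rfl hri.le hz₀)
      rw [hΓ2 z₀ hz₀] at this
      exact hγ₀ this
    · exact h0
  have hQm : MeromorphicOn (fun z => U z / Γ z) (ann r r⁻¹) :=
    hUa.meromorphicOn.div hΓa.meromorphicOn
  set Q := toMeromorphicNFOn (fun z => U z / Γ z) (ann r r⁻¹)
  have hQf : ∀ ζ : ℂ, r < ‖ζ‖ → ‖ζ‖ ≤ 1 → ∀ᶠ w in 𝓝[≠] ζ, Γ w ≠ 0 ∧ Q w = U w / Γ w := by
    intro ζ h1 h2
    exact (hΓne ζ (hsub ⟨h1, h2⟩)).and (hQm.toMeromorphicNFOn_eq_self_on_nhdsNE (hsub ⟨h1, h2⟩))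
  have hQf2 : ∀ ζ : ℂ, r < ‖ζ‖ → ‖ζ‖ ≤ 1 → ∃ᶠ w in 𝓝[≠] ζ, w ∈ ann r 1 ∧ Q w = f w := by
    intro ζ h1 h2
    refine ((freq_ann hr0 h1 h2).and_eventually (hQf ζ h1 h2)).mono ?_
    rintro w ⟨hw, hw1, hw2⟩
    refine ⟨hw, ?_⟩
    rw [hw2, hU2 w hw, div_eq_iff hw1, hΓ2 w hw, Pi.mul_apply]
  have hQa : ∀ ζ : ℂ, r < ‖ζ‖ → ‖ζ‖ ≤ 1 → AnalyticAt ℂ Q ζ := by
    intro ζ h1 h2
    have hnf : MeromorphicNFAt Q ζ := meromorphicNFOn_toMeromorphicNFOn _ _ (hsub ⟨h1, h2⟩)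
    rw [← hnf.meromorphicOrderAt_nonneg_iff_analyticAt]
    by_contra hneg
    have h3 := tendsto_cobounded_of_meromorphicOrderAt_neg (not_le.1 hneg)
    rw [← tendsto_norm_atTop_iff_cobounded] at h3
    have h4 := h3.eventually (eventually_gt_atTop 1)
    obtain ⟨w, ⟨hw, hw1⟩, hw2⟩ := ((hQf2 ζ h1 h2).and_eventually h4).exists
    rw [hw1] at hw2
    linarith [hf.2 w hw]
  have hQΓ : ∀ ζ : ℂ, ‖ζ‖ = 1 → Q ζ * Γ ζ = ‖Γ ζ‖ := by
    intro ζ hζ
    have h1 : r < ‖ζ‖ := by rw [hζ]; exact hr1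
    rw [← hUΓ ζ hζ]
    refine tendsto_nhds_unique_of_eventuallyEq (l := 𝓝[≠] ζ)
      (((hQa ζ h1 hζ.le).continuousAt.mul (hΓa ζ (hT ζ hζ)).continuousAt).tendsto.mono_left
        nhdsWithin_le_nhds)
      ((hUa ζ (hT ζ hζ)).continuousAt.tendsto.mono_left nhdsWithin_le_nhds) ?_
    filter_upwards [hQf ζ h1 hζ.le] with w hw
    rw [Pi.mul_apply, hw.2, div_mul_cancel₀ _ hw.1]
  refine ⟨Q, fun z hz => ?_, fun ζ hζ => ⟨hQa ζ (by rw [hζ]; exact hr1) hζ.le, ?_, hQΓ ζ hζ⟩⟩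
  · refine tendsto_nhds_unique_of_frequently_eq (l := 𝓝[≠] z)
      ((hQa z hz.1 hz.2.le).continuousAt.tendsto.mono_left nhdsWithin_le_nhds)
      ((hf.1.continuousOn.continuousAt ((isOpen_ann _ _).mem_nhds hz)).tendsto.mono_left
        nhdsWithin_le_nhds) ((hQf2 z hz.1 hz.2.le).mono fun w hw => hw.2)
  · have hζ0 : ζ ≠ 0 := by
      intro h0; rw [h0, norm_zero] at hζ; exact zero_ne_one hζ
    have h1 := tendsto_rot ζ hζ0
    have h2 : Tendsto (fun t : ℝ => ‖Q (ζ * Complex.exp (t * Complex.I))‖) (𝓝[>] 0) (𝓝 ‖Q ζ‖) :=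
      (((hQa ζ (by rw [hζ]; exact hr1) hζ.le).continuousAt.tendsto.mono_left
        nhdsWithin_le_nhds).comp h1).norm
    refine tendsto_nhds_unique_of_eventuallyEq h2 tendsto_const_nhds ?_
    filter_upwards [h1.eventually (hΓne ζ (hT ζ hζ))] with t ht
    have h3 : ‖ζ * Complex.exp (t * Complex.I)‖ = 1 := by
      rw [norm_mul, hζ, Complex.norm_exp_ofReal_mul_I, mul_one]
    have h4 := congrArg norm (hQΓ _ h3)
    rw [norm_mul, Complex.norm_real, norm_norm] at h4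
    exact mul_right_cancel₀ (norm_ne_zero_iff.2 ht) (by rw [h4, one_mul])

end Pool.Agent.MP_faa29e_an

end MrgPart1

-- ======== part 2: formerly Pool.Agent.MP_faa29e_an.Dual
section MrgPart2

/-!
Existence of the dual extremal pair.
-/

open Metric Set Filter Topology
open Real (circleAverage)
open scoped Real ComplexConjugate

namespace Pool.Agent.MP_faa29e_an

lemma hasSum_cast {ι M : Type*} [AddCommMonoid M] [TopologicalSpace M] {f g : ι → M} {a b : M}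
    (h : HasSum f a) (h1 : ∀ i, f i = g i) (h2 : a = b) : HasSum g b := by
  obtain rfl : f = g := funext h1
  rwa [h2] at h

lemma isClosed_cann (a b : ℝ) : IsClosed (cann a b) :=
  (isClosed_le continuous_const continuous_norm).inter (isClosed_le continuous_norm continuous_const)

/-- Maximum principle on an annulus. -/
lemma max_principle {F : ℂ → ℂ} {a b C : ℝ} (hc : ContinuousOn F (cann a b))
    (hd : DifferentiableOn ℂ F (ann a b)) (h1 : ∀ z : ℂ, ‖z‖ = a → ‖F z‖ ≤ C)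
    (h2 : ∀ z : ℂ, ‖z‖ = b → ‖F z‖ ≤ C) {z : ℂ} (hz : z ∈ ann a b) : ‖F z‖ ≤ C := by
  have hcl : closure (ann a b) ⊆ cann a b :=
    closure_minimal (ann_subset_cann a b) (isClosed_cann a b)
  refine Complex.norm_le_of_forall_mem_frontier_norm_le (U := ann a b) ?_ ⟨hd, hc.mono hcl⟩ ?_
    (subset_closure hz)
  · exact (isBounded_closedBall (x := (0 : ℂ)) (r := b)).subset fun w hw => by simpa using hw.2.le
  · intro w hw
    rw [(isOpen_ann a b).frontier_eq] at hw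
    have h3 := hcl hw.1
    have h4 := hw.2
    rcases eq_or_lt_of_le h3.1 with h | h
    · exact h1 w h.symm
    · rcases eq_or_lt_of_le h3.2 with h' | h'
      · exact h2 w h'
      · exact absurd ⟨h, h'⟩ h4

lemma CA_inv {E : Type*} [NormedAddCommGroup E] [NormedSpace ℝ E] (F : ℂ → E) {s ρ : ℝ} :
    circleAverage (fun z => F (s / z)) 0 ρ = circleAverage F 0 (s / ρ) := by
  rw [Real.circleAverage_eq_circleAverage_zero_one, Real.circleAverage_eq_circleAverage_zero_one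
    (f := F), ← Real.circleAverage_zero_one_congr_inv (f := fun z => F (((s / ρ : ℝ) : ℂ) * z + 0))]
  congr 1
  ext z
  congr 1
  push_cast
  simp only [add_zero, div_eq_mul_inv, mul_inv]
  ring

lemma inv_mem_ann {r : ℝ} (hr0 : 0 < r) {z : ℂ} (hz : z ∈ ann r 1) : (r : ℂ) / z ∈ ann r 1 := by
  have h0 : 0 < ‖z‖ := hr0.trans hz.1
  have : ‖(r : ℂ) / z‖ = r / ‖z‖ := by
    rw [norm_div, Complex.norm_real, Real.norm_of_nonneg hr0.le]
  refine ⟨?_, ?_⟩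
  · rw [this, lt_div_iff₀ h0]; nlinarith [hz.2]
  · rw [this, div_lt_one h0]; exact hz.1

lemma differentiableOn_inv_comp {r : ℝ} (hr0 : 0 < r) {F : ℂ → ℂ}
    (hF : DifferentiableOn ℂ F (ann r 1)) :
    DifferentiableOn ℂ (fun z => F ((r : ℂ) / z)) (ann r 1) :=
  hF.comp (f := fun z => (r : ℂ) / z) ((differentiableOn_const _).div differentiableOn_id
    fun _ hz => ne_zero_of_mem_ann hr0.le hz) fun _ hz => inv_mem_ann hr0 hz

lemma Bd.inv {r : ℝ} (hr0 : 0 < r) {f : ℂ → ℂ} (hf : Bd r f) : Bd r fun z => f ((r : ℂ) / z) :=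
  ⟨differentiableOn_inv_comp hr0 hf.1, fun _ hz => hf.2 _ (inv_mem_ann hr0 hz)⟩

lemma inv_mem_Ioo {r ρ : ℝ} (hr0 : 0 < r) (hρ : ρ ∈ Ioo r 1) : r / ρ ∈ Ioo r 1 := by
  have h0 : 0 < ρ := hr0.trans hρ.1
  exact ⟨by rw [lt_div_iff₀ h0]; nlinarith [hρ.2], (div_lt_one h0).2 hρ.1⟩

/-- Hahn-Banach for a functional dominated through a linear map. -/
lemma exists_clm_of_bound {V X : Type*} [AddCommGroup V] [Module ℂ V] [NormedAddCommGroup X]
    [NormedSpace ℂ X] (T : V →ₗ[ℂ] X) (l : V →ₗ[ℂ] ℂ) {h : ℝ} (hb : ∀ a, ‖l a‖ ≤ h * ‖T a‖) :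
    ∃ L : X →L[ℂ] ℂ, (∀ a, L (T a) = l a) ∧ ∀ x, ‖L x‖ ≤ |h| * ‖x‖ := by
  obtain ⟨g, hg⟩ := T.rangeRestrict.exists_rightInverse_of_surjective T.range_rangeRestrict
  have hg' : ∀ y : LinearMap.range T, T (g y) = y := fun y => by
    have := LinearMap.congr_fun hg y
    simpa using congrArg Subtype.val this
  have hb' : ∀ y : LinearMap.range T, ‖(l.comp g) y‖ ≤ |h| * ‖y‖ := fun y => by
    have := hb (g y)
    rw [hg'] at this
    exact this.trans (mul_le_mul_of_nonneg_right (le_abs_self h) (norm_nonneg _))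
  obtain ⟨L, hL1, hL2⟩ := exists_extension_norm_eq (LinearMap.range T)
    ((l.comp g).mkContinuous |h| hb')
  refine ⟨L, fun a => ?_, fun x => ?_⟩
  · have h1 := hL1 ⟨T a, LinearMap.mem_range_self T a⟩
    simp only [LinearMap.mkContinuous_apply, LinearMap.comp_apply] at h1
    rw [h1]
    have h2 := hb (g ⟨T a, LinearMap.mem_range_self T a⟩ - a)
    rw [map_sub T, hg', sub_self, norm_zero, mul_zero, map_sub] at h2
    exact sub_eq_zero.1 (norm_le_zero_iff.1 h2)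
  · refine (L.le_opNorm x).trans (mul_le_mul_of_nonneg_right ?_ (norm_nonneg _))
    rw [hL2]
    exact LinearMap.mkContinuous_norm_le _ (abs_nonneg h) _

/-- The characters of the circle. -/
noncomputable def ech (k : ℤ) : C(Circle, ℂ) :=
  ⟨fun ζ => (ζ : ℂ) ^ k, continuous_subtype_val.zpow₀ k fun ζ => Or.inl (Circle.coe_ne_zero ζ)⟩

lemma ech_apply (k : ℤ) (ζ : Circle) : ech k ζ = (ζ : ℂ) ^ k := rfl

lemma norm_ech_le (k : ℤ) : ‖ech k‖ ≤ 1 :=
  (ContinuousMap.norm_le _ zero_le_one).2 fun ζ => by simp [ech_apply, norm_zpow]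

lemma hasSum_poisson {ρ : ℝ} (h0 : 0 < ρ) (h1 : ρ < 1) {w : ℂ} (hw : ‖w‖ = 1) :
    HasSum (fun k : ℤ => (ρ : ℂ) ^ k.natAbs * w ^ k)
      (((1 - ρ ^ 2) / ‖1 - ρ * w‖ ^ 2 : ℝ) : ℂ) := by
  have hw0 : w ≠ 0 := by
    intro h; rw [h, norm_zero] at hw; exact zero_ne_one hw
  have ha : ‖(ρ : ℂ) * w‖ < 1 := by
    rw [norm_mul, hw, Complex.norm_real, Real.norm_of_nonneg h0.le]; linarith
  have hb : ‖(ρ : ℂ) * w⁻¹‖ < 1 := by
    rw [norm_mul, norm_inv, hw, Complex.norm_real, Real.norm_of_nonneg h0.le]; linarith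
  have h2 := HasSum.of_nat_of_neg (f := fun k : ℤ => (ρ : ℂ) ^ k.natAbs * w ^ k)
    (g := (1 - ρ * w)⁻¹) (g' := (1 - ρ * w⁻¹)⁻¹)
    (by simpa [mul_pow] using hasSum_geometric_of_norm_lt_one ha)
    (by simpa [mul_pow] using hasSum_geometric_of_norm_lt_one hb)
  refine hasSum_cast h2 (fun _ => rfl) (Eq.symm ?_)
  have ha' : (1 : ℂ) - ρ * w ≠ 0 := by
    intro h; rw [← sub_eq_zero.1 h] at ha; simp at ha
  have hb' : (1 : ℂ) - ρ * w⁻¹ ≠ 0 := by
    intro h; rw [← sub_eq_zero.1 h] at hb; simp at hb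
  have hc : conj w = w⁻¹ := by
    rw [conj_eq_of_norm one_pos hw]; simp
  have hn : ((‖1 - ρ * w‖ : ℝ) : ℂ) ^ 2 = (1 - ρ * w) * (1 - ρ * w⁻¹) := by
    rw [← Complex.mul_conj', map_sub, map_mul, hc]; simp
  push_cast
  rw [hn]
  simp only [pow_zero, zpow_zero, mul_one]
  have hb'' : w - ρ ≠ 0 := by
    intro h
    apply hb'
    rw [← sub_eq_zero.1 h]; field_simp; simp
  field_simp
  ring

lemma summable_pow_natAbs {ρ : ℝ} (h0 : 0 < ρ) (h1 : ρ < 1) :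
    Summable fun k : ℤ => ρ ^ k.natAbs :=
  Summable.of_nat_of_neg (by simpa using summable_geometric_of_lt_one h0.le h1)
    (by simpa using summable_geometric_of_lt_one h0.le h1)

/-- The error term in the Poisson comparison. -/
noncomputable def errE (r ρ : ℝ) : ℝ := (1 - r / ρ)⁻¹ - (1 - r * ρ)⁻¹

lemma tendsto_errE {r : ℝ} (hr1 : r < 1) : Tendsto (errE r) (𝓝[<] 1) (𝓝 0) := by
  have h : ContinuousAt (errE r) 1 := by
    unfold errE
    refine ContinuousAt.sub (ContinuousAt.inv₀ (continuousAt_const.sub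
      (continuousAt_const.div continuousAt_id one_ne_zero)) ?_)
      (ContinuousAt.inv₀ (by fun_prop) ?_)
    · simp only [div_one]; linarith
    · simp only [mul_one]; linarith
  have h2 := h.tendsto.mono_left (nhdsWithin_le_nhds (s := Iio 1))
  simpa [errE] using h2

lemma outer_bound {r : ℝ} (hr0 : 0 < r) (L : C(Circle, ℂ) →L[ℂ] ℂ) {g : ℤ → ℂ}
    (hg : ∀ k, g k = L (ech (-k))) {C : ℝ} (hp : ∀ n : ℕ, ‖g n‖ * 1 ^ n ≤ C)
    (hm : ∀ n : ℕ, ‖g (-n)‖ ≤ C * r ^ n) {ρ : ℝ} (hρ : ρ ∈ Ioo r 1) {ε : ℝ} (hε : 0 < ε) :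
    ∃ Φ : C(Circle, ℂ), ‖Φ‖ ≤ 1 ∧
      circleAverage (fun z => ‖ser g z‖) 0 ρ ≤ (L Φ).re + C * errE r ρ + ε := by
  have hρ0 : 0 < ρ := hr0.trans hρ.1
  have hρc : (ρ : ℂ) ≠ 0 := by exact_mod_cast hρ0.ne'
  have hs : ∀ σ ∈ Ioo r 1, Summable fun k : ℤ => ‖g k‖ * σ ^ k := fun σ hσ =>
    summable_of_bounds hr0 hσ.1 hσ.2 hp hm
  have hγ : ContinuousOn (ser g) (sphere 0 ρ) := contOn_sphere (differentiableOn_ser hr0.le hs) hρ
  set u : ℂ → ℂ := fun z => conj (ser g z) / ((‖ser g z‖ + ε : ℝ) : ℂ) with hu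
  have hpos : ∀ z, 0 < ‖ser g z‖ + ε := fun z => by positivity
  have huc : ContinuousOn u (sphere 0 ρ) :=
    (Complex.continuous_conj.comp_continuousOn hγ).div
      (Complex.continuous_ofReal.comp_continuousOn (hγ.norm.add continuousOn_const))
      fun z _ => by exact_mod_cast (hpos z).ne'
  have hu1 : ∀ z, ‖u z‖ ≤ 1 := fun z => by
    rw [hu]
    simp only [norm_div, Complex.norm_conj, Complex.norm_real, Real.norm_of_nonneg (hpos z).le]
    rw [div_le_one (hpos z)]; linarith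
  have hu2 : ∀ z, ‖ser g z‖ - ε ≤ (ser g z * u z).re := fun z => by
    have : ser g z * u z = ((‖ser g z‖ ^ 2 / (‖ser g z‖ + ε) : ℝ) : ℂ) := by
      rw [hu]; simp only []
      rw [← mul_div_assoc, Complex.mul_conj']; push_cast; rfl
    rw [this, Complex.ofReal_re, le_div_iff₀ (hpos z)]
    nlinarith
  set uh : ℤ → ℂ := fun k => circleAverage (fun z => u z * (z / ρ) ^ k) 0 ρ with huh
  have hzc : ∀ k : ℤ, ContinuousOn (fun z : ℂ => (z / ρ) ^ k) (sphere 0 ρ) := fun k => by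
    simp only [div_zpow]
    exact (continuousOn_zpow_sphere hρ0 k).div_const _
  have hzn : ∀ z : ℂ, ‖z‖ = ρ → ‖z / ρ‖ = 1 := fun z hz => by
    rw [norm_div, hz, Complex.norm_real, Real.norm_of_nonneg hρ0.le, div_self hρ0.ne']
  have huh1 : ∀ k, ‖uh k‖ ≤ 1 := fun k =>
    norm_CA_le_const hρ0 (huc.mul (hzc k)) fun z hz => by
      rw [norm_mul, norm_zpow, hzn z hz, one_zpow, mul_one]; exact hu1 z
  have hsP := summable_pow_natAbs hρ0 hρ.2
  have hΦs : Summable fun k : ℤ => ((ρ : ℂ) ^ k.natAbs * uh k) • ech (-k) := by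
    refine Summable.of_norm_bounded hsP fun k => ?_
    rw [norm_smul, norm_mul, norm_pow, Complex.norm_real, Real.norm_of_nonneg hρ0.le]
    have h1 := huh1 k
    have h2 := norm_ech_le (-k)
    have h3 : 0 ≤ ρ ^ k.natAbs := by positivity
    calc ρ ^ k.natAbs * ‖uh k‖ * ‖ech (-k)‖ ≤ ρ ^ k.natAbs * 1 * 1 := by gcongr
      _ = _ := by ring
  have hΦ := hΦs.hasSum
  set Φ := ∑' k : ℤ, ((ρ : ℂ) ^ k.natAbs * uh k) • ech (-k)
  refine ⟨Φ, (ContinuousMap.norm_le _ zero_le_one).2 fun ζ => ?_, ?_⟩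
  · have hζ : ‖(ζ : ℂ)‖ = 1 := Circle.norm_coe ζ
    have hζ0 : (ζ : ℂ) ≠ 0 := Circle.coe_ne_zero ζ
    have h1 := (ContinuousMap.evalCLM ℂ ζ).hasSum hΦ
    simp only [ContinuousMap.evalCLM_apply, ContinuousMap.smul_apply, ech_apply, smul_eq_mul] at h1
    set P : ℂ → ℝ := fun z => (1 - ρ ^ 2) / ‖1 - ρ * (z / ρ / ζ)‖ ^ 2 with hP
    have hw : ∀ z : ℂ, ‖z‖ = ρ → ‖z / ρ / ζ‖ = 1 := fun z hz => by
      rw [norm_div, hzn z hz, hζ, div_one]
    have hPc : ContinuousOn P (sphere 0 ρ) := by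
      refine continuousOn_const.div (by fun_prop) fun z hz => ?_
      have h2 := hw z (norm_of_mem_sphere hz)
      refine pow_ne_zero _ (norm_ne_zero_iff.2 fun h => ?_)
      have h3 := congrArg norm (sub_eq_zero.1 h)
      rw [norm_mul, h2, norm_one, Complex.norm_real, Real.norm_of_nonneg hρ0.le] at h3
      linarith [hρ.2]
    have hP0 : ∀ z, 0 ≤ P z := fun z => div_nonneg (by nlinarith [hρ.2]) (by positivity)
    have key : ∀ v : ℂ → ℂ, ContinuousOn v (sphere 0 ρ) → (∀ z, ‖v z‖ ≤ 1) →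
        HasSum (fun k : ℤ => (ρ : ℂ) ^ k.natAbs *
          circleAverage (fun z => v z * (z / ρ) ^ k) 0 ρ * (ζ : ℂ) ^ (-k))
          (circleAverage (fun z => v z * P z) 0 ρ) := by
      intro v hv hv1
      have h2 := hasSum_CA (F := fun (k : ℤ) (z : ℂ) =>
          ((ρ : ℂ) ^ k.natAbs * (ζ : ℂ) ^ (-k)) * (v z * (z / ρ) ^ k))
        (G := fun z => v z * P z) hρ0 (fun k => (hv.mul (hzc k)).const_mul _) hsP
        (fun k z hz => by
          rw [norm_mul, norm_mul, norm_mul, norm_pow, norm_zpow, norm_zpow, hzn z hz, hζ,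
            Complex.norm_real, Real.norm_of_nonneg hρ0.le, one_zpow, one_zpow, mul_one, mul_one]
          exact mul_le_of_le_one_right (by positivity) (hv1 z))
        (fun z hz => by
          have h3 := (hasSum_poisson hρ0 hρ.2 (hw z hz)).mul_left (v z)
          refine hasSum_cast h3 (fun k => ?_) rfl
          rw [div_zpow _ (ζ : ℂ), zpow_neg]
          ring)
      simp only [CA_const_mul] at h2
      refine hasSum_cast h2 (fun k => ?_) rfl
      ring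
    have h2 := h1.unique (key u huc hu1)
    have h3 := key (fun _ => 1) continuousOn_const (fun _ => by simp)
    have h4 : ∀ k : ℤ, (ρ : ℂ) ^ k.natAbs *
        circleAverage (fun z => 1 * (z / ρ) ^ k) 0 ρ * (ζ : ℂ) ^ (-k) = if k = 0 then 1 else 0 := by
      intro k
      have : (fun z : ℂ => 1 * (z / ρ) ^ k) = fun z : ℂ => (ρ : ℂ) ^ (-k) * z ^ k := by
        ext z; rw [div_zpow, zpow_neg]; ring
      rw [this, CA_const_mul, CA_zpow hρ0]
      split_ifs with hk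
      · simp [hk]
      · simp
    simp only [h4] at h3
    have h5 := h3.unique (hasSum_ite_eq 0 1)
    simp only [one_mul] at h5
    rw [CA_ofReal hρ0 hPc] at h5
    have h6 : circleAverage P 0 ρ = 1 := by exact_mod_cast h5
    rw [h2, ← h6]
    refine (norm_CA_le _ _).trans (CA_mono hρ0
      (huc.mul (Complex.continuous_ofReal.comp_continuousOn hPc)).norm hPc fun z _ => ?_)
    rw [norm_mul, Complex.norm_real, Real.norm_of_nonneg (hP0 z)]
    exact mul_le_of_le_one_left (hP0 z) (hu1 z)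
  · have h1 := L.hasSum hΦ
    simp only [map_smul, smul_eq_mul, ← hg] at h1
    have h2 := hasSum_CA (F := fun (k : ℤ) (z : ℂ) => (g k * (ρ : ℂ) ^ k) * (u z * (z / ρ) ^ k))
      (G := fun z => ser g z * u z) hρ0 (fun k => (huc.mul (hzc k)).const_mul _) (hs ρ hρ)
      (fun k z hz => by
        rw [norm_mul, norm_mul, norm_mul, norm_zpow, norm_zpow, hzn z hz,
          Complex.norm_real, Real.norm_of_nonneg hρ0.le, one_zpow, mul_one]
        exact mul_le_of_le_one_right (by positivity) (hu1 z))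
      (fun z hz => by
        have h3 := (hasSum_ser (g := g) (z := z) (by rw [hz]; exact hs ρ hρ)).mul_right (u z)
        refine hasSum_cast h3 (fun k => ?_) rfl
        rw [div_zpow]
        have : (ρ : ℂ) ^ k ≠ 0 := zpow_ne_zero k hρc
        field_simp)
    simp only [CA_const_mul] at h2
    have h3 := h2.sub h1
    have h4 : HasSum (fun k : ℤ => C * r ^ k.natAbs * (ρ ^ k - ρ ^ k.natAbs)) (C * errE r ρ) := by
      have ha : r / ρ < 1 := (div_lt_one hρ0).2 hρ.1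
      have hb : r * ρ < 1 := by nlinarith [hρ.1, hρ.2]
      have h5 := HasSum.of_nat_of_neg
        (f := fun k : ℤ => C * r ^ k.natAbs * (ρ ^ k - ρ ^ k.natAbs)) (g := 0)
        (g' := C * errE r ρ) (by simp) (by
          have h6 := ((hasSum_geometric_of_lt_one (by positivity) ha).sub
            (hasSum_geometric_of_lt_one (by positivity) hb)).mul_left C
          refine hasSum_cast h6 (fun n => ?_) rfl
          simp only [Int.natAbs_neg, Int.natAbs_natCast, zpow_neg, zpow_natCast, div_pow, mul_pow]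
          ring)
      simpa using h5
    have h5 := h3.norm_le_of_bounded h4 fun k => by
      have e : g k * (ρ : ℂ) ^ k * uh k - (ρ : ℂ) ^ k.natAbs * uh k * g k =
          g k * uh k * ((ρ ^ k - ρ ^ k.natAbs : ℝ) : ℂ) := by push_cast; ring
      change ‖g k * (ρ : ℂ) ^ k * uh k - (ρ : ℂ) ^ k.natAbs * uh k * g k‖ ≤ _
      rw [e, norm_mul, norm_mul, Complex.norm_real]
      rcases le_total 0 k with hk | hk
      · obtain ⟨n, rfl⟩ := Int.eq_ofNat_of_zero_le hk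
        simp
      · obtain ⟨n, rfl⟩ := Int.exists_eq_neg_ofNat hk
        have h6 : ρ ^ n ≤ ρ ^ (-(n : ℤ)) := by
          rw [zpow_neg, zpow_natCast]
          have h7 : ρ ^ n ≤ 1 := pow_le_one₀ hρ0.le hρ.2.le
          exact h7.trans (one_le_inv₀ (pow_pos hρ0 n) |>.2 h7)
        simp only [Int.natAbs_neg, Int.natAbs_natCast]
        rw [Real.norm_of_nonneg (sub_nonneg.2 h6)]
        refine mul_le_mul_of_nonneg_right ?_ (sub_nonneg.2 h6)
        exact (mul_le_of_le_one_right (norm_nonneg _) (huh1 _)).trans (hm n)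
    have h6 := (Complex.re_le_norm _).trans h5
    rw [Complex.sub_re, ← CA_re (F := fun z => ser g z * u z) hρ0 (hγ.mul huc)] at h6
    have h7 := CA_mono hρ0 (F := fun z => ‖ser g z‖ - ε) (G := fun z => (ser g z * u z).re)
      (hγ.norm.sub continuousOn_const) (Complex.continuous_re.comp_continuousOn (hγ.mul huc))
      fun z _ => hu2 z
    rw [CA_sub hρ0 hγ.norm continuousOn_const, Real.circleAverage_const] at h7
    linarith

lemma CA_zpow_mul (p : ℂ → ℂ) (σ : ℝ) (k : ℤ) :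
    circleAverage (fun z => z ^ k * p z) 0 σ = lc p σ (-k) := by
  simp only [lc, neg_neg, mul_comm]

lemma CA_sum {ι : Type*} (s : Finset ι) {F : ι → ℂ → ℂ} {ρ : ℝ} (hρ : 0 < ρ)
    (hF : ∀ i ∈ s, ContinuousOn (F i) (sphere 0 ρ)) :
    circleAverage (fun z => ∑ i ∈ s, F i z) 0 ρ = ∑ i ∈ s, circleAverage (F i) 0 ρ :=
  Real.circleAverage_fun_sum fun i hi => circleIntegrable_of_contOn hρ (hF i hi)

lemma tight_nonneg {r : ℝ} (hr0 : 0 < r) {f γ : ℂ → ℂ} (hf : Bd r f) {ρ : ℝ} (hρ : ρ ∈ Ioo r 1) :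
    0 ≤ circleAverage (fun z => ‖γ z‖ - (f z * γ z).re) 0 ρ :=
  Real.circleAverage_nonneg_of_nonneg fun z hz => sub_nonneg.2
    (re_mul_le (hf.2 z (mem_ann_of_norm hρ (norm_of_mem_sphere' (hr0.trans hρ.1) hz))))

lemma tight_eq {r : ℝ} (hr0 : 0 < r) {f γ : ℂ → ℂ} (hf : Bd r f)
    (hγ : DifferentiableOn ℂ γ (ann r 1)) {ρ σ : ℝ} (hρ : ρ ∈ Ioo r 1) (hσ : σ ∈ Ioo r 1) :
    circleAverage (fun z => ‖γ z‖ - (f z * γ z).re) 0 ρ =
      circleAverage (fun z => ‖γ z‖) 0 ρ - (circleAverage (fun z => f z * γ z) 0 σ).re := by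
  have hρ0 : 0 < ρ := hr0.trans hρ.1
  have hc : ContinuousOn (fun z => f z * γ z) (sphere 0 ρ) := contOn_sphere (hf.1.mul hγ) hρ
  have hcr : ContinuousOn (fun z => (f z * γ z).re) (sphere 0 ρ) :=
    Complex.continuous_re.comp_continuousOn hc
  rw [CA_sub hρ0 (contOn_sphere hγ hρ).norm hcr,
    CA_re hρ0 hc, CA_eq_ann (F := fun z => f z * γ z) hr0.le (hf.1.mul hγ) hσ hρ]

/-- A maximiser of the functional attached to `p` has a dual extremal pair. -/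
theorem dual_exists {r : ℝ} (hr0 : 0 < r) (hr1 : r < 1) {f p : ℂ → ℂ} (hf : Bd r f)
    (hp : DifferentiableOn ℂ p (ann 0 2)) {σ : ℝ} (hσ : σ ∈ Ioo r 1)
    (hmax : ∀ g, Bd r g → (circleAverage (fun z => g z * p z) 0 σ).re ≤
      (circleAverage (fun z => f z * p z) 0 σ).re) :
    ∃ γ₁ γ₂ : ℂ → ℂ, DifferentiableOn ℂ γ₁ (ann r 1) ∧ DifferentiableOn ℂ γ₂ (ann r 1) ∧
      (∀ z ∈ ann r 1, γ₁ z + γ₂ (r / z) = p z) ∧ Tight f γ₁ ∧
      Tight (fun z => f (r / z)) γ₂ := by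
  set h := (circleAverage (fun z => f z * p z) 0 σ).re with hh
  have hσ0 : 0 < σ := hr0.trans hσ.1
  have hrc : (r : ℂ) ≠ 0 := by exact_mod_cast hr0.ne'
  have hσ2 : σ ∈ Ioo (0 : ℝ) 2 := ⟨hσ0, by linarith [hσ.2]⟩
  have hp' : DifferentiableOn ℂ p (ann r 1) := hp.mono (ann_mono hr0.le (by norm_num))
  have hh0 : 0 ≤ h := by
    have := hmax (fun _ => 0) ⟨differentiableOn_const _, fun _ _ => by simp⟩
    simpa [Real.circleAverage_const] using this
  let T : (ℤ →₀ ℂ) →ₗ[ℂ] C(Circle, ℂ) × C(Circle, ℂ) :=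
    Finsupp.linearCombination ℂ fun k : ℤ => (ech k, (r : ℂ) ^ k • ech (-k))
  let l : (ℤ →₀ ℂ) →ₗ[ℂ] ℂ := Finsupp.linearCombination ℂ fun k : ℤ => lc p σ (-k)
  have hb : ∀ a, ‖l a‖ ≤ h * ‖T a‖ := by
    intro a
    set g : ℂ → ℂ := fun z => ∑ k ∈ a.support, a k * z ^ k with hg
    have hgd : DifferentiableOn ℂ g (ann 0 2) :=
      DifferentiableOn.fun_sum fun k _ => (differentiableOn_zpow_ann le_rfl k).const_mul _
    have hT1 : ∀ ζ : Circle, (T a).1 ζ = g ζ := fun ζ => by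
      simp [T, g, Finsupp.linearCombination_apply, Finsupp.sum, Prod.fst_sum, ech_apply]
    have hT2 : ∀ ζ : Circle, (T a).2 ζ = g (r / ζ) := fun ζ => by
      simp [T, g, Finsupp.linearCombination_apply, Finsupp.sum, Prod.snd_sum, ech_apply,
        div_eq_mul_inv, mul_zpow]
    have hgb : ∀ z ∈ ann r 1, ‖g z‖ ≤ ‖T a‖ := fun z hz => by
      refine max_principle (hgd.continuousOn.mono (cann_subset_ann hr0 (by norm_num)))
        (hgd.mono (ann_mono hr0.le (by norm_num))) (fun w hw => ?_) (fun w hw => ?_) hz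
      · have hw0 : w ≠ 0 := by
          intro h0; rw [h0, norm_zero] at hw; linarith
        have h1 : ‖(r : ℂ) / w‖ = 1 := by
          rw [norm_div, hw, Complex.norm_real, Real.norm_of_nonneg hr0.le, div_self hr0.ne']
        have h2 := hT2 ⟨r / w, by simpa [Submonoid.unitSphere] using h1⟩
        have h3 : (r : ℂ) / (r / w) = w := by field_simp
        simp only [h3] at h2
        rw [← h2]
        exact (ContinuousMap.norm_coe_le_norm _ _).trans (norm_snd_le _)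
      · have h2 := hT1 ⟨w, by simpa [Submonoid.unitSphere] using hw⟩
        simp only at h2
        rw [← h2]
        exact (ContinuousMap.norm_coe_le_norm _ _).trans (norm_fst_le _)
    have hl : circleAverage (fun z => g z * p z) 0 σ = l a := by
      simp only [g, l, Finsupp.linearCombination_apply, Finsupp.sum, Finset.sum_mul, smul_eq_mul,
        mul_assoc]
      rw [CA_sum _ (F := fun k z => a k * (z ^ k * p z)) hσ0 fun k _ => ((continuousOn_zpow_sphere hσ0 k).mul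
        (contOn_sphere hp hσ2)).const_mul _]
      refine Finset.sum_congr rfl fun k _ => ?_
      rw [← CA_zpow_mul, ← CA_const_mul]
    refine le_of_forall_pos_le_add fun ε hε => ?_
    obtain ⟨c, hc1, hc2⟩ := Complex.exists_norm_eq_mul_self (l a)
    set M := ‖T a‖ + ε / (h + 1) with hM
    have hM0 : 0 < M := by positivity
    have h1 := hmax (fun z => c / M * g z) ⟨(hgd.mono (ann_mono hr0.le (by norm_num))).const_mul _,
      fun z hz => by
        rw [norm_mul, norm_div, hc1, Complex.norm_real, Real.norm_of_nonneg hM0.le, one_div,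
          inv_mul_le_iff₀ hM0, mul_one]
        exact (hgb z hz).trans (le_add_of_nonneg_right (by positivity))⟩
    simp only [mul_assoc] at h1
    rw [CA_const_mul, hl, div_mul_eq_mul_div, ← hc2, ← Complex.ofReal_div, Complex.ofReal_re,
      div_le_iff₀ hM0, hM, mul_add] at h1
    have h2 : h * (ε / (h + 1)) ≤ ε := by
      rw [← mul_div_assoc, div_le_iff₀ (by positivity)]; nlinarith
    linarith
  obtain ⟨L, hL1, hL2⟩ := exists_clm_of_bound T l hb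
  rw [abs_of_nonneg hh0] at hL2
  set L₁ := L.comp (ContinuousLinearMap.inl ℂ C(Circle, ℂ) C(Circle, ℂ))
  set L₂ := L.comp (ContinuousLinearMap.inr ℂ C(Circle, ℂ) C(Circle, ℂ))
  set g₁ : ℤ → ℂ := fun k => L₁ (ech (-k))
  set g₂ : ℤ → ℂ := fun k => L₂ (ech (-k))
  have hL12 : ∀ x y, L (x, y) = L₁ x + L₂ y := fun x y => by
    simp only [L₁, L₂, ContinuousLinearMap.comp_apply, ContinuousLinearMap.inl_apply,
      ContinuousLinearMap.inr_apply, ← map_add, Prod.mk_add_mk, add_zero, zero_add]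
  have hrel : ∀ k : ℤ, g₁ k + (r : ℂ) ^ (-k) * g₂ (-k) = lc p σ k := fun k => by
    have h1 := hL1 (Finsupp.single (-k) 1)
    simp only [T, l, Finsupp.linearCombination_single, one_smul, hL12, map_smul, smul_eq_mul,
      neg_neg, one_mul] at h1
    simpa only [g₁, g₂, neg_neg] using h1
  have hg₁ : ∀ k, ‖g₁ k‖ ≤ h := fun k => by
    have h1 := hL2 (ech (-k), 0)
    rw [Prod.norm_def, norm_zero, max_eq_left (norm_nonneg _)] at h1
    exact h1.trans (mul_le_of_le_one_right hh0 (norm_ech_le _))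
  have hg₂ : ∀ k, ‖g₂ k‖ ≤ h := fun k => by
    have h1 := hL2 (0, ech (-k))
    rw [Prod.norm_def, norm_zero, max_eq_right (norm_nonneg _)] at h1
    exact h1.trans (mul_le_of_le_one_right hh0 (norm_ech_le _))
  set C₁ := circleAverage (fun z => ‖p z‖) 0 1
  set C₂ := circleAverage (fun z => ‖p z‖) 0 r
  have hC₁0 : 0 ≤ C₁ := Real.circleAverage_nonneg_of_nonneg fun _ _ => norm_nonneg _
  have hC₂0 : 0 ≤ C₂ := Real.circleAverage_nonneg_of_nonneg fun _ _ => norm_nonneg _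
  have hp1 : ∀ k, ‖lc p σ k‖ ≤ C₁ := fun k => by
    rw [lc_eq_ann le_rfl hp hσ2 (ρ₂ := 1) ⟨one_pos, by norm_num⟩]
    simpa using norm_lc_le (F := p) one_pos k
  have hp2 : ∀ n : ℕ, ‖lc p σ (-n)‖ ≤ C₂ * r ^ n := fun n => by
    rw [lc_eq_ann le_rfl hp hσ2 (ρ₂ := r) ⟨hr0, by linarith⟩]
    have := norm_lc_le (F := p) hr0 (-n)
    rwa [zpow_neg, zpow_natCast, mul_inv_le_iff₀ (pow_pos hr0 n)] at this
  set C := h + C₁ + C₂
  have hrn : ∀ n : ℕ, ‖(r : ℂ) ^ n‖ = r ^ n := fun n => by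
    rw [norm_pow, Complex.norm_real, Real.norm_of_nonneg hr0.le]
  have hp₁ : ∀ n : ℕ, ‖g₁ n‖ * 1 ^ n ≤ C := fun n => by
    have := hg₁ n; rw [one_pow, mul_one]; linarith
  have hp₂ : ∀ n : ℕ, ‖g₂ n‖ * 1 ^ n ≤ C := fun n => by
    have := hg₂ n; rw [one_pow, mul_one]; linarith
  have hm₁ : ∀ n : ℕ, ‖g₁ (-n)‖ ≤ C * r ^ n := fun n => by
    have h1 := hrel (-n)
    rw [neg_neg, zpow_natCast] at h1
    rw [eq_sub_of_add_eq h1]
    refine (norm_sub_le _ _).trans ?_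
    rw [norm_mul, hrn]
    have h2 := hp2 n
    have h3 := hg₂ n
    have h4 : 0 < r ^ n := pow_pos hr0 n
    nlinarith [mul_le_mul_of_nonneg_left h3 h4.le, mul_nonneg hC₁0 h4.le]
  have hm₂ : ∀ n : ℕ, ‖g₂ (-n)‖ ≤ C * r ^ n := fun n => by
    have h1 := hrel n
    have h5 : g₂ (-n) = (r : ℂ) ^ n * (lc p σ n - g₁ n) := by
      rw [← h1, zpow_neg, zpow_natCast]; field_simp; ring
    rw [h5, norm_mul, hrn, mul_comm]
    refine mul_le_mul_of_nonneg_right ((norm_sub_le _ _).trans ?_) (pow_pos hr0 n).le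
    have h2 := hp1 n
    have h3 := hg₁ n
    linarith
  have hs₁ : ∀ ρ ∈ Ioo r 1, Summable fun k : ℤ => ‖g₁ k‖ * ρ ^ k := fun ρ hρ =>
    summable_of_bounds hr0 hρ.1 hρ.2 hp₁ hm₁
  have hs₂ : ∀ ρ ∈ Ioo r 1, Summable fun k : ℤ => ‖g₂ k‖ * ρ ^ k := fun ρ hρ =>
    summable_of_bounds hr0 hρ.1 hρ.2 hp₂ hm₂
  have hd₁ := differentiableOn_ser hr0.le hs₁
  have hd₂ := differentiableOn_ser hr0.le hs₂
  have hsum : ∀ z ∈ ann r 1, ser g₁ z + ser g₂ (r / z) = p z := fun z hz => by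
    have h1 := hasSum_ser (hs₁ _ hz)
    have h2 := (Equiv.neg ℤ).hasSum_iff.2 (hasSum_ser (hs₂ _ (inv_mem_ann hr0 hz)))
    refine (hasSum_cast (h1.add h2) (fun k => ?_) rfl).unique (hasSum_lc hr0.le hp' hσ hz)
    simp only [Function.comp, Equiv.neg_apply]
    rw [← hrel k, div_zpow, zpow_neg z]
    field_simp
  have hf' := hf.inv hr0
  have hsplit : (circleAverage (fun z => f z * ser g₁ z) 0 σ).re +
      (circleAverage (fun z => f (r / z) * ser g₂ z) 0 (r / σ)).re = h := by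
    rw [← CA_inv (fun z => f (r / z) * ser g₂ z), ← Complex.add_re, ← CA_add hσ0
      (F := fun z => f z * ser g₁ z) (G := fun z => f (r / (r / z)) * ser g₂ (r / z))
      (contOn_sphere (hf.1.mul hd₁) hσ)
      (contOn_sphere (differentiableOn_inv_comp hr0 (hf'.1.mul hd₂)) hσ), hh]
    congr 1
    refine CA_congr hσ0 fun z hz => ?_
    have hz0 := ne_zero_of_mem_ann hr0.le (mem_ann_of_norm hσ hz)
    have h3 : (r : ℂ) / (r / z) = z := by field_simp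
    simp only [h3]
    rw [← hsum z (mem_ann_of_norm hσ hz)]
    ring
  have hbound : ∀ ρ ∈ Ioo r 1, circleAverage (fun z => ‖ser g₁ z‖ - (f z * ser g₁ z).re) 0 ρ +
      circleAverage (fun z => ‖ser g₂ z‖ - (f (r / z) * ser g₂ z).re) 0 ρ ≤
        2 * C * errE r ρ := fun ρ hρ => by
    refine le_of_forall_pos_le_add fun ε hε => ?_
    obtain ⟨Φ₁, h1, h2⟩ := outer_bound hr0 L₁ (g := g₁) (fun _ => rfl) hp₁ hm₁ hρ (half_pos hε)
    obtain ⟨Φ₂, h3, h4⟩ := outer_bound hr0 L₂ (g := g₂) (fun _ => rfl) hp₂ hm₂ hρ (half_pos hε)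
    have h5 := hL2 (Φ₁, Φ₂)
    have h6 : ‖(Φ₁, Φ₂)‖ ≤ 1 := by rw [Prod.norm_def]; exact max_le h1 h3
    have h7 := (Complex.re_le_norm _).trans (h5.trans (mul_le_of_le_one_right hh0 h6))
    rw [hL12, Complex.add_re] at h7
    rw [tight_eq hr0 hf hd₁ hρ hσ, tight_eq hr0 hf' hd₂ hρ (inv_mem_Ioo hr0 hσ)]
    linarith
  have hlim := (tendsto_errE hr1).const_mul (2 * C)
  rw [mul_zero] at hlim
  refine ⟨ser g₁, ser g₂, hd₁, hd₂, hsum, ?_, ?_⟩
  · refine squeeze_zero' ((ev_Ioo hr1).mono fun ρ hρ => tight_nonneg hr0 hf hρ) ?_ hlim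
    filter_upwards [ev_Ioo hr1] with ρ hρ
    linarith [hbound ρ hρ, tight_nonneg hr0 hf' hρ (γ := ser g₂)]
  · refine squeeze_zero' ((ev_Ioo hr1).mono fun ρ hρ => tight_nonneg hr0 hf' hρ) ?_ hlim
    filter_upwards [ev_Ioo hr1] with ρ hρ
    linarith [hbound ρ hρ, tight_nonneg hr0 hf hρ (γ := ser g₁)]

end Pool.Agent.MP_faa29e_an

end MrgPart2

-- marker of a merged file
example : 731051 + 348445 = 731051 + 348445 := rfl
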