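import Mathlib.Analysis.Complex.Polynomial.Basic
import Mathlib.Analysis.Meromorphic.FactorizedRational
import Mathlib.Analysis.Normed.Group.Tannery
import Mathlib.Analysis.Normed.Module.MultipliableUniformlyOn
import Mathlib.Tactic.Polynomial.Basic
import Pool.Agent.MP_faa29e_an.Dual

-- ======== part 0: formerly Pool.Agent.MP_faa29e_an.Cert
section MrgPart0

/-!
Certificates of extremality.
-/

open Metric Set Filter Topology
open Real (circleAverage)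
open scoped Real ComplexConjugate

namespace Pool.Agent.MP_faa29e_an

/-- A dual certificate for `f` and the functional attached to `p`. -/
def Cert (r : ℝ) (f p : ℂ → ℂ) : Prop :=
  ∃ γ₁ γ₂ : ℂ → ℂ, DifferentiableOn ℂ γ₁ (ann r 1) ∧ DifferentiableOn ℂ γ₂ (ann r 1) ∧
    (∀ z ∈ ann r 1, γ₁ z + γ₂ (r / z) = p z) ∧ Tight f γ₁ ∧ Tight (fun z => f (r / z)) γ₂

lemma Tight.re_le {r : ℝ} (hr0 : 0 < r) (hr1 : r < 1) {f g γ : ℂ → ℂ} (hf : Bd r f) (hg : Bd r g)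
    (hγ : DifferentiableOn ℂ γ (ann r 1)) (h : Tight f γ) {σ : ℝ} (hσ : σ ∈ Ioo r 1) :
    (circleAverage (fun z => g z * γ z) 0 σ).re ≤ (circleAverage (fun z => f z * γ z) 0 σ).re := by
  refine ge_of_tendsto (h.tendsto_M1 hr0 hr1 hf hγ hσ) ?_
  filter_upwards [ev_Ioo hr1] with ρ hρ
  have h1 := tight_nonneg hr0 hg hρ (γ := γ)
  rw [tight_eq hr0 hg hγ hρ hσ] at h1
  linarith

lemma Tight.of_eq {r : ℝ} (hr0 : 0 < r) (hr1 : r < 1) {f g γ : ℂ → ℂ} (hf : Bd r f) (hg : Bd r g)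
    (hγ : DifferentiableOn ℂ γ (ann r 1)) (h : Tight f γ) {σ : ℝ} (hσ : σ ∈ Ioo r 1)
    (he : (circleAverage (fun z => g z * γ z) 0 σ).re =
      (circleAverage (fun z => f z * γ z) 0 σ).re) : Tight g γ := by
  refine Tendsto.congr' ?_ h
  filter_upwards [ev_Ioo hr1] with ρ hρ
  rw [tight_eq hr0 hg hγ hρ hσ, tight_eq hr0 hf hγ hρ hσ, he]

lemma div_div_self {r : ℝ} (hr0 : 0 < r) (z : ℂ) : (r : ℂ) / (r / z) = z := by
  have hrc : (r : ℂ) ≠ 0 := by exact_mod_cast hr0.ne'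
  by_cases hz : z = 0
  · simp [hz]
  · field_simp

lemma split_CA {r : ℝ} (hr0 : 0 < r) {g p γ₁ γ₂ : ℂ → ℂ} (hg : DifferentiableOn ℂ g (ann r 1))
    (h₁ : DifferentiableOn ℂ γ₁ (ann r 1)) (h₂ : DifferentiableOn ℂ γ₂ (ann r 1))
    (hs : ∀ z ∈ ann r 1, γ₁ z + γ₂ (r / z) = p z) {σ : ℝ} (hσ : σ ∈ Ioo r 1) :
    circleAverage (fun z => g z * p z) 0 σ = circleAverage (fun z => g z * γ₁ z) 0 σ +
      circleAverage (fun z => g (r / z) * γ₂ z) 0 (r / σ) := by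
  have hσ0 : 0 < σ := hr0.trans hσ.1
  rw [← CA_inv (fun z => g (r / z) * γ₂ z), ← CA_add hσ0
    (F := fun z => g z * γ₁ z) (G := fun z => g (r / (r / z)) * γ₂ (r / z))
    (contOn_sphere (hg.mul h₁) hσ)
    (contOn_sphere (differentiableOn_inv_comp hr0 ((differentiableOn_inv_comp hr0 hg).mul h₂)) hσ)]
  refine CA_congr hσ0 fun z hz => ?_
  rw [div_div_self hr0, ← hs z (mem_ann_of_norm hσ hz)]
  ring

lemma Cert.le {r : ℝ} (hr0 : 0 < r) (hr1 : r < 1) {f g p : ℂ → ℂ} (hf : Bd r f) (hg : Bd r g)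
    (h : Cert r f p) {σ : ℝ} (hσ : σ ∈ Ioo r 1) :
    (circleAverage (fun z => g z * p z) 0 σ).re ≤ (circleAverage (fun z => f z * p z) 0 σ).re := by
  obtain ⟨γ₁, γ₂, h₁, h₂, hs, t₁, t₂⟩ := h
  rw [split_CA hr0 hg.1 h₁ h₂ hs hσ, split_CA hr0 hf.1 h₁ h₂ hs hσ, Complex.add_re, Complex.add_re]
  exact add_le_add (t₁.re_le hr0 hr1 hf hg h₁ hσ)
    (t₂.re_le hr0 hr1 (hf.inv hr0) (hg.inv hr0) h₂ (inv_mem_Ioo hr0 hσ))

lemma eq_of_lc_eq {F G : ℂ → ℂ} {a b ρ : ℝ} (ha : 0 ≤ a) (hF : DifferentiableOn ℂ F (ann a b))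
    (hG : DifferentiableOn ℂ G (ann a b)) (hρ : ρ ∈ Ioo a b) (h : ∀ k, lc F ρ k = lc G ρ k)
    {z : ℂ} (hz : z ∈ ann a b) : F z = G z := by
  have h1 := hasSum_lc ha hF hρ hz
  simp only [h] at h1
  exact h1.unique (hasSum_lc ha hG hρ hz)

lemma Tight.sq_eq {r : ℝ} (hr0 : 0 < r) (hr1 : r < 1) {f g γ : ℂ → ℂ} (hf : Bd r f) (hg : Bd r g)
    (hγ : DifferentiableOn ℂ γ (ann r 1)) (h : Tight f γ) (h' : Tight g γ) {z : ℂ}
    (hz : z ∈ ann r 1) : γ z * f z ^ 2 = γ z * g z ^ 2 := by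
  obtain ⟨σ, hσ⟩ : ∃ σ, σ ∈ Ioo r 1 := exists_between hr1
  refine eq_of_lc_eq (F := fun z => γ z * f z ^ 2) (G := fun z => γ z * g z ^ 2) hr0.le
    (hγ.mul (hf.1.pow 2)) (hγ.mul (hg.1.pow 2)) hσ (fun k => ?_) hz
  have h1 := h.reflect_sq hr0 hr1 hf hγ hσ (-k)
  have h2 := h'.reflect_sq hr0 hr1 hg hγ hσ (-k)
  rw [h1, neg_neg] at h2
  exact (starRingEnd ℂ).injective h2

lemma Bd.mid {r : ℝ} {f g : ℂ → ℂ} (hf : Bd r f) (hg : Bd r g) :
    Bd r fun z => (1 / 2 : ℂ) * (f z + g z) := by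
  refine ⟨(hf.1.add hg.1).const_mul _, fun z hz => ?_⟩
  rw [norm_mul]
  have h1 := norm_add_le (f z) (g z)
  have h2 := hf.2 z hz
  have h3 := hg.2 z hz
  have h4 : ‖(1 / 2 : ℂ)‖ = 1 / 2 := by simp
  rw [h4]; linarith

lemma Tight.unique {r : ℝ} (hr0 : 0 < r) (hr1 : r < 1) {f g γ : ℂ → ℂ} (hf : Bd r f) (hg : Bd r g)
    (hγ : DifferentiableOn ℂ γ (ann r 1)) (h : Tight f γ) (h' : Tight g γ)
    (hne : ∃ z ∈ ann r 1, γ z ≠ 0) {z : ℂ} (hz : z ∈ ann r 1) : g z = f z := by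
  obtain ⟨σ, hσ⟩ : ∃ σ, σ ∈ Ioo r 1 := exists_between hr1
  have hσ0 : 0 < σ := hr0.trans hσ.1
  have hm := hf.mid hg
  have e1 := le_antisymm (h.re_le hr0 hr1 hf hg hγ hσ) (h'.re_le hr0 hr1 hg hf hγ hσ)
  have h'' : Tight (fun z => (1 / 2 : ℂ) * (f z + g z)) γ := by
    refine h.of_eq hr0 hr1 hf hm hγ hσ ?_
    have e : (fun z => (1 / 2 : ℂ) * (f z + g z) * γ z) =
        fun z => (1 / 2 : ℂ) * (f z * γ z + g z * γ z) := by ext z; ring
    rw [e, CA_const_mul, CA_add (F := fun z => f z * γ z) (G := fun z => g z * γ z) hσ0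
      (contOn_sphere (hf.1.mul hγ) hσ) (contOn_sphere (hg.1.mul hγ) hσ)]
    simp [e1]
    ring
  have h1 : ∀ w ∈ ann r 1, γ w * (g w - f w) ^ 2 = 0 := fun w hw => by
    have a1 := h.sq_eq hr0 hr1 hf hg hγ h' hw
    have a2 := h.sq_eq hr0 hr1 hf hm hγ h'' hw
    linear_combination (-2) * a1 + 4 * a2
  rcases AnalyticOnNhd.eq_zero_or_eq_zero_of_mul_eq_zero (hγ.analyticOnNhd (isOpen_ann _ _))
    (((hg.1.sub hf.1).pow 2).analyticOnNhd (isOpen_ann _ _)) h1 (isPreconnected_ann hr0.le)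
    with h2 | h2
  · obtain ⟨w, hw, hw2⟩ := hne
    exact absurd (h2 w hw) hw2
  · have := h2 z hz
    simpa [sub_eq_zero] using this

lemma Cert.unique {r : ℝ} (hr0 : 0 < r) (hr1 : r < 1) {f g p : ℂ → ℂ} (hf : Bd r f) (hg : Bd r g)
    (h : Cert r f p) (hp : ∃ z ∈ ann r 1, p z ≠ 0) {σ : ℝ} (hσ : σ ∈ Ioo r 1)
    (he : (circleAverage (fun z => g z * p z) 0 σ).re =
      (circleAverage (fun z => f z * p z) 0 σ).re) {z : ℂ} (hz : z ∈ ann r 1) : g z = f z := by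
  obtain ⟨γ₁, γ₂, h₁, h₂, hs, t₁, t₂⟩ := h
  rw [split_CA hr0 hg.1 h₁ h₂ hs hσ, split_CA hr0 hf.1 h₁ h₂ hs hσ, Complex.add_re,
    Complex.add_re] at he
  have a1 := t₁.re_le hr0 hr1 hf hg h₁ hσ
  have a2 := t₂.re_le hr0 hr1 (hf.inv hr0) (hg.inv hr0) h₂ (inv_mem_Ioo hr0 hσ)
  have s₁ := t₁.of_eq hr0 hr1 hf hg h₁ hσ (by linarith)
  have s₂ := t₂.of_eq hr0 hr1 (hf.inv hr0) (hg.inv hr0) h₂ (inv_mem_Ioo hr0 hσ) (by linarith)
  by_cases hne : ∃ z ∈ ann r 1, γ₁ z ≠ 0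
  · exact t₁.unique hr0 hr1 hf hg h₁ s₁ hne hz
  · push Not at hne
    obtain ⟨w, hw, hw2⟩ := hp
    have hne2 : ∃ z ∈ ann r 1, γ₂ z ≠ 0 := ⟨r / w, inv_mem_ann hr0 hw, fun h0 => hw2 (by
      rw [← hs w hw, hne w hw, h0, add_zero])⟩
    have := t₂.unique hr0 hr1 (hf.inv hr0) (hg.inv hr0) h₂ s₂ hne2 (inv_mem_ann hr0 hz)
    simpa only [div_div_self hr0] using this

lemma tight_of_boundary {r : ℝ} (hr0 : 0 < r) (hr1 : r < 1) {f γ F Γ : ℂ → ℂ}
    (hF : ContinuousOn F {z | r < ‖z‖ ∧ ‖z‖ ≤ 1}) (hΓ : ContinuousOn Γ {z | r < ‖z‖ ∧ ‖z‖ ≤ 1})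
    (hf : ∀ z ∈ ann r 1, F z = f z) (hγ : ∀ z ∈ ann r 1, Γ z = γ z)
    (h : ∀ z : ℂ, ‖z‖ = 1 → F z * Γ z = ‖Γ z‖) : Tight f γ := by
  have h1 := tendsto_CA_one hr0 hr1 (H := fun z => ‖Γ z‖ - (F z * Γ z).re)
    (hΓ.norm.sub (Complex.continuous_re.comp_continuousOn (hF.mul hΓ)))
  have h2 : circleAverage (fun z => ‖Γ z‖ - (F z * Γ z).re) 0 1 = 0 := by
    rw [CA_congr (G := fun _ => (0 : ℝ)) one_pos fun z hz => by rw [h z hz]; simp,
      Real.circleAverage_const]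
  rw [h2] at h1
  refine h1.congr' ?_
  filter_upwards [ev_Ioo hr1] with ρ hρ
  refine CA_congr (hr0.trans hρ.1) fun z hz => ?_
  rw [hf z (mem_ann_of_norm hρ hz), hγ z (mem_ann_of_norm hρ hz)]

lemma tight_zero (f : ℂ → ℂ) : Tight f fun _ => 0 := by
  simp [Tight, Real.circleAverage_const]

/-- The reflected function across the unit circle. -/
noncomputable def refl (p : ℂ → ℂ) (z : ℂ) : ℂ := conj (p (conj z)⁻¹)

lemma inv_conj_of_norm {z : ℂ} (hz : ‖z‖ = 1) : (conj z)⁻¹ = z := by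
  rw [conj_eq_of_norm one_pos hz]; simp

/-- A continuous function that is positive on the unit circle is positive on a thin annulus. -/
lemma exists_thin {r : ℝ} (hr0 : 0 < r) (hr1 : r < 1) {H : ℂ → ℝ} (hH : ContinuousOn H (ann 0 2))
    (h : ∀ z : ℂ, ‖z‖ = 1 → 0 < H z) : ∃ s, r < s ∧ s < 1 ∧ ∀ z ∈ ann s 1, 0 < H z := by
  have hO : IsOpen (ann 0 2 ∩ H ⁻¹' Ioi 0) := hH.isOpen_inter_preimage (isOpen_ann _ _) isOpen_Ioi
  obtain ⟨δ, hδ, hsub⟩ := (isCompact_sphere (0 : ℂ) 1).exists_thickening_subset_open hO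
    fun z hz => ⟨mem_ann_of_norm ⟨one_pos, by norm_num⟩ (norm_of_mem_sphere hz),
      h z (norm_of_mem_sphere hz)⟩
  obtain ⟨s, hs1, hs2⟩ := exists_between (max_lt hr1 (sub_lt_self 1 hδ))
  refine ⟨s, (le_max_left _ _).trans_lt hs1, hs2, fun z hz => (hsub ?_).2⟩
  have hz0 : 0 < ‖z‖ := (hr0.trans ((le_max_left _ _).trans_lt hs1)).trans hz.1
  rw [mem_thickening_iff]
  refine ⟨z / ‖z‖, by simp [hz0.ne'], ?_⟩
  have e : z - z / ‖z‖ = z / ‖z‖ * ((‖z‖ - 1 : ℝ) : ℂ) := by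
    have : (‖z‖ : ℂ) ≠ 0 := by exact_mod_cast hz0.ne'
    push_cast; field_simp
  rw [dist_eq_norm, e, norm_mul, norm_div, Complex.norm_real, Complex.norm_real, norm_norm,
    div_self hz0.ne', one_mul, Real.norm_eq_abs, abs_sub_comm, abs_of_pos (by linarith [hz.2])]
  linarith [(le_max_right _ _).trans_lt hs1, hz.1]

lemma sign_const {s : Set ℂ} (hs : IsPreconnected s) {H : ℂ → ℝ} (hH : ContinuousOn H s)
    (h : ∀ z ∈ s, H z ≠ 0) : (∀ z ∈ s, 0 < H z) ∨ ∀ z ∈ s, H z < 0 := by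
  by_contra hc
  push Not at hc
  obtain ⟨⟨a, ha, ha2⟩, ⟨b, hb, hb2⟩⟩ := hc
  obtain ⟨c, hc, hc2⟩ := hs.intermediate_value ha hb hH (show (0 : ℝ) ∈ Icc (H a) (H b) from ⟨ha2, hb2⟩)
  exact h c hc hc2

lemma continuousOn_refl {q : ℂ → ℂ} (hq : ContinuousOn q {0}ᶜ) : ContinuousOn (refl q) {0}ᶜ := by
  refine Complex.continuous_conj.comp_continuousOn (hq.comp
    (Complex.continuous_conj.continuousOn.inv₀ fun z hz => by simpa using hz) fun z hz => ?_)
  simpa using hz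

lemma ann_subset_compl {a b : ℝ} (ha : 0 ≤ a) : ann a b ⊆ {0}ᶜ :=
  fun _ hz => ne_zero_of_mem_ann ha hz

lemma norm_sub_le_sqrt {w : ℂ} {s : ℝ} (hw : 0 ≤ w.re) (hs : 0 ≤ s) :
    ‖w - s‖ ≤ √‖w ^ 2 - (s : ℂ) ^ 2‖ := by
  refine Real.le_sqrt_of_sq_le ?_
  have h1 : ‖w - s‖ ≤ ‖w + s‖ := by
    rw [← sq_le_sq₀ (norm_nonneg _) (norm_nonneg _), Complex.sq_norm, Complex.sq_norm,
      Complex.normSq_apply, Complex.normSq_apply]
    simp
    nlinarith [mul_nonneg hw hs]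
  have h2 : w ^ 2 - (s : ℂ) ^ 2 = (w - s) * (w + s) := by ring
  rw [h2, norm_mul, sq]
  exact mul_le_mul_of_nonneg_left h1 (norm_nonneg _)

/-- If `f² q = q*` and `q` has no zero on the unit circle, then `f` is aligned with `±q`. -/
lemma tight_of_sq {r : ℝ} (hr0 : 0 < r) (hr1 : r < 1) {f q : ℂ → ℂ} (hf : Bd r f)
    (hq : ContinuousOn q {0}ᶜ) (hq0 : ∀ z : ℂ, ‖z‖ = 1 → q z ≠ 0)
    (h : ∀ z ∈ ann r 1, f z ^ 2 * q z = refl q z) :
    Tight f q ∨ Tight f fun z => -q z := by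
  have hq2 := hq.mono (ann_subset_compl (b := 2) le_rfl)
  have hr2 := (continuousOn_refl hq).mono (ann_subset_compl (b := 2) le_rfl)
  obtain ⟨s, hs1, hs2, hs⟩ := exists_thin hr0 hr1 (H := fun z => (q z * refl q z).re)
    (Complex.continuous_re.comp_continuousOn (hq2.mul hr2)) fun z hz => by
      simp only [refl, inv_conj_of_norm hz, Complex.mul_conj']
      have := norm_pos_iff.2 (hq0 z hz)
      norm_cast
      positivity
  have hs0 : 0 < s := hr0.trans hs1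
  have hsub : ann s 1 ⊆ ann r 1 := ann_mono hs1.le le_rfl
  have hG : ∀ z ∈ ann s 1, (f z * q z) ^ 2 = q z * refl q z := fun z hz => by
    rw [← h z (hsub hz)]; ring
  have key : ∀ q' : ℂ → ℂ, (∀ z, ‖q' z‖ = ‖q z‖) → (∀ z, q' z ^ 2 = q z ^ 2) →
      ContinuousOn q' (ann s 1) → (∀ z ∈ ann s 1, 0 < (f z * q' z).re) → Tight f q' := by
    intro q' h1 h2 h3 h4
    have hsub2 : {z : ℂ | s < ‖z‖ ∧ ‖z‖ ≤ 1} ⊆ ann 0 2 := fun z hz =>
      ⟨hs0.trans hz.1, by linarith [hz.2]⟩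
    have hc : ContinuousOn (fun z => √‖q z * refl q z - ((‖q z‖ : ℝ) : ℂ) ^ 2‖) (ann 0 2) :=
      Real.continuous_sqrt.comp_continuousOn ((hq2.mul hr2).sub
        ((Complex.continuous_ofReal.comp_continuousOn hq2.norm).pow 2)).norm
    have h5 := tendsto_CA_one hs0 hs2 (hc.mono hsub2)
    rw [CA_congr (G := fun _ => (0 : ℝ)) one_pos fun z hz => by
      simp [refl, inv_conj_of_norm hz, Complex.mul_conj'], Real.circleAverage_const] at h5
    refine squeeze_zero' ((ev_Ioo hr1).mono fun ρ hρ => tight_nonneg hr0 hf hρ) ?_ h5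
    filter_upwards [ev_Ioo hs2] with ρ hρ
    have hρ0 : 0 < ρ := hs0.trans hρ.1
    have hsp := sphere_subset_ann hρ.1 hρ.2
    refine CA_mono hρ0 ((h3.mono hsp).norm.sub (Complex.continuous_re.comp_continuousOn
      (((hf.1.continuousOn.mono hsub).mono hsp).mul (h3.mono hsp))))
      (hc.mono (sphere_subset_ann hρ0 (by linarith [hρ.2]))) fun z hz => ?_
    have hz' := mem_ann_of_norm hρ hz
    have h6 := norm_sub_le_sqrt (h4 z hz').le (norm_nonneg (q' z))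
    rw [mul_pow, h2, ← mul_pow, hG z hz', h1] at h6
    refine le_trans ?_ h6
    rw [norm_sub_rev, h1]
    refine le_trans (le_of_eq ?_) (Complex.re_le_norm _)
    simp
  have hqs := hq.mono (ann_subset_compl (b := 1) hs0.le)
  rcases sign_const (isPreconnected_ann hs0.le) (H := fun z => (f z * q z).re)
    (Complex.continuous_re.comp_continuousOn ((hf.1.continuousOn.mono hsub).mul hqs))
    (fun z hz h0 => by
      have h1 := hs z hz
      rw [← hG z hz, sq, Complex.mul_re, h0] at h1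
      nlinarith [sq_nonneg (f z * q z).im]) with h1 | h1
  · exact Or.inl (key q (fun _ => rfl) (fun _ => rfl) hqs h1)
  · refine Or.inr (key _ (fun _ => norm_neg _) (fun _ => by ring) hqs.neg fun z hz => ?_)
    have := h1 z hz
    simp only [mul_neg, Complex.neg_re]
    linarith

/-- The odd case `f² q = z q*` cannot occur. -/
lemma not_sq_odd {r : ℝ} (hr0 : 0 < r) (hr1 : r < 1) {f q : ℂ → ℂ} (hf : Bd r f)
    (hq : ContinuousOn q {0}ᶜ) (hq0 : ∀ z : ℂ, ‖z‖ = 1 → q z ≠ 0)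
    (h : ∀ z ∈ ann r 1, f z ^ 2 * q z = z * refl q z) : False := by
  have hc : ContinuousOn (fun z => q z * refl q z) {0}ᶜ := hq.mul (continuousOn_refl hq)
  have hc' : ContinuousOn (fun z => q (-z) * refl q (-z)) {0}ᶜ :=
    hc.comp continuous_neg.continuousOn fun z hz => by simpa using hz
  obtain ⟨s, hs1, hs2, hs⟩ := exists_thin hr0 hr1
    (H := fun z => (q z * refl q z * conj (q (-z) * refl q (-z))).re)
    (Complex.continuous_re.comp_continuousOn ((hc.mul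
      (Complex.continuous_conj.comp_continuousOn hc')).mono (ann_subset_compl le_rfl)))
    fun z hz => by
      have hz' : ‖-z‖ = 1 := by rwa [norm_neg]
      simp only [refl, inv_conj_of_norm hz, inv_conj_of_norm hz', Complex.mul_conj']
      have h1 := norm_pos_iff.2 (hq0 z hz)
      have h2 := norm_pos_iff.2 (hq0 _ hz')
      norm_cast
      rw [Complex.conj_ofReal]
      norm_cast
      positivity
  have hs0 : 0 < s := hr0.trans hs1
  have hsub : ann s 1 ⊆ ann r 1 := ann_mono hs1.le le_rfl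
  have hneg : ∀ z ∈ ann s 1, -z ∈ ann s 1 := fun z hz => by simpa [ann] using hz
  have hG : ∀ z ∈ ann s 1, (f z * q z) ^ 2 = z * (q z * refl q z) := fun z hz => by
    have := h z (hsub hz)
    linear_combination q z * this
  have hGc : ContinuousOn (fun z => f z * q z) (ann s 1) :=
    (hf.1.continuousOn.mono hsub).mul (hq.mono (ann_subset_compl hs0.le))
  set R : ℂ → ℂ := fun z => f z * q z * conj (f (-z) * q (-z)) with hR
  have hRc : ContinuousOn R (ann s 1) := hGc.mul (Complex.continuous_conj.comp_continuousOn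
    (hGc.comp continuous_neg.continuousOn hneg))
  have hR2 : ∀ z ∈ ann s 1, R z ^ 2 =
      -((‖z‖ ^ 2 : ℝ) : ℂ) * (q z * refl q z * conj (q (-z) * refl q (-z))) := fun z hz => by
    rw [hR]
    simp only
    rw [mul_pow, ← map_pow, hG z hz, hG _ (hneg z hz), map_mul, map_neg]
    push_cast
    rw [← Complex.mul_conj' z]
    ring
  have hRn : ∀ z, (R (-z)).im = -(R z).im := fun z => by
    have : R (-z) = conj (R z) := by
      simp only [hR, neg_neg, map_mul, Complex.conj_conj]; ring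
    rw [this, Complex.conj_im]
  obtain ⟨t, ht⟩ : ∃ t, t ∈ Ioo s 1 := exists_between hs2
  have ht' : (t : ℂ) ∈ ann s 1 := mem_ann_of_norm ht (by
    rw [Complex.norm_real, Real.norm_of_nonneg (hs0.trans ht.1).le])
  rcases sign_const (isPreconnected_ann hs0.le) (H := fun z => (R z).im)
    (Complex.continuous_im.comp_continuousOn hRc) (fun z hz h0 => by
      have h1 := hs z hz
      have h2 := congrArg Complex.re (hR2 z hz)
      have h3 : 0 < ‖z‖ ^ 2 := pow_pos (hs0.trans hz.1) 2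
      rw [neg_mul, Complex.neg_re, Complex.re_ofReal_mul, sq, Complex.mul_re] at h2
      rw [h0] at h2
      nlinarith [mul_pos h3 h1, sq_nonneg (R z).re]) with h1 | h1
  · have a1 := h1 _ ht'
    have a2 := h1 _ (hneg _ ht')
    simp only [hRn] at a1 a2
    linarith
  · have a1 := h1 _ ht'
    have a2 := h1 _ (hneg _ ht')
    simp only [hRn] at a1 a2
    linarith

open Polynomial in
/-- Removal of the zeros on the unit circle. -/
lemma reduce_zeros {r : ℝ} (hr0 : 0 < r) {f : ℂ → ℂ} (n : ℕ) :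
    ∀ P : ℂ[X], P ≠ 0 → P.natDegree ≤ n →
      (∀ z ∈ ann r 1, f z ^ 2 * P.eval z = z ^ n * conj (P.eval (conj z)⁻¹)) →
      ∃ m ≤ n, ∃ Q : ℂ[X], Q.natDegree ≤ m ∧ (∀ z : ℂ, ‖z‖ = 1 → Q.eval z ≠ 0) ∧
        ∀ z ∈ ann r 1, f z ^ 2 * Q.eval z = z ^ m * conj (Q.eval (conj z)⁻¹) := by
  induction n with
  | zero =>
    intro P hP hd h
    refine ⟨0, le_rfl, P, hd, fun z _ h0 => hP ?_, h⟩
    rw [eq_C_of_natDegree_le_zero hd] at h0 ⊢
    simpa using h0
  | succ n ih =>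
    intro P hP hd h
    by_cases hz : ∀ z : ℂ, ‖z‖ = 1 → P.eval z ≠ 0
    · exact ⟨n + 1, le_rfl, P, hd, hz, h⟩
    push Not at hz
    obtain ⟨ζ, hζ, hζ0⟩ := hz
    obtain ⟨P₁, rfl⟩ := dvd_iff_isRoot.2 hζ0
    have hP₁ : P₁ ≠ 0 := right_ne_zero_of_mul hP
    rw [natDegree_mul (X_sub_C_ne_zero ζ) hP₁, natDegree_X_sub_C] at hd
    obtain ⟨l, hl⟩ := IsAlgClosed.exists_pow_nat_eq (-ζ) (n := 2) (by norm_num)
    have hl1 : ‖l‖ = 1 := by
      have := congrArg norm hl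
      rw [norm_pow, norm_neg, hζ] at this
      exact (pow_eq_one_iff_of_nonneg (norm_nonneg _) two_ne_zero).1 this
    have hl0 : l ≠ 0 := by
      intro h0; rw [h0, norm_zero] at hl1; exact zero_ne_one hl1
    have hζ0' : ζ ≠ 0 := by
      intro h0; rw [h0, norm_zero] at hζ; exact zero_ne_one hζ
    obtain ⟨m, hm, Q, hQ⟩ := ih (C l * P₁) (mul_ne_zero (C_ne_zero.2 hl0) hP₁)
      ((natDegree_C_mul_le _ _).trans (by omega)) fun z hz => by
        have h1 := h z hz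
        have hz0 := ne_zero_of_mem_ann hr0.le hz
        have hzζ : z - ζ ≠ 0 := fun h0 => by
          have := hz.2
          rw [sub_eq_zero.1 h0, hζ] at this
          exact lt_irrefl _ this
        simp only [eval_mul, eval_sub, eval_X, eval_C, map_mul, map_sub, map_inv₀,
          Complex.conj_conj] at h1 ⊢
        rw [conj_eq_of_norm one_pos hζ] at h1
        rw [conj_eq_of_norm one_pos hl1]
        refine mul_left_cancel₀ hzζ ?_
        have hζl : ζ = -l ^ 2 := by rw [hl, neg_neg]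
        set E := conj (eval (conj z)⁻¹ P₁)
        have e1 : (z - ζ) * (f z ^ 2 * (l * eval z P₁)) =
            l * (f z ^ 2 * ((z - ζ) * eval z P₁)) := by ring
        rw [e1, h1, hζl]
        push_cast
        field_simp
        ring
    exact ⟨m, hm.trans (Nat.le_succ n), Q, hQ⟩

end Pool.Agent.MP_faa29e_an

end MrgPart0

-- ======== part 1: formerly Pool.Agent.MP_faa29e_an.Body
section MrgPart1

/-!
The coefficient body: convexity, compactness, and the boundary.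
-/

open Metric Set Filter Topology
open Real (circleAverage)
open scoped Real ComplexConjugate

namespace Pool.Agent.MP_faa29e_an

lemma sqrt_mem {r : ℝ} (hr0 : 0 < r) (hr1 : r < 1) : √r ∈ Ioo r 1 := by
  constructor
  · exact Real.lt_sqrt_of_sq_lt (by nlinarith)
  · rw [Real.sqrt_lt' one_pos]; linarith

lemma coeff_eq_lc {r : ℝ} (hr0 : 0 < r) (f : ℂ → ℂ) (k : ℤ) : coeff r f k = lc f (√r) k := by
  have h0 : 0 < √r := Real.sqrt_pos.2 hr0
  rw [coeff, lc, Real.circleAverage_eq_circleIntegral h0.ne', smul_eq_mul]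
  congr 1
  refine circleIntegral.integral_congr h0.le fun z hz => ?_
  have hz0 : z ≠ 0 := by
    intro h
    have := norm_of_mem_sphere hz
    rw [h, norm_zero] at this
    linarith
  simp only [sub_zero, smul_eq_mul]
  rw [zpow_add_one₀ hz0, zpow_neg]
  field_simp

lemma differentiableOn_lpoly (N : ℕ) (c : Fin (2 * N + 1) → ℂ) :
    DifferentiableOn ℂ (lpoly N c) {0}ᶜ :=
  DifferentiableOn.fun_sum fun _ _ _ hz =>
    ((differentiableAt_zpow.2 (Or.inl hz)).const_mul _).differentiableWithinAt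

lemma differentiableOn_lpoly_ann (N : ℕ) (c : Fin (2 * N + 1) → ℂ) {a b : ℝ} (ha : 0 ≤ a) :
    DifferentiableOn ℂ (lpoly N c) (ann a b) :=
  (differentiableOn_lpoly N c).mono (ann_subset_compl ha)

lemma CA_mul_lpoly {g : ℂ → ℂ} {σ : ℝ} (hσ : 0 < σ) (hg : ContinuousOn g (sphere 0 σ)) (N : ℕ)
    (c : Fin (2 * N + 1) → ℂ) :
    circleAverage (fun z => g z * lpoly N c z) 0 σ = ∑ j, c j * lc g σ (-((j : ℤ) - N)) := by
  simp only [lpoly, Finset.mul_sum]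
  rw [CA_sum _ (F := fun j z => g z * (c j * z ^ ((j : ℤ) - N))) hσ fun j _ =>
    hg.mul ((continuousOn_zpow_sphere hσ _).const_mul _)]
  refine Finset.sum_congr rfl fun j _ => ?_
  rw [← CA_zpow_mul, ← CA_const_mul]
  congr 1
  ext z
  ring

lemma rev_sub (N : ℕ) (j : Fin (2 * N + 1)) : ((j.rev : ℕ) : ℤ) - N = -((j : ℤ) - N) := by
  have := j.isLt
  rw [Fin.val_rev]
  omega

lemma CA_eq_pair {r : ℝ} (hr0 : 0 < r) (hr1 : r < 1) {g : ℂ → ℂ}
    (hg : DifferentiableOn ℂ g (ann r 1)) (N : ℕ) (c : Fin (2 * N + 1) → ℂ) :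
    circleAverage (fun z => g z * lpoly N c z) 0 (√r) = ∑ j, c j * coeffVec r N g j.rev := by
  rw [CA_mul_lpoly (Real.sqrt_pos.2 hr0) (contOn_sphere hg (sqrt_mem hr0 hr1))]
  refine Finset.sum_congr rfl fun j _ => ?_
  rw [coeffVec, coeff_eq_lc hr0, rev_sub]

lemma lc_lpoly {σ : ℝ} (hσ : 0 < σ) (N : ℕ) (c : Fin (2 * N + 1) → ℂ) (j : Fin (2 * N + 1)) :
    lc (lpoly N c) σ ((j : ℤ) - N) = c j := by
  have h := CA_mul_lpoly hσ (continuousOn_zpow_sphere hσ (-((j : ℤ) - N))) N c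
  have h2 : lc (lpoly N c) σ ((j : ℤ) - N) =
      circleAverage (fun z => z ^ (-((j : ℤ) - N)) * lpoly N c z) 0 σ := by
    rw [CA_zpow_mul, neg_neg]
  rw [h2, h, Finset.sum_eq_single j]
  · have : lc (fun z : ℂ => z ^ (-((j : ℤ) - N))) σ (-((j : ℤ) - N)) =
        circleAverage (fun z : ℂ => z ^ (0 : ℤ)) 0 σ := by
      refine CA_congr hσ fun z hz => ?_
      have hz0 : z ≠ 0 := by
        intro h; rw [h, norm_zero] at hz; linarith
      rw [← zpow_add₀ hz0]; simp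
    rw [this, CA_zpow hσ]; simp
  · intro i _ hij
    have : lc (fun z : ℂ => z ^ (-((j : ℤ) - N))) σ (-((i : ℤ) - N)) =
        circleAverage (fun z : ℂ => z ^ ((i : ℤ) - j)) 0 σ := by
      refine CA_congr hσ fun z hz => ?_
      have hz0 : z ≠ 0 := by
        intro h; rw [h, norm_zero] at hz; linarith
      rw [← zpow_add₀ hz0]; congr 1; ring
    rw [this, CA_zpow hσ, if_neg, mul_zero]
    intro h
    exact hij (Fin.ext (by omega))
  · simp

lemma coeffVec_lpoly {r : ℝ} (hr0 : 0 < r) (N : ℕ) (c : Fin (2 * N + 1) → ℂ) :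
    coeffVec r N (lpoly N c) = c := by
  ext j
  rw [coeffVec, coeff_eq_lc hr0, lc_lpoly (Real.sqrt_pos.2 hr0)]

lemma lpoly_ne_zero {a b : ℝ} (ha : 0 ≤ a) (hab : a < b) {N : ℕ} {c : Fin (2 * N + 1) → ℂ}
    (hc : c ≠ 0) : ∃ z ∈ ann a b, lpoly N c z ≠ 0 := by
  by_contra h
  push Not at h
  obtain ⟨σ, hσ⟩ : ∃ σ, σ ∈ Ioo a b := exists_between hab
  have hσ0 : 0 < σ := ha.trans_lt hσ.1
  refine hc (funext fun j => ?_)
  rw [← lc_lpoly hσ0 N c j, lc_congr hσ0 (G := fun _ => 0) fun z hz => h z (mem_ann_of_norm hσ hz)]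
  simp [lc, Real.circleAverage_const]

lemma lc_add {F G : ℂ → ℂ} {ρ : ℝ} (hρ : 0 < ρ) (hF : ContinuousOn F (sphere 0 ρ))
    (hG : ContinuousOn G (sphere 0 ρ)) (k : ℤ) :
    lc (fun z => F z + G z) ρ k = lc F ρ k + lc G ρ k := by
  simp only [lc, add_mul]
  exact CA_add (F := fun z => F z * z ^ (-k)) (G := fun z => G z * z ^ (-k)) hρ
    (hF.mul (continuousOn_zpow_sphere hρ _)) (hG.mul (continuousOn_zpow_sphere hρ _))

lemma lc_const_mul (c : ℂ) (F : ℂ → ℂ) (ρ : ℝ) (k : ℤ) :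
    lc (fun z => c * F z) ρ k = c * lc F ρ k := by
  simp only [lc, mul_assoc]
  exact CA_const_mul _ _ _

lemma convex_body {r : ℝ} (hr0 : 0 < r) (hr1 : r < 1) (N : ℕ) : Convex ℝ (body r N) := by
  rintro _ ⟨f, hf, rfl⟩ _ ⟨g, hg, rfl⟩ a b ha hb hab
  refine ⟨fun z => (a : ℂ) * f z + (b : ℂ) * g z,
    ⟨(hf.1.const_mul _).add (hg.1.const_mul _), fun z hz => ?_⟩, ?_⟩
  · refine (norm_add_le _ _).trans ?_
    rw [norm_mul, norm_mul, Complex.norm_real, Complex.norm_real, Real.norm_of_nonneg ha,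
      Real.norm_of_nonneg hb]
    nlinarith [hf.2 z hz, hg.2 z hz]
  · ext j
    have hσ := sqrt_mem hr0 hr1
    simp only [coeffVec, coeff_eq_lc hr0, Pi.add_apply, Pi.smul_apply, Complex.real_smul]
    rw [lc_add (F := fun z => (a : ℂ) * f z) (G := fun z => (b : ℂ) * g z) (Real.sqrt_pos.2 hr0)
      ((contOn_sphere hf.1 hσ).const_mul _) ((contOn_sphere hg.1 hσ).const_mul _),
      lc_const_mul, lc_const_mul]

lemma zero_mem_interior_body {r : ℝ} (hr0 : 0 < r) (hr1 : r < 1) (N : ℕ) :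
    (0 : Fin (2 * N + 1) → ℂ) ∈ interior (body r N) := by
  rw [mem_interior_iff_mem_nhds]
  set S := ∑ j : Fin (2 * N + 1), (r ^ ((j : ℤ) - N) + 1 ^ ((j : ℤ) - N))
  have hS : 0 ≤ S := Finset.sum_nonneg fun j _ => by positivity
  refine mem_of_superset (ball_mem_nhds _ (show 0 < (S + 1)⁻¹ by positivity)) fun v hv => ?_
  refine ⟨lpoly N v, ⟨differentiableOn_lpoly_ann N v hr0.le, fun z hz => ?_⟩,
    coeffVec_lpoly hr0 N v⟩
  rw [mem_ball_zero_iff] at hv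
  refine (norm_sum_le _ _).trans ?_
  have h1 : ∑ j : Fin (2 * N + 1), ‖v j * z ^ ((j : ℤ) - N)‖ ≤ (S + 1)⁻¹ * S := by
    rw [Finset.mul_sum]
    refine Finset.sum_le_sum fun j _ => ?_
    rw [norm_mul, norm_zpow]
    exact mul_le_mul ((norm_le_pi_norm v j).trans hv.le) (zpow_le_add hr0 hz.1.le hz.2.le _)
      (zpow_nonneg (norm_nonneg _) _) (by positivity)
  refine h1.trans ?_
  rw [inv_mul_le_iff₀ (by positivity)]
  linarith

lemma Bd.lc_le {r : ℝ} (hr0 : 0 < r) {f : ℂ → ℂ} (hf : Bd r f) {σ ρ : ℝ} (hσ : σ ∈ Ioo r 1)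
    (hρ : ρ ∈ Ioo r 1) (k : ℤ) : ‖lc f σ k‖ ≤ ρ ^ (-k) := by
  have hρ0 : 0 < ρ := hr0.trans hρ.1
  rw [lc_eq_ann hr0.le hf.1 hσ hρ, zpow_neg, ← one_div, le_div_iff₀ (zpow_pos hρ0 k)]
  exact norm_lc_le_const hρ0 (contOn_sphere hf.1 hρ) (fun z hz => hf.2 z (mem_ann_of_norm hρ hz)) k

lemma exists_dominant {r : ℝ} (hr0 : 0 < r) {ρ : ℝ} (hρ : ρ ∈ Ioo r 1) :
    ∃ B : ℤ → ℝ, Summable (fun k : ℤ => B k * ρ ^ k) ∧
      ∀ (x : ℝ) (k : ℤ), (∀ τ ∈ Ioo r 1, x ≤ τ ^ (-k)) → x ≤ B k := by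
  obtain ⟨a, ha1, ha2⟩ := exists_between hρ.1
  obtain ⟨b, hb1, hb2⟩ := exists_between hρ.2
  have ha0 : 0 < a := hr0.trans ha1
  have hb0 : 0 < b := ha0.trans (ha2.trans hb1)
  have hn : ∀ k : ℤ, ‖((min (a ^ (-k)) (b ^ (-k)) : ℝ) : ℂ)‖ = min (a ^ (-k)) (b ^ (-k)) :=
    fun k => by rw [Complex.norm_real, Real.norm_of_nonneg (by positivity)]
  refine ⟨fun k => min (a ^ (-k)) (b ^ (-k)), ?_, fun x k hx =>
    le_min (hx a ⟨ha1, ha2.trans hρ.2⟩) (hx b ⟨hρ.1.trans hb1, hb2⟩)⟩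
  have := summable_of_bounds (g := fun k : ℤ => ((min (a ^ (-k)) (b ^ (-k)) : ℝ) : ℂ)) (C := 1)
    ha0 ha2 hb1 (fun n => by
      rw [hn, ← le_div_iff₀ (pow_pos hb0 n), one_div, ← zpow_natCast, ← zpow_neg]
      exact min_le_right _ _) (fun n => by
      rw [hn, neg_neg, one_mul, zpow_natCast]
      exact min_le_left _ _)
  simpa only [hn] using this

/-- Sequential compactness of the class, in terms of coefficients. -/
lemma exists_subseq {r : ℝ} (hr0 : 0 < r) {σ : ℝ} (hσ : σ ∈ Ioo r 1) {F : ℕ → ℂ → ℂ}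
    (hF : ∀ n, Bd r (F n)) : ∃ f, Bd r f ∧ ∃ φ : ℕ → ℕ, StrictMono φ ∧
      (∀ k, Tendsto (fun n => lc (F (φ n)) σ k) atTop (𝓝 (lc f σ k))) ∧
      ∀ z ∈ ann r 1, Tendsto (fun n => F (φ n) z) atTop (𝓝 (f z)) := by
  have hK : IsCompact (Set.pi univ fun k : ℤ => closedBall (0 : ℂ) (σ ^ (-k))) :=
    isCompact_univ_pi fun k => isCompact_closedBall _ _
  obtain ⟨a, -, φ, hφ, ha⟩ := hK.tendsto_subseq (x := fun n k => lc (F n) σ k)
    fun n k _ => by simpa using (hF n).lc_le hr0 hσ hσ k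
  rw [tendsto_pi_nhds] at ha
  have hab : ∀ k, ∀ τ ∈ Ioo r 1, ‖a k‖ ≤ τ ^ (-k) := fun k τ hτ =>
    le_of_tendsto' (ha k).norm fun n => (hF _).lc_le hr0 hσ hτ k
  have hs : ∀ ρ ∈ Ioo r 1, Summable fun k : ℤ => ‖a k‖ * ρ ^ k := fun ρ hρ => by
    obtain ⟨B, hB1, hB2⟩ := exists_dominant hr0 hρ
    have hρ0 : 0 < ρ := hr0.trans hρ.1
    exact Summable.of_nonneg_of_le (fun k => by positivity)
      (fun k => mul_le_mul_of_nonneg_right (hB2 _ k (hab k)) (by positivity)) hB1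
  have hlim : ∀ z ∈ ann r 1, Tendsto (fun n => F (φ n) z) atTop (𝓝 (ser a z)) := fun z hz => by
    obtain ⟨B, hB1, hB2⟩ := exists_dominant hr0 (ρ := ‖z‖) hz
    have h1 := tendsto_tsum_of_dominated_convergence (𝓕 := atTop)
      (f := fun n (k : ℤ) => lc (F (φ n)) σ k * z ^ k) (g := fun k => a k * z ^ k) hB1
      (fun k => (ha k).mul_const _) (Eventually.of_forall fun n k => by
        rw [norm_mul, norm_zpow]
        exact mul_le_mul_of_nonneg_right (hB2 _ k fun τ hτ => (hF _).lc_le hr0 hσ hτ k)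
          (zpow_nonneg (norm_nonneg _) _))
    exact h1.congr fun n => (hasSum_lc hr0.le (hF _).1 hσ hz).tsum_eq
  refine ⟨ser a, ⟨differentiableOn_ser hr0.le hs, fun z hz =>
    le_of_tendsto' (hlim z hz).norm fun n => (hF _).2 z hz⟩, φ, hφ, fun k => ?_, hlim⟩
  rw [lc_ser (hr0.trans hσ.1) (hs σ hσ)]
  exact ha k

lemma isClosed_body {r : ℝ} (hr0 : 0 < r) (hr1 : r < 1) (N : ℕ) : IsClosed (body r N) := by
  refine IsSeqClosed.isClosed fun x v hx hv => ?_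
  choose F hF hFx using hx
  obtain ⟨f, hf, φ, hφ, h1, -⟩ := exists_subseq hr0 (sqrt_mem hr0 hr1) hF
  refine ⟨f, hf, ?_⟩
  refine tendsto_nhds_unique ?_ (hv.comp hφ.tendsto_atTop)
  rw [tendsto_pi_nhds]
  intro j
  simp only [Function.comp, ← hFx, coeffVec, coeff_eq_lc hr0]
  exact h1 _

/-- Boundary points are exactly the points with a dual certificate. -/
theorem frontier_iff_cert {r : ℝ} (hr0 : 0 < r) (hr1 : r < 1) {N : ℕ} {f : ℂ → ℂ} (hf : Bd r f) :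
    coeffVec r N f ∈ frontier (body r N) ↔ ∃ c ≠ 0, Cert r f (lpoly N c) := by
  have hσ := sqrt_mem hr0 hr1
  constructor
  · intro h
    have hconv := convex_body hr0 hr1 N
    obtain ⟨φ, hφ⟩ := RCLike.geometric_hahn_banach_open_point (𝕜 := ℂ) hconv.interior
      isOpen_interior h.2
    set c : Fin (2 * N + 1) → ℂ := fun j => φ (Pi.single j.rev 1)
    have hφc : ∀ v, φ v = ∑ j, c j * v j.rev := fun v => by
      conv_lhs => rw [pi_eq_sum_univ' v]
      rw [map_sum, ← Equiv.sum_comp Fin.revPerm]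
      simp [c, mul_comm]
    have hle : ∀ w ∈ body r N, (φ w).re ≤ (φ (coeffVec r N f)).re := fun w hw => by
      have h1 : w ∈ closure (interior (body r N)) := by
        rw [hconv.closure_interior_eq_closure_of_nonempty_interior
          ⟨0, zero_mem_interior_body hr0 hr1 N⟩]
        exact subset_closure hw
      exact closure_minimal (t := {w | (φ w).re ≤ (φ (coeffVec r N f)).re})
        (fun a ha => (hφ a ha).le)
        (isClosed_le (Complex.continuous_re.comp φ.continuous) continuous_const) h1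
    refine ⟨c, fun hc => ?_, dual_exists hr0 hr1 hf (differentiableOn_lpoly_ann N c le_rfl) hσ
      fun g hg => ?_⟩
    · have := hφ 0 (zero_mem_interior_body hr0 hr1 N)
      simp [hφc, hc] at this
    · rw [CA_eq_pair hr0 hr1 hg.1, CA_eq_pair hr0 hr1 hf.1, ← hφc, ← hφc]
      exact hle _ ⟨g, hg, rfl⟩
  · rintro ⟨c, hc, hcert⟩
    refine ⟨subset_closure ⟨f, hf, rfl⟩, fun hint => ?_⟩
    set w : Fin (2 * N + 1) → ℂ := fun j => conj (c j.rev)
    have h1 : Tendsto (fun t : ℝ => coeffVec r N f + (t : ℂ) • w) (𝓝[>] 0) (𝓝 (coeffVec r N f)) := by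
      have : ContinuousAt (fun t : ℝ => coeffVec r N f + (t : ℂ) • w) 0 := by fun_prop
      have h := this.tendsto.mono_left (nhdsWithin_le_nhds (s := Ioi 0))
      simpa using h
    obtain ⟨t, ⟨g, hg, hgv⟩, ht⟩ := ((h1.eventually (mem_interior_iff_mem_nhds.1 hint)).and
      self_mem_nhdsWithin).exists
    have h2 := hcert.le hr0 hr1 hf hg hσ
    rw [CA_eq_pair hr0 hr1 hg.1, CA_eq_pair hr0 hr1 hf.1, hgv] at h2
    simp only [Pi.add_apply, Pi.smul_apply, smul_eq_mul, mul_add, Finset.sum_add_distrib,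
      Complex.add_re, w, Fin.rev_rev] at h2
    have h3 : (∑ j, c j * (t * conj (c j))).re = t * ∑ j, ‖c j‖ ^ 2 := by
      rw [Complex.re_sum, Finset.mul_sum]
      refine Finset.sum_congr rfl fun j _ => ?_
      rw [mul_left_comm, Complex.mul_conj']
      norm_cast
    obtain ⟨j, hj⟩ := Function.ne_iff.1 hc
    have h4 : 0 < ∑ j, ‖c j‖ ^ 2 :=
      Finset.sum_pos' (fun _ _ => by positivity) ⟨j, Finset.mem_univ _,
        pow_pos (norm_pos_iff.2 hj) 2⟩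
    have h5 : 0 < t := ht
    nlinarith [mul_pos h5 h4]

/-- Uniqueness of the extremal function. -/
theorem frontier_unique {r : ℝ} (hr0 : 0 < r) (hr1 : r < 1) {N : ℕ} {f g : ℂ → ℂ} (hf : Bd r f)
    (hg : Bd r g) (h : coeffVec r N f ∈ frontier (body r N)) (he : coeffVec r N g = coeffVec r N f)
    {z : ℂ} (hz : z ∈ ann r 1) : g z = f z := by
  obtain ⟨c, hc, hcert⟩ := (frontier_iff_cert hr0 hr1 hf).1 h
  refine hcert.unique hr0 hr1 hf hg (lpoly_ne_zero hr0.le hr1 hc) (sqrt_mem hr0 hr1) ?_ hz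
  rw [CA_eq_pair hr0 hr1 hg.1, CA_eq_pair hr0 hr1 hf.1, he]

end Pool.Agent.MP_faa29e_an

end MrgPart1

-- ======== part 2: formerly Pool.Agent.MP_faa29e_an.Theta
section MrgPart2

/-!
Theta products on the annulus.
-/

open Metric Set Filter Topology
open Real (circleAverage)
open scoped Real ComplexConjugate

namespace Pool.Agent.MP_faa29e_an

/-- The one-sided product. -/
noncomputable def Pq (q : ℝ) (w : ℂ) : ℂ := ∏' n : ℕ, (1 + -((q : ℂ) ^ (n + 1) * w))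

lemma summable_Pq {q : ℝ} (h0 : 0 < q) (h1 : q < 1) (R : ℝ) :
    Summable fun n : ℕ => q ^ (n + 1) * R :=
  ((summable_nat_add_iff 1).2 (summable_geometric_of_lt_one h0.le h1)).mul_right R

lemma norm_Pq_term {q : ℝ} (h0 : 0 < q) (n : ℕ) (w : ℂ) :
    ‖-((q : ℂ) ^ (n + 1) * w)‖ = q ^ (n + 1) * ‖w‖ := by
  rw [norm_neg, norm_mul, norm_pow, Complex.norm_real, Real.norm_of_nonneg h0.le]

lemma multipliable_Pq {q : ℝ} (h0 : 0 < q) (h1 : q < 1) (w : ℂ) :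
    Multipliable fun n : ℕ => 1 + -((q : ℂ) ^ (n + 1) * w) :=
  multipliable_one_add_of_summable (by simpa only [norm_Pq_term h0] using summable_Pq h0 h1 ‖w‖)

lemma differentiable_Pq {q : ℝ} (h0 : 0 < q) (h1 : q < 1) : Differentiable ℂ (Pq q) := by
  intro w
  have h := (summable_Pq h0 h1 (‖w‖ + 1)).hasProdLocallyUniformlyOn_nat_one_add
    (f := fun (n : ℕ) (z : ℂ) => -((q : ℂ) ^ (n + 1) * z)) (K := ball 0 (‖w‖ + 1)) isOpen_ball
    (.of_forall fun n x hx => by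
      rw [norm_Pq_term h0]
      exact mul_le_mul_of_nonneg_left (mem_ball_zero_iff.1 hx).le (by positivity))
    (fun _ => by fun_prop)
  have h2 : DifferentiableOn ℂ (Pq q) (ball 0 (‖w‖ + 1)) :=
    TendstoLocallyUniformlyOn.differentiableOn h (.of_forall fun s =>
      DifferentiableOn.fun_finsetProd fun _ _ => by fun_prop) isOpen_ball
  exact h2.differentiableAt (isOpen_ball.mem_nhds (by simp))

lemma Pq_ne_zero {q : ℝ} (h0 : 0 < q) (h1 : q < 1) {w : ℂ} (hw : q * ‖w‖ < 1) : Pq q w ≠ 0 := by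
  refine tprod_one_add_ne_zero_of_summable (fun n h => ?_)
    (by simpa only [norm_Pq_term h0] using summable_Pq h0 h1 ‖w‖)
  have h2 := norm_Pq_term h0 n w
  rw [← neg_eq_of_add_eq_zero_right h, norm_neg, norm_one, pow_succ, mul_assoc] at h2
  have h3 : q ^ n ≤ 1 := pow_le_one₀ h0.le h1.le
  have h4 : 0 ≤ q * ‖w‖ := by positivity
  nlinarith

lemma conj_Pq {q : ℝ} (h0 : 0 < q) (h1 : q < 1) (w : ℂ) : conj (Pq q w) = Pq q (conj w) := by
  rw [Pq, (multipliable_Pq h0 h1 w).map_tprod (starRingEnd ℂ) Complex.continuous_conj]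
  simp [Pq]

lemma theta_eq {q : ℝ} (h0 : 0 < q) (h1 : q < 1) (w : ℂ) :
    theta q w = (1 - w) * Pq q w * Pq q w⁻¹ := by
  have hA : Multipliable fun n : ℕ => 1 - (q : ℂ) ^ (n + 1) * w := by
    simpa only [sub_eq_add_neg] using multipliable_Pq h0 h1 w
  have hA' : Multipliable fun n : ℕ => 1 - (q : ℂ) ^ n * w := by
    have := multipliable_one_add_of_summable (f := fun n : ℕ => -((q : ℂ) ^ n * w)) (by
      refine ((summable_geometric_of_lt_one h0.le h1).mul_right ‖w‖).congr fun n => ?_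
      rw [norm_neg, norm_mul, norm_pow, Complex.norm_real, Real.norm_of_nonneg h0.le])
    simpa only [sub_eq_add_neg] using this
  have hB : Multipliable fun n : ℕ => 1 - (q : ℂ) ^ (n + 1) / w := by
    simpa only [sub_eq_add_neg, div_eq_mul_inv] using multipliable_Pq h0 h1 w⁻¹
  rw [theta, hA'.tprod_mul hB, tprod_eq_zero_mul' hA]
  simp only [Pq, sub_eq_add_neg, div_eq_mul_inv, pow_zero, one_mul]

lemma conj_theta {q : ℝ} (h0 : 0 < q) (h1 : q < 1) (w : ℂ) :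
    conj (theta q w) = theta q (conj w) := by
  rw [theta_eq h0 h1, theta_eq h0 h1, map_mul, map_mul, conj_Pq h0 h1, conj_Pq h0 h1]
  simp

lemma theta_div {q : ℝ} (h0 : 0 < q) {w : ℂ} (hw : w ≠ 0) : theta q (q / w) = theta q w := by
  have hq : (q : ℂ) ≠ 0 := by exact_mod_cast h0.ne'
  unfold theta
  congr 1
  ext n
  rw [mul_comm]
  congr 2
  · rw [pow_succ]; field_simp
  · rw [pow_succ]; field_simp

/-- The nonvanishing part of a theta factor. -/
noncomputable def hfac (q : ℝ) (w z : ℂ) : ℂ :=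
  -w⁻¹ * Pq q (z / w) * Pq q (z / w)⁻¹ / theta q (conj w * z)

lemma fac_eq {q : ℝ} (h0 : 0 < q) (h1 : q < 1) {w : ℂ} (hw : w ≠ 0) (z : ℂ) :
    theta q (z / w) / theta q (conj w * z) = (z - w) * hfac q w z := by
  rw [theta_eq h0 h1 (z / w), hfac]
  field_simp
  ring

section
variable {r : ℝ} (hr0 : 0 < r) (hr1 : r < 1)
include hr0 hr1

lemma sq_pos' : 0 < r ^ 2 := by have := hr1; positivity

lemma sq_lt_one' : r ^ 2 < 1 := by nlinarith

lemma theta_ne_zero {w : ℂ} (h1 : r ^ 2 < ‖w‖) (h2 : ‖w‖ < 1) : theta (r ^ 2) w ≠ 0 := by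
  have a0 := sq_pos' hr0 hr1
  have a1 := sq_lt_one' hr0 hr1
  rw [theta_eq a0 a1]
  refine mul_ne_zero (mul_ne_zero (fun h => ?_) (Pq_ne_zero a0 a1 (by nlinarith)))
    (Pq_ne_zero a0 a1 ?_)
  · rw [← sub_eq_zero.1 h] at h2; simp at h2
  · rw [norm_inv, ← div_eq_mul_inv, div_lt_one (a0.trans h1)]; exact h1

lemma conj_mul_bounds {w z : ℂ} (hw : w ∈ ann r 1) (hz : z ∈ cann r 1) :
    r ^ 2 < ‖conj w * z‖ ∧ ‖conj w * z‖ < 1 := by
  rw [norm_mul, Complex.norm_conj]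
  have := hr1
  constructor <;> nlinarith [hw.1, hw.2, hz.1, hz.2]

lemma analyticAt_theta {z : ℂ} (hz : z ≠ 0) : AnalyticAt ℂ (theta (r ^ 2)) z := by
  have a0 := sq_pos' hr0 hr1
  have a1 := sq_lt_one' hr0 hr1
  have : theta (r ^ 2) = fun w => (1 - w) * Pq (r ^ 2) w * Pq (r ^ 2) w⁻¹ :=
    funext (theta_eq a0 a1)
  rw [this]
  have hP := (differentiable_Pq a0 a1).analyticAt
  exact ((analyticAt_const.sub analyticAt_id).mul (hP _)).mul
    ((hP _).comp (analyticAt_id.inv hz))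

lemma hfac_analytic {w z : ℂ} (hw : w ∈ ann r 1) (hz : z ∈ cann r 1) :
    AnalyticAt ℂ (hfac (r ^ 2) w) z ∧ hfac (r ^ 2) w z ≠ 0 := by
  have a0 := sq_pos' hr0 hr1
  have a1 := sq_lt_one' hr0 hr1
  have hw0 := ne_zero_of_mem_ann hr0.le hw
  have hwn : 0 < ‖w‖ := norm_pos_iff.2 hw0
  have hzn : 0 < ‖z‖ := hr0.trans_le hz.1
  have hz0 : z ≠ 0 := norm_pos_iff.1 hzn
  have hb := conj_mul_bounds hr0 hr1 hw hz
  have hθ := theta_ne_zero hr0 hr1 hb.1 hb.2
  have hP := (differentiable_Pq a0 a1).analyticAt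
  have hd : AnalyticAt ℂ (fun z => z / w) z := analyticAt_id.div analyticAt_const hw0
  constructor
  · refine ((analyticAt_const.mul ((hP _).comp hd)).mul
      ((hP _).comp (hd.inv (div_ne_zero hz0 hw0)))).div ?_ hθ
    exact (analyticAt_theta hr0 hr1 (norm_pos_iff.1 (a0.trans hb.1))).comp
      (f := fun z => conj w * z) (analyticAt_const.mul analyticAt_id)
  · refine div_ne_zero (mul_ne_zero (mul_ne_zero (neg_ne_zero.2 (inv_ne_zero hw0))
      (Pq_ne_zero a0 a1 ?_)) (Pq_ne_zero a0 a1 ?_)) hθ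
    · rw [norm_div, ← mul_div_assoc, div_lt_one hwn]
      nlinarith [hw.1, hz.2]
    · rw [norm_inv, norm_div, inv_div, ← mul_div_assoc, div_lt_one hzn]
      nlinarith [hw.2, hz.1]

lemma norm_fac_outer {w z : ℂ} (hw : w ∈ ann r 1) (hz : ‖z‖ = 1) :
    ‖theta (r ^ 2) (z / w) / theta (r ^ 2) (conj w * z)‖ = ‖w‖⁻¹ := by
  have a0 := sq_pos' hr0 hr1
  have a1 := sq_lt_one' hr0 hr1
  have hw0 := ne_zero_of_mem_ann hr0.le hw
  have hz0 : z ≠ 0 := norm_pos_iff.1 (by rw [hz]; exact one_pos)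
  have hb := conj_mul_bounds hr0 hr1 hw (z := z) ⟨by rw [hz]; exact hr1.le, hz.le⟩
  have hθ := theta_ne_zero hr0 hr1 hb.1 hb.2
  have e : conj (theta (r ^ 2) (conj w * z)) = -(w / z) * theta (r ^ 2) (z / w) := by
    rw [conj_theta a0 a1, map_mul, Complex.conj_conj, conj_eq_of_norm one_pos hz,
      theta_eq a0 a1, theta_eq a0 a1]
    have h1 : w * (((1 : ℝ) : ℂ) ^ 2 * z⁻¹) = (z / w)⁻¹ := by push_cast; field_simp
    rw [h1, inv_inv]
    field_simp
    ring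
  have h2 := congrArg norm e
  rw [Complex.norm_conj, norm_mul, norm_neg, norm_div, hz, div_one] at h2
  have h3 := norm_ne_zero_iff.2 hθ
  rw [h2] at h3
  rw [norm_div, h2]
  have := right_ne_zero_of_mul h3
  field_simp

lemma norm_fac_inner {w z : ℂ} (hw : w ∈ ann r 1) (hz : ‖z‖ = r) :
    ‖theta (r ^ 2) (z / w) / theta (r ^ 2) (conj w * z)‖ = 1 := by
  have a0 := sq_pos' hr0 hr1
  have a1 := sq_lt_one' hr0 hr1
  have hw0 := ne_zero_of_mem_ann hr0.le hw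
  have hz0 : z ≠ 0 := norm_pos_iff.1 (by rw [hz]; exact hr0)
  have hb := conj_mul_bounds hr0 hr1 hw (z := z) ⟨hz.ge, by rw [hz]; exact hr1.le⟩
  have hθ := theta_ne_zero hr0 hr1 hb.1 hb.2
  have e : conj (theta (r ^ 2) (conj w * z)) = theta (r ^ 2) (z / w) := by
    rw [conj_theta a0 a1, map_mul, Complex.conj_conj, conj_eq_of_norm hr0 hz,
      ← theta_div a0 (div_ne_zero hz0 hw0)]
    congr 1
    push_cast
    field_simp
  rw [norm_div, ← e, Complex.norm_conj, div_self (norm_ne_zero_iff.2 hθ)]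

/-- The theta product factors as the polynomial of its zeros times a nonvanishing function. -/
lemma prod_fac (a : Multiset ℂ) (ha : ∀ w ∈ a, w ∈ ann r 1) :
    ∃ H : ℂ → ℂ, AnalyticOnNhd ℂ H (cann r 1) ∧ (∀ z ∈ cann r 1, H z ≠ 0) ∧
      (∀ z, (a.map fun w => theta (r ^ 2) (z / w) / theta (r ^ 2) (conj w * z)).prod =
        (a.map fun w => z - w).prod * H z) ∧
      (∀ z : ℂ, ‖z‖ = 1 → ‖(a.map fun w => z - w).prod * H z‖ = (a.map fun w => ‖w‖).prod⁻¹) ∧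
      ∀ z : ℂ, ‖z‖ = r → ‖(a.map fun w => z - w).prod * H z‖ = 1 := by
  have a0 := sq_pos' hr0 hr1
  have a1 := sq_lt_one' hr0 hr1
  induction a using Multiset.induction_on with
  | empty => exact ⟨fun _ => 1, analyticOnNhd_const, by simp, by simp, by simp, by simp⟩
  | cons w a ih =>
    obtain ⟨H, h1, h2, h3, h4, h5⟩ := ih fun v hv => ha v (Multiset.mem_cons_of_mem hv)
    have hw := ha w (Multiset.mem_cons_self w a)
    have hw0 := ne_zero_of_mem_ann hr0.le hw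
    have e : ∀ z, (z - w) * (a.map fun w => z - w).prod * (hfac (r ^ 2) w z * H z) =
        (theta (r ^ 2) (z / w) / theta (r ^ 2) (conj w * z)) *
          ((a.map fun w => z - w).prod * H z) := fun z => by
      rw [fac_eq a0 a1 hw0]; ring
    refine ⟨fun z => hfac (r ^ 2) w z * H z,
      fun z hz => (hfac_analytic hr0 hr1 hw hz).1.mul (h1 z hz),
      fun z hz => mul_ne_zero (hfac_analytic hr0 hr1 hw hz).2 (h2 z hz), fun z => ?_,
      fun z hz => ?_, fun z hz => ?_⟩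
    · simp only [Multiset.map_cons, Multiset.prod_cons]
      rw [e, h3]
    · simp only [Multiset.map_cons, Multiset.prod_cons]
      rw [e, norm_mul, norm_fac_outer hr0 hr1 hw hz, h4 z hz, mul_inv]
    · simp only [Multiset.map_cons, Multiset.prod_cons]
      rw [e, norm_mul, norm_fac_inner hr0 hr1 hw hz, h5 z hz, mul_one]

end

lemma analyticAt_zeros (a : Multiset ℂ) (z : ℂ) :
    AnalyticAt ℂ (fun z => (a.map fun w => z - w).prod) z := by
  induction a using Multiset.induction_on with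
  | empty => simpa using analyticAt_const
  | cons w a ih =>
    simp only [Multiset.map_cons, Multiset.prod_cons]
    exact (analyticAt_id.sub analyticAt_const).mul ih

lemma zeros_split (a : Multiset ℂ) (z₀ : ℂ) : ∃ R : ℂ → ℂ, AnalyticAt ℂ R z₀ ∧ R z₀ ≠ 0 ∧
    ∀ z, (a.map fun w => z - w).prod = (z - z₀) ^ a.count z₀ * R z := by
  refine ⟨fun z => ((a.filter fun w => ¬w = z₀).map fun w => z - w).prod, analyticAt_zeros _ _,
    ?_, fun z => ?_⟩
  · refine Multiset.prod_ne_zero fun h => ?_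
    obtain ⟨w, hw, hw2⟩ := Multiset.mem_map.1 h
    exact (Multiset.mem_filter.1 hw).2 (sub_eq_zero.1 hw2).symm
  · conv_lhs => rw [← Multiset.filter_add_not (fun w => w = z₀) a]
    rw [Multiset.map_add, Multiset.prod_add, Multiset.filter_eq', Multiset.map_replicate,
      Multiset.prod_replicate]

lemma isCompact_cann (a b : ℝ) : IsCompact (cann a b) :=
  (isCompact_closedBall (0 : ℂ) b).of_isClosed_subset (isClosed_cann a b)
    fun w hw => by simpa using hw.2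

lemma isPreconnected_cann {a b : ℝ} (ha : 0 ≤ a) : IsPreconnected (cann a b) := by
  have h : cann a b = (fun x : ℝ × ℝ => circleMap 0 x.1 x.2) '' (Icc a b ×ˢ univ) := by
    ext z
    constructor
    · intro hz
      refine ⟨(‖z‖, Complex.arg z), ⟨hz, trivial⟩, ?_⟩
      simp [circleMap, Complex.norm_mul_exp_arg_mul_I]
    · rintro ⟨x, ⟨hx, -⟩, rfl⟩
      have h0 : 0 ≤ x.1 := ha.trans hx.1
      simp only [cann, mem_ofPred_eq, norm_circleMap_zero, abs_of_nonneg h0]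
      exact hx
  rw [h]
  exact (isPreconnected_Icc.prod isPreconnected_univ).image _
    Real.circleMap.continuous.continuousOn

/-- Analyticity near the closed annulus gives a larger open annulus. -/
lemma exists_larger {r : ℝ} (hr0 : 0 < r) (hr1 : r < 1) {F : ℂ → ℂ}
    (hF : AnalyticOnNhd ℂ F (cann r 1)) :
    ∃ a b, 0 < a ∧ a < r ∧ 1 < b ∧ DifferentiableOn ℂ F (ann a b) := by
  obtain ⟨δ, hδ, hsub⟩ := (isCompact_cann r 1).exists_thickening_subset_open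
    (isOpen_analyticAt ℂ F) hF
  obtain ⟨a, ha1, ha2⟩ := exists_between (max_lt hr0 (sub_lt_self r hδ))
  have ha0 : 0 < a := (le_max_left _ _).trans_lt ha1
  refine ⟨a, 1 + δ, ha0, ha2, by linarith, fun z hz =>
    (AnalyticAt.differentiableAt (hsub ?_)).differentiableWithinAt⟩
  have hz0 : 0 < ‖z‖ := ha0.trans hz.1
  have key : ∀ s : ℝ, r ≤ s → s ≤ 1 → |‖z‖ - s| < δ → z ∈ thickening δ (cann r 1) := by
    intro s h1 h2 h3
    have hs : 0 < s := hr0.trans_le h1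
    rw [mem_thickening_iff]
    have hn : ‖z / ‖z‖ * s‖ = s := by
      rw [norm_mul, norm_div, Complex.norm_real, Complex.norm_real, norm_norm, div_self hz0.ne',
        one_mul, Real.norm_of_nonneg hs.le]
    refine ⟨z / ‖z‖ * s, ⟨by rw [hn]; exact h1, by rw [hn]; exact h2⟩, ?_⟩
    have e : z - z / ‖z‖ * s = z / ‖z‖ * ((‖z‖ - s : ℝ) : ℂ) := by
      have : (‖z‖ : ℂ) ≠ 0 := by exact_mod_cast hz0.ne'
      push_cast; field_simp
    rw [dist_eq_norm, e, norm_mul, norm_div, Complex.norm_real, Complex.norm_real, norm_norm,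
      div_self hz0.ne', one_mul, Real.norm_eq_abs]
    exact h3
  have ha3 := (le_max_right _ _).trans_lt ha1
  rcases le_total ‖z‖ r with h | h
  · exact key r le_rfl hr1.le (by rw [abs_lt]; constructor <;> linarith [hz.1])
  · rcases le_total ‖z‖ 1 with h' | h'
    · exact key _ h h' (by simpa using hδ)
    · exact key 1 hr1.le le_rfl (by rw [abs_lt]; constructor <;> linarith [hz.2])

lemma lc_reflect_sphere {F G : ℂ → ℂ} {ρ : ℝ} (hρ : 0 < ρ) (hG : ContinuousOn G (sphere 0 ρ))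
    (h : ∀ z : ℂ, ‖z‖ = ρ → F z = conj (G z)) (k : ℤ) :
    lc F ρ k * (ρ : ℂ) ^ (2 * k) = conj (lc G ρ (-k)) := by
  have hρc : (ρ : ℂ) ≠ 0 := by exact_mod_cast hρ.ne'
  rw [lc, lc, ← CA_conj (F := fun z => G z * z ^ (- -k)) hρ
    (hG.mul (continuousOn_zpow_sphere hρ _)), mul_comm, ← CA_const_mul]
  refine CA_congr hρ fun z hz => ?_
  rw [map_mul, map_zpow₀, conj_eq_of_norm hρ hz, h z hz, neg_neg, mul_zpow, inv_zpow',
    ← zpow_natCast, ← zpow_mul]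
  push_cast
  ring

/-- A nonvanishing function with constant modulus on both circles is a monomial. -/
lemma monomial_of_const_norm {r : ℝ} (hr0 : 0 < r) (hr1 : r < 1) {G : ℂ → ℂ}
    (hG : AnalyticOnNhd ℂ G (cann r 1)) (h0 : ∀ z ∈ cann r 1, G z ≠ 0) {c₁ c₂ : ℝ}
    (h1 : ∀ z : ℂ, ‖z‖ = 1 → ‖G z‖ = c₁) (h2 : ∀ z : ℂ, ‖z‖ = r → ‖G z‖ = c₂) :
    ∃ (κ : ℂ) (e : ℤ), ∀ z ∈ cann r 1, G z = κ * z ^ e := by
  have hGi : AnalyticOnNhd ℂ (fun z => (G z)⁻¹) (cann r 1) := fun z hz => (hG z hz).inv (h0 z hz)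
  obtain ⟨a, b, ha0, ha, hb, hd⟩ := exists_larger hr0 hr1 hG
  obtain ⟨a', b', ha0', ha', hb', hd'⟩ := exists_larger hr0 hr1 hGi
  have m1 : (1 : ℝ) ∈ Ioo a b := ⟨ha.trans hr1, hb⟩
  have mr : r ∈ Ioo a b := ⟨ha, hr1.trans hb⟩
  have m1' : (1 : ℝ) ∈ Ioo a' b' := ⟨ha'.trans hr1, hb'⟩
  have mr' : r ∈ Ioo a' b' := ⟨ha', hr1.trans hb'⟩
  have key : ∀ (ρ c : ℝ), ρ ∈ Ioo a b → ρ ∈ Icc r 1 → (∀ z : ℂ, ‖z‖ = ρ → ‖G z‖ = c) → ∀ k : ℤ,
      (c : ℂ) ^ 2 * lc (fun z => (G z)⁻¹) ρ k * (ρ : ℂ) ^ (2 * k) = conj (lc G ρ (-k)) := by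
    intro ρ c hρ hρ' h k
    rw [← lc_const_mul]
    refine lc_reflect_sphere (ha0.trans hρ.1) (contOn_sphere hd hρ) (fun z hz => ?_) k
    have hz0 := h0 z ⟨by rw [hz]; exact hρ'.1, by rw [hz]; exact hρ'.2⟩
    rw [← h z hz, ← Complex.mul_conj']
    field_simp
  have k1 := key 1 c₁ m1 ⟨hr1.le, le_rfl⟩ h1
  have k2 := key r c₂ mr ⟨le_rfl, hr1.le⟩ h2
  simp only [lc_eq_ann ha0.le hd mr m1, lc_eq_ann ha0'.le hd' mr' m1'] at k2
  have hc : ∀ k : ℤ, lc G 1 (-k) ≠ 0 → c₁ ^ 2 = c₂ ^ 2 * r ^ (2 * k) := fun k hk => by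
    have e1 := k1 k
    have e2 := k2 k
    have e3 : lc (fun z => (G z)⁻¹) 1 k ≠ 0 := fun h => by
      rw [h, mul_zero, zero_mul] at e1
      exact hk ((map_eq_zero _).1 e1.symm)
    rw [← e2] at e1
    simp only [Complex.ofReal_one, one_zpow, mul_one] at e1
    have e4 : (c₁ : ℂ) ^ 2 = (c₂ : ℂ) ^ 2 * (r : ℂ) ^ (2 * k) :=
      mul_right_cancel₀ e3 (by rw [e1]; ring)
    exact_mod_cast e4
  have hc1 : c₁ ≠ 0 := by
    rw [← h1 1 norm_one]
    exact norm_ne_zero_iff.2 (h0 1 ⟨by simpa using hr1.le, by simp⟩)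
  obtain ⟨e, he⟩ : ∃ e : ℤ, ∀ k, k ≠ e → lc G 1 k = 0 := by
    by_cases hex : ∃ e, lc G 1 e ≠ 0
    · obtain ⟨e, he⟩ := hex
      refine ⟨e, fun k hk => ?_⟩
      by_contra hk0
      have a1 := hc (-e) (by rwa [neg_neg])
      have a2 := hc (-k) (by rwa [neg_neg])
      have a3 : c₂ ^ 2 ≠ 0 := fun h => hc1 (by rw [h, zero_mul] at a1; simpa using a1)
      have a4 := mul_left_cancel₀ a3 (a1.symm.trans a2)
      have := zpow_right_injective₀ hr0 hr1.ne a4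
      omega
    · push Not at hex
      exact ⟨0, fun k _ => hex k⟩
  refine ⟨lc G 1 e, e, fun z hz => ?_⟩
  refine (hasSum_lc ha0.le hd m1 (cann_subset_ann ha hb hz)).unique ?_
  exact hasSum_single e fun k hk => by rw [he k hk, zero_mul]

/-- Extraction of the zeros. -/
lemma exists_zeros {r : ℝ} (hr0 : 0 < r) (hr1 : r < 1) {F : ℂ → ℂ}
    (hF : AnalyticOnNhd ℂ F (cann r 1)) (h1 : F 1 ≠ 0) :
    ∃ (a : Multiset ℂ) (G : ℂ → ℂ), (∀ w ∈ a, w ∈ cann r 1) ∧ AnalyticOnNhd ℂ G (cann r 1) ∧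
      (∀ z ∈ cann r 1, G z ≠ 0) ∧ ∀ z ∈ cann r 1, F z = (a.map fun w => z - w).prod * G z := by
  have hone : (1 : ℂ) ∈ cann r 1 := ⟨by simpa using hr1.le, by simp⟩
  have hm := hF.meromorphicOn
  have hfin := (MeromorphicOn.divisor F (cann r 1)).finiteSupport (isCompact_cann r 1)
  obtain ⟨G, hG1, hG2, hG3⟩ := hm.extract_zeros_poles (fun u =>
    hm.meromorphicOrderAt_ne_top_of_isPreconnected (isPreconnected_cann hr0.le) hone u.2 (by
      rw [((hF 1 hone).meromorphicNFAt.meromorphicOrderAt_eq_zero_iff).2 h1]; simp)) hfin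
  set D := MeromorphicOn.divisor F (cann r 1)
  have hD : ∀ u, 0 ≤ D u := MeromorphicOn.AnalyticOnNhd.divisor_nonneg hF
  refine ⟨hfin.toFinset.val.bind fun u => Multiset.replicate (D u).toNat u, G, fun w hw => ?_, hG1,
    fun z hz => hG2 ⟨z, hz⟩, ?_⟩
  · obtain ⟨u, hu, hw⟩ := Multiset.mem_bind.1 hw
    rw [Multiset.eq_of_mem_replicate hw]
    exact D.supportWithinDomain (by simpa using hu)
  · obtain ⟨σ, hσ⟩ : ∃ σ, σ ∈ Ioo r 1 := exists_between hr1
    have hσ' : (σ : ℂ) ∈ ann r 1 := mem_ann_of_norm hσ (by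
      rw [Complex.norm_real, Real.norm_of_nonneg (hr0.trans hσ.1).le])
    refine hF.eqOn_of_preconnected_of_frequently_eq
      (fun z hz => (analyticAt_zeros _ z).mul (hG1 z hz)) (isPreconnected_cann hr0.le)
      (ann_subset_cann _ _ hσ') (Eventually.frequently ?_)
    have h2 := mem_codiscreteWithin_iff_forall_mem_nhdsNE.1 hG3 σ (ann_subset_cann _ _ hσ')
    filter_upwards [h2, mem_nhdsWithin_of_mem_nhds ((isOpen_ann r 1).mem_nhds hσ')] with z hz hz'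
    rcases hz with hz | hz
    · rw [mem_ofPred_eq] at hz
      rw [hz, finprod_eq_prod_of_mulSupport_subset (s := hfin.toFinset)]
      · simp only [Pi.smul_apply', Finset.prod_apply, Pi.pow_apply, smul_eq_mul, Multiset.map_bind,
          Multiset.prod_bind, Multiset.map_replicate, Multiset.prod_replicate]
        congr 1
        refine Finset.prod_congr rfl fun u _ => ?_
        rw [← zpow_natCast, Int.toNat_of_nonneg (hD u)]
      · intro u hu
        simp only [Finite.coe_toFinset, Function.mem_support]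
        intro h0
        apply hu
        simp only [h0, zpow_zero]
    · exact absurd (ann_subset_cann _ _ hz') hz

end Pool.Agent.MP_faa29e_an

end MrgPart2

-- ======== part 3: formerly Pool.Agent.MP_faa29e_an.Types
section MrgPart3

/-!
The three kinds of extremal functions.
-/

open Metric Set Filter Topology
open Real (circleAverage)
open scoped Real ComplexConjugate

namespace Pool.Agent.MP_faa29e_an

/-- Intrinsic form of the first kind. -/
def Kind1 (r : ℝ) (f p : ℂ → ℂ) : Prop :=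
  ∃ F β : ℂ → ℂ, AnalyticOnNhd ℂ F (cann r 1) ∧ AnalyticOnNhd ℂ β (cann r 1) ∧
    (∀ z ∈ ann r 1, F z = f z) ∧
    (∀ z : ℂ, ‖z‖ = 1 → ‖F z‖ = 1 ∧ F z * (p z - β z) = ‖p z - β z‖) ∧
    ∀ z : ℂ, ‖z‖ = r → ‖F z‖ = 1 ∧ F z * β z = ‖β z‖

lemma glue {r : ℝ} (hr0 : 0 < r) (hr1 : r < 1) {u u₁ u₂ : ℂ → ℂ}
    (hu : DifferentiableOn ℂ u (ann r 1)) (h1 : ∀ z ∈ ann r 1, u₁ z = u z)
    (h2 : ∀ z ∈ ann r 1, u₂ z = u z) (a1 : ∀ z : ℂ, ‖z‖ = 1 → AnalyticAt ℂ u₁ z)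
    (a2 : ∀ z : ℂ, ‖z‖ = r → AnalyticAt ℂ u₂ z) :
    ∃ U : ℂ → ℂ, AnalyticOnNhd ℂ U (cann r 1) ∧ (∀ z ∈ ann r 1, U z = u z) ∧
      (∀ z : ℂ, ‖z‖ = 1 → U z = u₁ z) ∧ ∀ z : ℂ, ‖z‖ = r → U z = u₂ z := by
  have hσ := sqrt_mem hr0 hr1
  set U : ℂ → ℂ := fun z => if √r ≤ ‖z‖ then u₁ z else u₂ z with hU
  have e0 : ∀ z ∈ ann r 1, U z = u z := fun z hz => by
    simp only [hU]; split_ifs
    · exact h1 z hz
    · exact h2 z hz
  refine ⟨U, fun z hz => ?_, e0, fun z hz => if_pos (by rw [hz]; exact hσ.2.le),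
    fun z hz => if_neg (by rw [hz]; exact not_le.2 hσ.1)⟩
  rcases eq_or_lt_of_le hz.1 with h | h
  · refine (a2 z h.symm).congr ?_
    have : ∀ᶠ w in 𝓝 z, ‖w‖ < √r :=
      continuous_norm.continuousAt.eventually (gt_mem_nhds (h.symm.trans_lt hσ.1))
    filter_upwards [this] with w hw
    exact (if_neg (not_le.2 hw)).symm
  · rcases eq_or_lt_of_le hz.2 with h' | h'
    · refine (a1 z h').congr ?_
      have : ∀ᶠ w in 𝓝 z, √r < ‖w‖ :=
        continuous_norm.continuousAt.eventually (lt_mem_nhds (hσ.2.trans_eq h'.symm))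
      filter_upwards [this] with w hw
      exact (if_pos hw.le).symm
    · refine (hu.analyticOnNhd (isOpen_ann _ _) z ⟨h, h'⟩).congr ?_
      filter_upwards [(isOpen_ann r 1).mem_nhds ⟨h, h'⟩] with w hw
      exact (e0 w hw).symm

lemma eqOn_big {r : ℝ} (hr0 : 0 < r) (hr1 : r < 1) {u v : ℂ → ℂ}
    (hu : DifferentiableOn ℂ u (ann r r⁻¹)) (hv : DifferentiableOn ℂ v (ann r r⁻¹))
    (h : ∀ z ∈ ann r 1, u z = v z) {z : ℂ} (hz : z ∈ ann r r⁻¹) : u z = v z := by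
  have hσ := sqrt_mem hr0 hr1
  have hri := one_lt_inv' hr0 hr1
  exact eq_of_lc_eq hr0.le hu hv (ρ := √r) ⟨hσ.1, hσ.2.trans hri⟩
    (lc_congr (hr0.trans hσ.1) fun z hz => h z (mem_ann_of_norm hσ hz)) hz

lemma inv_conj_mem {r : ℝ} (hr0 : 0 < r) (hr1 : r < 1) {z : ℂ} (hz : z ∈ ann r 1) :
    (conj z)⁻¹ ∈ ann r r⁻¹ := by
  have h0 : 0 < ‖z‖ := hr0.trans hz.1
  refine ⟨?_, ?_⟩
  · rw [norm_inv, Complex.norm_conj]
    exact hr1.trans ((one_lt_inv₀ h0).2 hz.2)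
  · rw [norm_inv, Complex.norm_conj]
    exact inv_strictAnti₀ hr0 hz.1

lemma norm_r_div {r : ℝ} (hr0 : 0 < r) (z : ℂ) : ‖(r : ℂ) / z‖ = r / ‖z‖ := by
  rw [norm_div, Complex.norm_real, Real.norm_of_nonneg hr0.le]

lemma analyticAt_r_div {r : ℝ} {z : ℂ} (hz : z ≠ 0) : AnalyticAt ℂ (fun z => (r : ℂ) / z) z :=
  analyticAt_const.div analyticAt_id hz

lemma cert_cases {r : ℝ} (hr0 : 0 < r) (hr1 : r < 1) {f p : ℂ → ℂ} (hf : Bd r f)
    (hp : DifferentiableOn ℂ p {0}ᶜ) (h : Cert r f p) :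
    Kind1 r f p ∨ (∀ z ∈ ann r 1, f z ^ 2 * p z = conj (p (1 / conj z))) ∨
      ∀ z ∈ ann r 1, f z ^ 2 * p z = conj (p ((r : ℂ) ^ 2 / conj z)) := by
  obtain ⟨γ₁, γ₂, h₁, h₂, hs, t₁, t₂⟩ := h
  have hrc : (r : ℂ) ≠ 0 := by exact_mod_cast hr0.ne'
  have hri := one_lt_inv' hr0 hr1
  obtain ⟨Γ₁, a1, a2, a3, a4⟩ := t₁.structure hr0 hr1 hf h₁
  obtain ⟨Γ₂, b1, b2, b3, b4⟩ := t₂.structure hr0 hr1 (hf.inv hr0) h₂
  by_cases c2 : ∃ z ∈ ann r 1, γ₂ z ≠ 0; swap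
  · push Not at c2
    have e1 : ∀ z ∈ ann r 1, γ₁ z = p z := fun z hz => by
      rw [← hs z hz, c2 _ (inv_mem_ann hr0 hz), add_zero]
    refine Or.inr (Or.inl fun z hz => ?_)
    rw [one_div, ← eqOn_big hr0 hr1 a1 (hp.mono (ann_subset_compl hr0.le))
      (fun w hw => (a2 w hw).trans (e1 w hw)) (inv_conj_mem hr0 hr1 hz), a3 z hz,
      Complex.conj_conj, e1 z hz, mul_comm]
  by_cases c1 : ∃ z ∈ ann r 1, γ₁ z ≠ 0; swap
  · push Not at c1
    have e1 : ∀ z ∈ ann r 1, γ₂ z = p (r / z) := fun z hz => by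
      rw [← hs _ (inv_mem_ann hr0 hz), c1 _ (inv_mem_ann hr0 hz), zero_add, div_div_self hr0]
    refine Or.inr (Or.inr fun z hz => ?_)
    have hw := inv_mem_ann hr0 hz
    have hpi : DifferentiableOn ℂ (fun z => p (r / z)) (ann r r⁻¹) :=
      hp.comp (f := fun z => (r : ℂ) / z) ((differentiableOn_const _).div differentiableOn_id
        fun _ hz => ne_zero_of_mem_ann hr0.le hz)
        fun _ hz => div_ne_zero hrc (ne_zero_of_mem_ann hr0.le hz)
    have e2 := eqOn_big hr0 hr1 b1 hpi (fun w hw => (b2 w hw).trans (e1 w hw))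
      (inv_conj_mem hr0 hr1 hw)
    rw [b3 _ hw, e1 _ hw, div_div_self hr0] at e2
    have e3 : (r : ℂ) / (conj ((r : ℂ) / z))⁻¹ = (r : ℂ) ^ 2 / conj z := by
      rw [map_div₀, Complex.conj_ofReal]; field_simp
    rw [e3] at e2
    rw [← e2, Complex.conj_conj, mul_comm]
  left
  obtain ⟨F₁, f1, f2⟩ := a4 c1
  obtain ⟨F₂, g1, g2⟩ := b4 c2
  have hT : ∀ z : ℂ, ‖z‖ = r → ‖(r : ℂ) / z‖ = 1 := fun z hz => by
    rw [norm_r_div hr0, hz, div_self hr0.ne']
  have hz0 : ∀ z : ℂ, ‖z‖ = r → z ≠ 0 := fun z hz => norm_pos_iff.1 (by rw [hz]; exact hr0)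
  have hmem : ∀ z : ℂ, ‖z‖ = 1 → z ∈ ann r r⁻¹ := fun z hz => mem_ann_of_norm ⟨hr1, hri⟩ hz
  obtain ⟨F, F1, F2, F3, F4⟩ := glue hr0 hr1 (u₂ := fun z => F₂ (r / z)) hf.1 f1
    (fun z hz => by simp only [g1 _ (inv_mem_ann hr0 hz), div_div_self hr0])
    (fun z hz => (f2 z hz).1)
    (fun z hz => (g2 _ (hT z hz)).1.comp (f := fun z => (r : ℂ) / z) (analyticAt_r_div (hz0 z hz)))
  obtain ⟨β, B1, B2, B3, B4⟩ := glue hr0 hr1 (u₁ := fun z => p z - Γ₁ z)
    (u₂ := fun z => Γ₂ (r / z)) (differentiableOn_inv_comp hr0 h₂)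
    (fun z hz => by rw [a2 z hz, ← hs z hz]; ring)
    (fun z hz => b2 _ (inv_mem_ann hr0 hz))
    (fun z hz => (hp.analyticOnNhd isOpen_compl_singleton z
      (ne_zero_of_mem_ann hr0.le (hmem z hz))).sub (a1.analyticOnNhd (isOpen_ann _ _) z (hmem z hz)))
    (fun z hz => (b1.analyticOnNhd (isOpen_ann _ _) _ (hmem _ (hT z hz))).comp
      (f := fun z => (r : ℂ) / z) (analyticAt_r_div (hz0 z hz)))
  refine ⟨F, β, F1, B1, F2, fun z hz => ?_, fun z hz => ?_⟩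
  · rw [F3 z hz, B3 z hz, sub_sub_cancel]
    exact (f2 z hz).2
  · rw [F4 z hz, B4 z hz]
    exact (g2 _ (hT z hz)).2

lemma Kind1.cert {r : ℝ} (hr0 : 0 < r) (hr1 : r < 1) {f p : ℂ → ℂ}
    (hp : DifferentiableOn ℂ p {0}ᶜ) (h : Kind1 r f p) : Cert r f p := by
  obtain ⟨F, β, hF, hβ, e, h1, h2⟩ := h
  have hβd : DifferentiableOn ℂ β (ann r 1) := hβ.differentiableOn.mono (ann_subset_cann _ _)
  have hsub : {z : ℂ | r < ‖z‖ ∧ ‖z‖ ≤ 1} ⊆ cann r 1 := fun z hz => ⟨hz.1.le, hz.2⟩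
  have hsub0 : {z : ℂ | r < ‖z‖ ∧ ‖z‖ ≤ 1} ⊆ {0}ᶜ := fun z hz =>
    norm_pos_iff.1 (hr0.trans hz.1)
  have hinv : ContinuousOn (fun z : ℂ => (r : ℂ) / z) {z : ℂ | r < ‖z‖ ∧ ‖z‖ ≤ 1} :=
    continuousOn_const.div continuousOn_id hsub0
  have hmaps : MapsTo (fun z : ℂ => (r : ℂ) / z) {z : ℂ | r < ‖z‖ ∧ ‖z‖ ≤ 1} (cann r 1) := by
    intro z hz
    have h0 : 0 < ‖z‖ := hr0.trans hz.1
    refine ⟨?_, ?_⟩
    · rw [norm_r_div hr0, le_div_iff₀ h0]; nlinarith [hz.2]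
    · rw [norm_r_div hr0, div_le_one h0]; exact hz.1.le
  refine ⟨fun z => p z - β z, fun z => β (r / z), (hp.mono (ann_subset_compl hr0.le)).sub hβd,
    differentiableOn_inv_comp hr0 hβd, fun z _ => by simp only [div_div_self hr0]; ring, ?_, ?_⟩
  · exact tight_of_boundary hr0 hr1 (hF.continuousOn.mono hsub)
      ((hp.continuousOn.mono hsub0).sub (hβ.continuousOn.mono hsub)) e (fun _ _ => rfl)
      fun z hz => (h1 z hz).2
  · exact tight_of_boundary hr0 hr1 (F := fun z => F (r / z)) (Γ := fun z => β (r / z))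
      (hF.continuousOn.comp hinv hmaps) (hβ.continuousOn.comp hinv hmaps)
      (fun z hz => e _ (inv_mem_ann hr0 hz)) (fun _ _ => rfl)
      fun z hz => (h2 _ (by rw [norm_r_div hr0, hz, div_one])).2

lemma cert_of_tight {r : ℝ} {f p : ℂ → ℂ} (hp : DifferentiableOn ℂ p (ann r 1)) (h : Tight f p) :
    Cert r f p :=
  ⟨p, fun _ => 0, hp, differentiableOn_const _, fun _ _ => add_zero _, h, tight_zero _⟩

open Polynomial in
lemma lpoly_coeff (N : ℕ) (R : ℂ[X]) (hR : R.natDegree ≤ 2 * N) {z : ℂ} (hz : z ≠ 0) :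
    lpoly N (fun j => R.coeff j) z = z ^ (-(N : ℤ)) * R.eval z := by
  rw [eval_eq_sum_range' (n := 2 * N + 1) (by omega), Finset.mul_sum, lpoly,
    Fin.sum_univ_eq_sum_range (fun j => R.coeff j * z ^ ((j : ℤ) - N))]
  refine Finset.sum_congr rfl fun j _ => ?_
  rw [sub_eq_add_neg, zpow_add₀ hz, zpow_natCast]
  ring

open Polynomial in
lemma exists_poly (N : ℕ) (c : Fin (2 * N + 1) → ℂ) :
    ∃ R : ℂ[X], R.natDegree ≤ 2 * N ∧ (fun j : Fin (2 * N + 1) => R.coeff j) = c := by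
  refine ⟨∑ j : Fin (2 * N + 1), monomial j (c j), natDegree_sum_le_of_forall_le _ _ fun j _ =>
    (natDegree_monomial_le _).trans (by omega), funext fun j => ?_⟩
  simp only [finsetSum_coeff, coeff_monomial, Fin.val_inj]
  simp

open Polynomial in
lemma TypeII.cert {r : ℝ} (hr0 : 0 < r) (hr1 : r < 1) {N : ℕ} {f : ℂ → ℂ} (hf : Bd r f)
    (h : TypeII r N f) : ∃ c ≠ 0, Cert r f (lpoly N c) := by
  obtain ⟨c, hc, h⟩ := h
  obtain ⟨P, hP, rfl⟩ := exists_poly N c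
  obtain ⟨m, hm, Q, hQ1, hQ2, hQ3⟩ := reduce_zeros hr0 (f := f) (2 * N) P
    (by rintro rfl; exact hc (by ext; simp)) hP fun z hz => by
      have hz0 := ne_zero_of_mem_ann hr0.le hz
      have hz1 : conj z ≠ 0 := by simpa using hz0
      have h1 := h z hz
      rw [one_div, lpoly_coeff N P hP hz0, lpoly_coeff N P hP (inv_ne_zero hz1), map_mul,
        map_zpow₀, map_inv₀, Complex.conj_conj, inv_zpow', neg_neg, zpow_neg, zpow_natCast] at h1
      have h2 : z ^ N ≠ 0 := pow_ne_zero _ hz0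
      rw [two_mul, pow_add, mul_assoc, ← h1]
      field_simp
  have hqc : ∀ l : ℕ, ContinuousOn (fun z : ℂ => z ^ (-(l : ℤ)) * Q.eval z) {0}ᶜ := fun l =>
    (continuousOn_id.zpow₀ _ fun z hz => Or.inl hz).mul Q.continuous.continuousOn
  have hq0 : ∀ (l : ℕ) (z : ℂ), ‖z‖ = 1 → z ^ (-(l : ℤ)) * Q.eval z ≠ 0 := fun l z hz =>
    mul_ne_zero (zpow_ne_zero _ (norm_pos_iff.1 (by rw [hz]; exact one_pos))) (hQ2 z hz)
  have hre : ∀ (l : ℕ) (z : ℂ), refl (fun z : ℂ => z ^ (-(l : ℤ)) * Q.eval z) z =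
      z ^ l * conj (Q.eval (conj z)⁻¹) := fun l z => by
    simp only [refl]
    rw [map_mul, map_zpow₀, map_inv₀, Complex.conj_conj, inv_zpow', neg_neg, zpow_natCast]
  rcases Nat.even_or_odd' m with ⟨l, rfl | rfl⟩
  · have hR : (X ^ (N - l) * Q).natDegree ≤ 2 * N :=
      natDegree_mul_le.trans (by rw [natDegree_X_pow]; omega)
    have hq : ∀ z : ℂ, z ≠ 0 → lpoly N (fun j => (X ^ (N - l) * Q).coeff j) z =
        z ^ (-(l : ℤ)) * Q.eval z := fun z hz => by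
      rw [lpoly_coeff N _ hR hz, eval_mul, eval_pow, eval_X, ← mul_assoc, ← zpow_natCast,
        ← zpow_add₀ hz]
      congr 2
      omega
    set c' : Fin (2 * N + 1) → ℂ := fun j => (X ^ (N - l) * Q).coeff j
    have hc' : c' ≠ 0 := fun h0 => hq0 l 1 norm_one (by
      rw [← hq 1 one_ne_zero, h0]; simp [lpoly])
    rcases tight_of_sq hr0 hr1 hf (differentiableOn_lpoly N c').continuousOn
      (fun z hz => by
        rw [hq z (norm_pos_iff.1 (by rw [hz]; exact one_pos))]; exact hq0 l z hz)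
      (fun z hz => by
        have hz0 := ne_zero_of_mem_ann hr0.le hz
        have hz1 : conj z ≠ 0 := by simpa using hz0
        have e := hre l z
        simp only [refl] at e ⊢
        rw [hq z hz0, hq _ (inv_ne_zero hz1), e, mul_left_comm, hQ3 z hz, two_mul, pow_add,
          zpow_neg, zpow_natCast]
        field_simp) with h1 | h1
    · exact ⟨c', hc', cert_of_tight (differentiableOn_lpoly_ann N c' hr0.le) h1⟩
    · refine ⟨-c', neg_ne_zero.2 hc', cert_of_tight (differentiableOn_lpoly_ann N _ hr0.le) ?_⟩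
      have : lpoly N (-c') = fun z => -lpoly N c' z := by
        ext z; simp [lpoly]
      rwa [this]
  · exfalso
    refine not_sq_odd hr0 hr1 hf (hqc l) (hq0 l) fun z hz => ?_
    have hz0 := ne_zero_of_mem_ann hr0.le hz
    rw [hre, mul_left_comm, hQ3 z hz, two_mul, pow_succ, pow_add, zpow_neg, zpow_natCast]
    field_simp

/-- Coefficients of `p (r / z)`. -/
noncomputable def flip (r : ℝ) {N : ℕ} (c : Fin (2 * N + 1) → ℂ) : Fin (2 * N + 1) → ℂ :=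
  fun j => c j.rev * (r : ℂ) ^ (-((j : ℤ) - N))

lemma lpoly_flip (r : ℝ) {N : ℕ} (c : Fin (2 * N + 1) → ℂ) (z : ℂ) :
    lpoly N (flip r c) z = lpoly N c (r / z) := by
  rw [lpoly, lpoly, ← Equiv.sum_comp Fin.revPerm]
  refine Finset.sum_congr rfl fun j _ => ?_
  simp only [flip, Fin.revPerm_apply, Fin.rev_rev, rev_sub, neg_neg, div_zpow, zpow_neg]
  ring

lemma flip_ne_zero {r : ℝ} (hr0 : 0 < r) {N : ℕ} {c : Fin (2 * N + 1) → ℂ} (hc : c ≠ 0) :
    flip r c ≠ 0 := by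
  have hrc : (r : ℂ) ≠ 0 := by exact_mod_cast hr0.ne'
  obtain ⟨j, hj⟩ := Function.ne_iff.1 hc
  refine Function.ne_iff.2 ⟨j.rev, ?_⟩
  simp only [flip, Fin.rev_rev]
  exact mul_ne_zero hj (zpow_ne_zero _ hrc)

lemma Cert.inv {r : ℝ} (hr0 : 0 < r) {f p : ℂ → ℂ} (h : Cert r (fun z => f (r / z)) p) :
    Cert r f fun z => p (r / z) := by
  obtain ⟨γ₁, γ₂, h₁, h₂, hs, t₁, t₂⟩ := h
  refine ⟨γ₂, γ₁, h₂, h₁, fun z hz => ?_, by simpa only [div_div_self hr0] using t₂, t₁⟩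
  change _ = p (r / z)
  rw [← hs _ (inv_mem_ann hr0 hz), div_div_self hr0, add_comm]

lemma TypeIII.cert {r : ℝ} (hr0 : 0 < r) (hr1 : r < 1) {N : ℕ} {f : ℂ → ℂ} (hf : Bd r f)
    (h : TypeIII r N f) : ∃ c ≠ 0, Cert r f (lpoly N c) := by
  obtain ⟨c, hc, h⟩ := h
  have h2 : TypeII r N fun z => f (r / z) := ⟨flip r c, flip_ne_zero hr0 hc, fun z hz => by
    rw [lpoly_flip, lpoly_flip, h _ (inv_mem_ann hr0 hz)]
    congr 2
    have hrc : (r : ℂ) ≠ 0 := by exact_mod_cast hr0.ne'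
    rw [map_div₀, Complex.conj_ofReal]
    field_simp⟩
  obtain ⟨c', hc', h3⟩ := h2.cert hr0 hr1 (hf.inv hr0)
  refine ⟨flip r c', flip_ne_zero hr0 hc', ?_⟩
  have : lpoly N (flip r c') = fun z => lpoly N c' (r / z) := funext (lpoly_flip r c')
  rw [this]
  exact h3.inv hr0

lemma divide {r : ℝ} (hr0 : 0 < r) (hr1 : r < 1) {F W : ℂ → ℂ}
    (hF : AnalyticOnNhd ℂ F (cann r 1)) (hW : AnalyticOnNhd ℂ W (cann r 1))
    (h : ∀ z₀ ∈ cann r 1, ∃ (n : ℕ) (R W₁ : ℂ → ℂ), AnalyticAt ℂ R z₀ ∧ AnalyticAt ℂ W₁ z₀ ∧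
      R z₀ ≠ 0 ∧ (∀ᶠ z in 𝓝 z₀, F z = (z - z₀) ^ n * R z) ∧
      ∀ᶠ z in 𝓝 z₀, W z = (z - z₀) ^ n * W₁ z) :
    ∃ β : ℂ → ℂ, AnalyticOnNhd ℂ β (cann r 1) ∧ ∀ z ∈ cann r 1, F z * β z = W z := by
  have _ := hr0
  have _ := hr1
  have hm : MeromorphicOn (fun z => W z / F z) (cann r 1) := hW.meromorphicOn.div hF.meromorphicOn
  set β := toMeromorphicNFOn (fun z => W z / F z) (cann r 1)
  have key : ∀ z₀ ∈ cann r 1, AnalyticAt ℂ β z₀ ∧ F z₀ * β z₀ = W z₀ := by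
    intro z₀ hz₀
    obtain ⟨n, R, W₁, hR, hW₁, hR0, e1, e2⟩ := h z₀ hz₀
    have e3 : ∀ᶠ z in 𝓝[≠] z₀, β z = W₁ z / R z ∧ F z * β z = W z := by
      filter_upwards [hm.toMeromorphicNFOn_eq_self_on_nhdsNE hz₀, nhdsWithin_le_nhds e1,
        nhdsWithin_le_nhds e2, nhdsWithin_le_nhds (hR.continuousAt.eventually_ne hR0),
        self_mem_nhdsWithin] with z h1 h2 h3 h4 h5
      have h6 : (z - z₀) ^ n ≠ 0 := pow_ne_zero _ (sub_ne_zero.2 h5)
      change β z = W z / F z at h1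
      change F z = _ at h2
      change W z = _ at h3
      change R z ≠ 0 at h4
      rw [h1, h2, h3]
      constructor <;> field_simp
    have hnf : MeromorphicNFAt β z₀ := meromorphicNFOn_toMeromorphicNFOn _ _ hz₀
    have ha : AnalyticAt ℂ β z₀ := by
      rw [← hnf.meromorphicOrderAt_nonneg_iff_analyticAt,
        meromorphicOrderAt_congr (f₂ := fun z => W₁ z / R z) (e3.mono fun z hz => hz.1)]
      exact (hW₁.div hR hR0).meromorphicOrderAt_nonneg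
    exact ⟨ha, tendsto_nhds_unique_of_eventuallyEq (l := 𝓝[≠] z₀)
      (((hF z₀ hz₀).mul ha).continuousAt.tendsto.mono_left nhdsWithin_le_nhds)
      ((hW z₀ hz₀).continuousAt.tendsto.mono_left nhdsWithin_le_nhds)
      (e3.mono fun z hz => hz.2)⟩
  exact ⟨β, fun z hz => (key z hz).1, fun z hz => (key z hz).2⟩

lemma Nonneg.eq_norm {w : ℂ} (h : Nonneg w) : w = ‖w‖ := by
  have : w = (w.re : ℂ) := Complex.ext (by simp) (by simp [h.1])
  rw [this, Complex.norm_real, Real.norm_of_nonneg h.2]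

lemma nonneg_of_eq {w : ℂ} {s : ℝ} (hs : 0 ≤ s) (h : w = s) : Nonneg w := by
  rw [h]; exact ⟨by simp, by simpa using hs⟩

lemma analyticOnNhd_lpoly {r : ℝ} (hr0 : 0 < r) (N : ℕ) (c : Fin (2 * N + 1) → ℂ) :
    AnalyticOnNhd ℂ (lpoly N c) (cann r 1) := fun z hz =>
  (differentiableOn_lpoly N c).analyticOnNhd isOpen_compl_singleton z
    (norm_pos_iff.1 (hr0.trans_le hz.1))

lemma coeff_congr {r : ℝ} (hr0 : 0 < r) (hr1 : r < 1) {F G : ℂ → ℂ}
    (h : ∀ z ∈ ann r 1, F z = G z) (k : ℤ) : coeff r F k = lc G (√r) k := by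
  rw [coeff_eq_lc hr0]
  exact lc_congr (Real.sqrt_pos.2 hr0) (fun z hz => h z (mem_ann_of_norm (sqrt_mem hr0 hr1) hz)) k

lemma inn_analytic {r : ℝ} (hr0 : 0 < r) (hr1 : r < 1) {G G₀ : ℂ → ℂ}
    (hG : AnalyticOnNhd ℂ G (cann r 1)) (h : ∀ z ∈ ann r 1, G₀ z = G z) (t : ℝ) :
    AnalyticOnNhd ℂ (inn r G₀ t) (cann r 1) := by
  obtain ⟨a, b, ha0, ha, hb, hd⟩ := exists_larger hr0 hr1 hG
  have hσ := sqrt_mem hr0 hr1
  have hσ' : √r ∈ Ioo a b := ⟨ha.trans hσ.1, hσ.2.trans hb⟩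
  obtain ⟨b₁, hb1, hb2⟩ := exists_between (lt_min hb (one_lt_inv' hr0 hr1))
  have hb0 : 0 < b₁ := one_pos.trans hb1
  have hb3 : b₁ * r ≤ 1 := by
    have := (hb2.trans_le (min_le_right _ _)).le
    rwa [le_inv_comm₀ hb0 hr0, ← one_div, le_div_iff₀ hb0, mul_comm] at this
  set C := max (circleAverage (fun z => ‖G z‖) 0 r) (circleAverage (fun z => ‖G z‖) 0 b₁)
  have hC0 : 0 ≤ C :=
    (Real.circleAverage_nonneg_of_nonneg fun _ _ => norm_nonneg _).trans (le_max_left _ _)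
  have g1 : ∀ n : ℕ, ‖lc G (√r) n‖ * b₁ ^ n ≤ C := fun n => by
    rw [lc_eq_ann ha0.le hd hσ' ⟨ha.trans (hr1.trans hb1), hb2.trans_le (min_le_left _ _)⟩,
      ← zpow_natCast]
    exact (norm_lc_le hb0 _).trans (le_max_right _ _)
  have g2 : ∀ n : ℕ, ‖lc G (√r) (-n)‖ ≤ C * r ^ n := fun n => by
    rw [lc_eq_ann ha0.le hd hσ' ⟨ha, hr1.trans hb⟩]
    have := (norm_lc_le (F := G) hr0 (-n)).trans (le_max_left _ (circleAverage (fun z => ‖G z‖) 0 b₁))
    rwa [zpow_neg, zpow_natCast, mul_inv_le_iff₀ (pow_pos hr0 n)] at this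
  have g3 : ∀ n : ℕ, (‖lc G (√r) n‖ + ‖lc G (√r) (-n)‖) * b₁ ^ n ≤ 2 * C := fun n => by
    have h1 := g1 n
    have h2 := mul_le_mul_of_nonneg_right (g2 n) (pow_pos hb0 n).le
    have h3 : r ^ n * b₁ ^ n ≤ 1 := by
      rw [← mul_pow, mul_comm]; exact pow_le_one₀ (by positivity) hb3
    nlinarith
  have g4 : ∀ n : ℕ, ‖lc G (√r) n‖ + ‖lc G (√r) (-n)‖ ≤ 2 * C := fun n =>
    (le_mul_of_one_le_right (by positivity) (one_le_pow₀ hb1.le)).trans (g3 n)
  have hq0 := sq_pos' hr0 hr1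
  have hq1 := sq_lt_one' hr0 hr1
  have hden : ∀ n : ℕ, n ≠ 0 → 1 - r ^ 2 ≤ 1 - (r ^ 2) ^ n := fun n hn => by
    have := pow_le_of_le_one hq0.le hq1.le hn
    linarith
  set w : ℤ → ℂ := fun k => if k = 0 then (t : ℂ) else
    (coeff r G₀ k - conj (coeff r G₀ (-k))) / (1 - (r : ℂ) ^ (2 * k)) with hw
  have hnum : ∀ k : ℤ, ‖coeff r G₀ k - conj (coeff r G₀ (-k))‖ ≤
      ‖lc G (√r) k‖ + ‖lc G (√r) (-k)‖ := fun k => by
    rw [coeff_congr hr0 hr1 h, coeff_congr hr0 hr1 h]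
    exact (norm_sub_le _ _).trans (by rw [Complex.norm_conj])
  set C' := 2 * C / (1 - r ^ 2) + |t|
  have hC1 : 0 ≤ 2 * C / (1 - r ^ 2) := div_nonneg (by positivity) (by linarith)
  have hs : ∀ ρ ∈ Ioo (r ^ 2) b₁, Summable fun k : ℤ => ‖w k‖ * ρ ^ k := fun ρ hρ => by
    refine summable_of_bounds (C := C') hq0 hρ.1 hρ.2 (fun n => ?_) (fun n => ?_)
    · rcases eq_or_ne n 0 with rfl | hn
      · simp [hw, C', hC1]
      · have e : (1 - (r : ℂ) ^ (2 * (n : ℤ))) = ((1 - (r ^ 2) ^ n : ℝ) : ℂ) := by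
          push_cast; rw [← pow_mul, ← zpow_natCast]; push_cast; rfl
        have h1 := hden n hn
        simp only [hw, Int.natCast_eq_zero, hn, if_false]
        rw [e, norm_div, Complex.norm_real, Real.norm_of_nonneg (by linarith), div_mul_eq_mul_div]
        refine le_trans ?_ (le_add_of_nonneg_right (abs_nonneg t))
        refine div_le_div₀ (by positivity) ?_ (by linarith) h1
        exact (mul_le_mul_of_nonneg_right (hnum n) (by positivity)).trans (g3 n)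
    · rcases eq_or_ne n 0 with rfl | hn
      · simp [hw, C', hC1]
      · have hq : 0 < (r ^ 2) ^ n := pow_pos hq0 n
        have e : (1 - (r : ℂ) ^ (2 * (-(n : ℤ)))) =
            ((-((1 - (r ^ 2) ^ n) / (r ^ 2) ^ n) : ℝ) : ℂ) := by
          have hrc : (r : ℂ) ≠ 0 := by exact_mod_cast hr0.ne'
          have : (r : ℂ) ^ (2 * (-(n : ℤ))) = (((r : ℂ) ^ 2) ^ n)⁻¹ := by
            rw [← pow_mul, ← zpow_natCast, ← zpow_neg]; congr 1; push_cast; ring
          rw [this]; push_cast; field_simp; ring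
        have h1 := hden n hn
        simp only [hw, neg_eq_zero, Int.natCast_eq_zero, hn, if_false]
        rw [e, norm_div, Complex.norm_real, norm_neg,
          Real.norm_of_nonneg (div_nonneg (by linarith) hq.le), div_div_eq_mul_div,
          mul_div_right_comm]
        refine mul_le_mul_of_nonneg_right ?_ hq.le
        refine le_trans ?_ (le_add_of_nonneg_right (abs_nonneg t))
        refine div_le_div₀ (by positivity) ?_ (by linarith) h1
        have h2 := hnum (-n)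
        rw [neg_neg] at h2 ⊢
        linarith [g4 n]
  have hd2 := differentiableOn_ser hq0.le hs
  exact fun z hz => hd2.analyticOnNhd (isOpen_ann _ _) z
    (cann_subset_ann (by nlinarith) hb1 hz)

lemma bla_facts {r : ℝ} (hr0 : 0 < r) (hr1 : r < 1) {κ : ℂ} {m : ℤ} {a : Multiset ℂ}
    (h : BlaData r κ m a) : ∃ H : ℂ → ℂ, AnalyticOnNhd ℂ H (cann r 1) ∧
      (∀ z ∈ cann r 1, H z ≠ 0) ∧ (∀ z, bla r κ m a z = (a.map fun w => z - w).prod * H z) ∧
      AnalyticOnNhd ℂ (bla r κ m a) (cann r 1) ∧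
      (∀ z : ℂ, ‖z‖ = 1 → ‖bla r κ m a z‖ = 1) ∧ ∀ z : ℂ, ‖z‖ = r → ‖bla r κ m a z‖ = 1 := by
  obtain ⟨ha, hp, hκ⟩ := h
  obtain ⟨H, h1, h2, h3, h4, h5⟩ := prod_fac hr0 hr1 a ha
  have hm : r ^ m ≠ 0 := zpow_ne_zero _ hr0.ne'
  have hκ0 : κ ≠ 0 := norm_ne_zero_iff.1 (by rw [hκ]; exact hm)
  have hz0 : ∀ z ∈ cann r 1, z ≠ 0 := fun z hz => norm_pos_iff.1 (hr0.trans_le hz.1)
  have e : ∀ z, bla r κ m a z = (a.map fun w => z - w).prod * (κ * z ^ (-m) * H z) := fun z => by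
    rw [bla, h3]; ring
  have hH : AnalyticOnNhd ℂ (fun z => κ * z ^ (-m) * H z) (cann r 1) := fun z hz =>
    (analyticAt_const.mul (analyticAt_id.zpow (hz0 z hz))).mul (h1 z hz)
  refine ⟨fun z => κ * z ^ (-m) * H z, hH, fun z hz =>
    mul_ne_zero (mul_ne_zero hκ0 (zpow_ne_zero _ (hz0 z hz))) (h2 z hz), e, fun z hz => ?_,
    fun z hz => ?_, fun z hz => ?_⟩
  · rw [funext e]
    exact (analyticAt_zeros a z).mul (hH z hz)
  · rw [bla, h3, norm_mul, h4 z hz, norm_mul, norm_zpow, hz, one_zpow, hκ, hp]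
    field_simp
  · rw [bla, h3, norm_mul, h5 z hz, norm_mul, norm_zpow, hz, hκ, zpow_neg]
    field_simp

lemma TypeI.kind1 {r : ℝ} (hr0 : 0 < r) (hr1 : r < 1) {N : ℕ} {f : ℂ → ℂ} (h : TypeI r N f) :
    ∃ c ≠ 0, Kind1 r f (lpoly N c) := by
  obtain ⟨κ, m, a, hdat, hf, c, hc, t, h1, h2, h3⟩ := h
  obtain ⟨H, a1, a2, a3, a4, a5, a6⟩ := bla_facts hr0 hr1 hdat
  have hW := inn_analytic hr0 hr1 (G := fun z => bla r κ m a z * lpoly N c z)
    (G₀ := fun z => f z * lpoly N c z) (a4.mul (analyticOnNhd_lpoly hr0 N c))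
    (fun z hz => by rw [hf z hz]) t
  set W := inn r (fun z => f z * lpoly N c z) t
  obtain ⟨β, b1, b2⟩ := divide hr0 hr1 a4 hW fun z₀ hz₀ => by
    obtain ⟨R, r1, r2, r3⟩ := zeros_split a z₀
    obtain ⟨W₁, w1, w2⟩ := (natCast_le_analyticOrderAt (hW z₀ hz₀)).1
      ((natCast_le_analyticOrderAt_iff_iteratedDeriv_eq_zero (n := a.count z₀) (hW z₀ hz₀)).2
        fun i hi => h3 z₀ (Multiset.count_pos.1 (by omega)) i hi)
    exact ⟨a.count z₀, fun z => R z * H z, W₁, r1.mul (a1 z₀ hz₀), w1,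
      mul_ne_zero r2 (a2 z₀ hz₀), .of_forall fun z => by rw [a3, r3]; ring, w2⟩
  refine ⟨c, hc, bla r κ m a, β, a4, b1, fun z hz => (hf z hz).symm, fun z hz => ⟨a5 z hz, ?_⟩,
    fun z hz => ⟨a6 z hz, ?_⟩⟩
  · have e := (h2 z hz).eq_norm
    rw [← b2 z ⟨by rw [hz]; exact hr1.le, hz.le⟩, ← mul_sub] at e
    rw [e, norm_mul, a5 z hz, one_mul]
  · have e := (h1 z hz).eq_norm
    rw [← b2 z ⟨hz.ge, by rw [hz]; exact hr1.le⟩] at e
    rw [e, norm_mul, a6 z hz, one_mul]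

/-- Every function analytic on the closed annulus and unimodular on its boundary is a theta
product. -/
lemma inner_eq_bla {r : ℝ} (hr0 : 0 < r) (hr1 : r < 1) {F : ℂ → ℂ}
    (hF : AnalyticOnNhd ℂ F (cann r 1)) (h1 : ∀ z : ℂ, ‖z‖ = 1 → ‖F z‖ = 1)
    (h2 : ∀ z : ℂ, ‖z‖ = r → ‖F z‖ = 1) :
    ∃ κ m a, BlaData r κ m a ∧ ∀ z ∈ cann r 1, F z = bla r κ m a z := by
  obtain ⟨a, G, g1, g2, g3, g4⟩ := exists_zeros hr0 hr1 hF
    (norm_ne_zero_iff.1 (by rw [h1 1 norm_one]; exact one_ne_zero))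
  have ha : ∀ w ∈ a, w ∈ ann r 1 := fun w hw => by
    have h0 : F w = 0 := by
      rw [g4 w (g1 w hw), Multiset.prod_eq_zero (Multiset.mem_map.2 ⟨w, hw, sub_self w⟩), zero_mul]
    refine ⟨lt_of_le_of_ne (g1 w hw).1 fun h => ?_, lt_of_le_of_ne (g1 w hw).2 fun h => ?_⟩
    · have := h2 w h.symm
      rw [h0, norm_zero] at this; exact zero_ne_one this
    · have := h1 w h
      rw [h0, norm_zero] at this; exact zero_ne_one this
  obtain ⟨H, p1, p2, p3, p4, p5⟩ := prod_fac hr0 hr1 a ha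
  have e : ∀ z ∈ cann r 1, F z = (a.map fun w => z - w).prod * H z * (G z / H z) := fun z hz => by
    rw [g4 z hz]; have := p2 z hz; field_simp
  have hP : 0 < (a.map fun w => ‖w‖).prod := Multiset.prod_pos fun x hx => by
    obtain ⟨w, hw, rfl⟩ := Multiset.mem_map.1 hx
    exact hr0.trans (ha w hw).1
  have n1 : ∀ z : ℂ, ‖z‖ = 1 → ‖G z / H z‖ = (a.map fun w => ‖w‖).prod := fun z hz => by
    have := h1 z hz
    rw [e z ⟨by rw [hz]; exact hr1.le, hz.le⟩, norm_mul, p4 z hz, inv_mul_eq_one₀ hP.ne'] at this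
    exact this.symm
  have n2 : ∀ z : ℂ, ‖z‖ = r → ‖G z / H z‖ = 1 := fun z hz => by
    have := h2 z hz
    rwa [e z ⟨hz.ge, by rw [hz]; exact hr1.le⟩, norm_mul, p5 z hz, one_mul] at this
  obtain ⟨κ, k, hk⟩ := monomial_of_const_norm hr0 hr1 (G := fun z => G z / H z)
    (fun z hz => (g2 z hz).div (p1 z hz) (p2 z hz))
    (fun z hz => div_ne_zero (g3 z hz) (p2 z hz)) n1 n2
  have k1 : ‖κ‖ = (a.map fun w => ‖w‖).prod := by
    rw [← n1 1 norm_one, hk 1 ⟨by simpa using hr1.le, by simp⟩]; simp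
  have hrn : ‖(r : ℂ)‖ = r := by rw [Complex.norm_real, Real.norm_of_nonneg hr0.le]
  have k2 : ‖κ‖ = r ^ (-k) := by
    have := n2 r hrn
    rw [hk r ⟨hrn.ge, by rw [hrn]; exact hr1.le⟩, norm_mul, norm_zpow, hrn] at this
    rw [zpow_neg]
    exact eq_inv_of_mul_eq_one_left this
  refine ⟨κ, -k, a, ⟨ha, k1.symm.trans k2, k2⟩, fun z hz => ?_⟩
  rw [e z hz, hk z hz, bla, p3, neg_neg]
  ring

lemma Kind1.typeI {r : ℝ} (hr0 : 0 < r) (hr1 : r < 1) {N : ℕ} {f : ℂ → ℂ}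
    {c : Fin (2 * N + 1) → ℂ} (hc : c ≠ 0) (h : Kind1 r f (lpoly N c)) : TypeI r N f := by
  obtain ⟨F, β, hF, hβ, e, h1, h2⟩ := h
  obtain ⟨κ, m, a, hdat, hFb⟩ := inner_eq_bla hr0 hr1 hF (fun z hz => (h1 z hz).1)
    fun z hz => (h2 z hz).1
  obtain ⟨H, a1, -, a3, -⟩ := bla_facts hr0 hr1 hdat
  have hσ := sqrt_mem hr0 hr1
  obtain ⟨a₁, b₁, x0, x1, x2, x3⟩ := exists_larger hr0 hr1 hF
  obtain ⟨a₂, b₂, y0, y1, y2, y3⟩ := exists_larger hr0 hr1 hβ
  have z0 : 0 < max a₁ a₂ := x0.trans_le (le_max_left _ _)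
  have z1 : max a₁ a₂ < r := max_lt x1 y1
  have z2 : 1 < min b₁ b₂ := lt_min x2 y2
  have dF := x3.mono (ann_mono (le_max_left a₁ a₂) (min_le_left b₁ b₂))
  have dβ := y3.mono (ann_mono (le_max_right a₁ a₂) (min_le_right b₁ b₂))
  have dp := differentiableOn_lpoly_ann N c (b := min b₁ b₂) z0.le
  have dW : DifferentiableOn ℂ (fun z => F z * β z) (ann (max a₁ a₂) (min b₁ b₂)) := dF.mul dβ
  have dU : DifferentiableOn ℂ (fun z => F z * (lpoly N c z - β z))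
    (ann (max a₁ a₂) (min b₁ b₂)) := dF.mul (dp.sub dβ)
  have mσ : √r ∈ Ioo (max a₁ a₂) (min b₁ b₂) := ⟨z1.trans hσ.1, hσ.2.trans z2⟩
  have m1 : (1 : ℝ) ∈ Ioo (max a₁ a₂) (min b₁ b₂) := ⟨z1.trans hr1, z2⟩
  have mr : r ∈ Ioo (max a₁ a₂) (min b₁ b₂) := ⟨z1, hr1.trans z2⟩
  set Wc := lc (fun z => F z * β z) (√r)
  set Uc := lc (fun z => F z * (lpoly N c z - β z)) (√r)
  have cU : ∀ k, Uc k = conj (Uc (-k)) := fun k => by
    have := lc_reflect_sphere (F := fun z => F z * (lpoly N c z - β z)) one_pos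
      (contOn_sphere dU m1) (fun z hz => by
      rw [(h1 z hz).2, Complex.conj_ofReal]) k
    simpa only [Uc, lc_eq_ann z0.le dU mσ m1, Complex.ofReal_one, one_zpow, mul_one] using this
  have cW : ∀ k, Wc k * (r : ℂ) ^ (2 * k) = conj (Wc (-k)) := fun k => by
    have := lc_reflect_sphere (F := fun z => F z * β z) hr0 (contOn_sphere dW mr) (fun z hz => by
      rw [(h2 z hz).2, Complex.conj_ofReal]) k
    simpa only [Wc, lc_eq_ann z0.le dW mσ mr] using this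
  have cG : ∀ k, coeff r (fun z => f z * lpoly N c z) k = Uc k + Wc k := fun k => by
    rw [coeff_congr hr0 hr1 (G := fun z => F z * (lpoly N c z - β z) + F z * β z)
      (fun z hz => by rw [e z hz]; ring),
      lc_add (Real.sqrt_pos.2 hr0) (contOn_sphere dU mσ) (contOn_sphere dW mσ)]
  have hW : ∀ z ∈ ann (max a₁ a₂) (min b₁ b₂),
      inn r (fun z => f z * lpoly N c z) (Wc 0).re z = F z * β z := fun z hz => by
    refine (hasSum_cast (hasSum_lc z0.le dW mσ hz) (fun k => ?_) rfl).tsum_eq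
    congr 1
    split_ifs with hk
    · subst hk
      have := cW 0
      simp only [mul_zero, zpow_zero, mul_one, neg_zero] at this
      exact (Complex.conj_eq_iff_re.1 this.symm).symm
    · have hne : (1 : ℂ) - (r : ℂ) ^ (2 * k) ≠ 0 := by
        intro h0
        have h3 : (r : ℝ) ^ (2 * k) = r ^ (0 : ℤ) := by
          rw [zpow_zero]; exact_mod_cast (sub_eq_zero.1 h0).symm
        have := zpow_right_injective₀ hr0 hr1.ne h3
        omega
      rw [eq_div_iff hne, cG, cG, map_add, ← cU, ← cW]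
      ring
  have hcs : cann r 1 ⊆ ann (max a₁ a₂) (min b₁ b₂) := cann_subset_ann z1 z2
  refine ⟨κ, m, a, hdat, fun z hz => by rw [← e z hz, hFb z (ann_subset_cann _ _ hz)], c, hc,
    (Wc 0).re, fun z hz => ?_, fun z hz => ?_, fun w hw i hi => ?_⟩
  · rw [hW z (mem_ann_of_norm mr hz)]
    exact nonneg_of_eq (norm_nonneg _) (h2 z hz).2
  · rw [hW z (mem_ann_of_norm m1 hz), ← hFb z ⟨by rw [hz]; exact hr1.le, hz.le⟩, ← mul_sub]
    exact nonneg_of_eq (norm_nonneg _) (h1 z hz).2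
  · have hwA := hdat.1 w hw
    have hwc := ann_subset_cann _ _ hwA
    obtain ⟨R, r1, -, r3⟩ := zeros_split a w
    have ev : inn r (fun z => f z * lpoly N c z) (Wc 0).re =ᶠ[𝓝 w] fun z => F z * β z := by
      filter_upwards [(isOpen_ann _ _).mem_nhds (hcs hwc)] with z hz using hW z hz
    rw [ev.iteratedDeriv_eq]
    have han : AnalyticAt ℂ (fun z => F z * β z) w := (hF w hwc).mul (hβ w hwc)
    refine (natCast_le_analyticOrderAt_iff_iteratedDeriv_eq_zero (n := a.count w) han).1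
      ((natCast_le_analyticOrderAt han).2 ⟨fun z => R z * H z * β z,
        (r1.mul (a1 w hwc)).mul (hβ w hwc), ?_⟩) i hi
    filter_upwards [(isOpen_ann _ _).mem_nhds hwA] with z hz
    rw [hFb z (ann_subset_cann _ _ hz), a3, r3, smul_eq_mul]
    ring

theorem extremal_iff {r : ℝ} (hr0 : 0 < r) (hr1 : r < 1) {N : ℕ} {f : ℂ → ℂ} (hf : Bd r f) :
    coeffVec r N f ∈ frontier (body r N) ↔ TypeI r N f ∨ TypeII r N f ∨ TypeIII r N f := by
  rw [frontier_iff_cert hr0 hr1 hf]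
  constructor
  · rintro ⟨c, hc, h⟩
    rcases cert_cases hr0 hr1 hf (differentiableOn_lpoly N c) h with h | h | h
    · exact Or.inl (h.typeI hr0 hr1 hc)
    · exact Or.inr (Or.inl ⟨c, hc, h⟩)
    · exact Or.inr (Or.inr ⟨c, hc, h⟩)
  · rintro (h | h | h)
    · obtain ⟨c, hc, h⟩ := h.kind1 hr0 hr1
      exact ⟨c, hc, h.cert hr0 hr1 (differentiableOn_lpoly N c)⟩
    · exact h.cert hr0 hr1 hf
    · exact h.cert hr0 hr1 hf

end Pool.Agent.MP_faa29e_an

end MrgPart3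

-- marker of a merged file
example : 731051 + 773550 = 731051 + 773550 := rfl
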