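import Mathlib.Topology.Sheaves.Presheaf
import Mathlib.Tactic.Monotonicity.Lemmas
import Mathlib.Algebra.Order.Ring.Star
import Mathlib.Analysis.PSeries
import Mathlib.Algebra.Order.Star.Real
import Mathlib.Analysis.Analytic.Polynomial
import Mathlib.Analysis.CStarAlgebra.Classes
import Mathlib.Analysis.Complex.LocallyUniformLimit
import Mathlib.Tactic.Polynomial.Basic

/-!
A transcendental plane curve given by elliptic-integral series.
-/

open Set Filter Topology

namespace Pool.Agent.MP_faa29e_an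

/-- Normalised central binomial coefficients. -/
noncomputable def cb : ℕ → ℝ
  | 0 => 1
  | n + 1 => cb n * (2 * n + 1) / (2 * n + 2)

lemma cb_pos (n : ℕ) : 0 < cb n := by
  induction n with
  | zero => simp [cb]
  | succ n ih => rw [cb]; positivity

lemma cb_sq_le (n : ℕ) : cb n ^ 2 ≤ 1 / (2 * n + 1) := by
  induction n with
  | zero => simp [cb]
  | succ n ih =>
    rw [cb, div_pow, mul_pow, div_le_div_iff₀ (by positivity) (by positivity)]
    rw [le_div_iff₀ (by positivity)] at ih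
    push_cast
    have h : (0 : ℝ) ≤ n := Nat.cast_nonneg n
    nlinarith [mul_le_mul_of_nonneg_right ih (show (0 : ℝ) ≤ (2 * n + 1) * (2 * n + 3) by positivity)]

lemma le_cb_sq (n : ℕ) : 1 / (4 * n + 1) ≤ cb n ^ 2 := by
  induction n with
  | zero => simp [cb]
  | succ n ih =>
    rw [cb, div_pow, mul_pow, div_le_div_iff₀ (by positivity) (by positivity)]
    rw [div_le_iff₀ (by positivity)] at ih
    push_cast
    have h : (0 : ℝ) ≤ n := Nat.cast_nonneg n
    have h2 : 0 ≤ cb n ^ 2 := sq_nonneg _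
    nlinarith [mul_le_mul_of_nonneg_right ih (show (0 : ℝ) ≤ (2 * n + 2) ^ 2 by positivity)]

lemma cb_le_one (n : ℕ) : cb n ≤ 1 := by
  have h := cb_sq_le n
  have h2 : 1 / (2 * (n : ℝ) + 1) ≤ 1 := by
    rw [div_le_one (by positivity)]; linarith [Nat.cast_nonneg (α := ℝ) n]
  nlinarith [cb_pos n]

/-- Coefficients of the first coordinate. -/
noncomputable def al (n : ℕ) : ℝ := cb n ^ 2 / (2 * n + 2)

/-- Coefficients of the second coordinate. -/
noncomputable def be (n : ℕ) : ℝ := al n * (2 * n + 1) / (2 * n + 2)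

lemma al_pos (n : ℕ) : 0 < al n := by have := cb_pos n; unfold al; positivity

lemma be_pos (n : ℕ) : 0 < be n := by have := al_pos n; unfold be; positivity

lemma be_le (n : ℕ) : be n ≤ al n := by
  unfold be
  rw [div_le_iff₀ (by positivity)]
  nlinarith [al_pos n]

lemma al_le (n : ℕ) : al n ≤ 1 / (2 * n + 1) ^ 2 := by
  unfold al
  rw [div_le_div_iff₀ (by positivity) (by positivity)]
  have h := cb_sq_le n
  rw [le_div_iff₀ (by positivity)] at h
  nlinarith [mul_le_mul_of_nonneg_right h (show (0 : ℝ) ≤ 2 * n + 1 by positivity)]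

lemma summable_al_rpow {θ : ℝ} (h1 : θ < 1) :
    Summable fun n : ℕ => al n * (2 * n + 1 : ℝ) ^ θ := by
  have h := (summable_nat_add_iff 1).2 (Real.summable_nat_rpow.2 (show θ - 2 < -1 by linarith))
  refine Summable.of_nonneg_of_le (fun n => by have := al_pos n; positivity) (fun n => ?_) h
  have h0 : (0 : ℝ) < 2 * n + 1 := by positivity
  calc al n * (2 * n + 1 : ℝ) ^ θ ≤ 1 / (2 * n + 1) ^ 2 * (2 * n + 1 : ℝ) ^ θ :=
        mul_le_mul_of_nonneg_right (al_le n) (by positivity)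
    _ = (2 * n + 1 : ℝ) ^ (θ - 2) := by
        rw [Real.rpow_sub h0, Real.rpow_two]; ring
    _ ≤ ((n + 1 : ℕ) : ℝ) ^ (θ - 2) := by
        refine Real.rpow_le_rpow_of_nonpos (by positivity) ?_ (by linarith)
        push_cast; linarith [Nat.cast_nonneg (α := ℝ) n]

lemma summable_al : Summable al := by simpa using summable_al_rpow (θ := 0) one_pos

lemma summable_be : Summable be :=
  Summable.of_nonneg_of_le (fun n => (be_pos n).le) be_le summable_al

/-- First coordinate of the curve. -/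
noncomputable def xs (t : ℝ) : ℝ := ∑' n : ℕ, al n * t ^ (2 * n + 1)

/-- Second coordinate of the curve. -/
noncomputable def ys (t : ℝ) : ℝ := 1 - ∑' n : ℕ, be n * t ^ (2 * n + 2)

/-- First local coordinate at the end point. -/
noncomputable def uu (t : ℝ) : ℝ := xs 1 - xs t

/-- Second local coordinate at the end point. -/
noncomputable def ww (t : ℝ) : ℝ := ys 1 + uu t - ys t

lemma summable_mul_pow {a : ℕ → ℝ} (ha : Summable a) (h0 : ∀ n, 0 < a n) {t : ℝ} (ht : |t| ≤ 1)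
    (e : ℕ → ℕ) : Summable fun n => a n * t ^ e n :=
  Summable.of_norm_bounded ha fun n => by
    rw [norm_mul, norm_pow, Real.norm_of_nonneg (h0 n).le, Real.norm_eq_abs]
    exact mul_le_of_le_one_right (h0 n).le (pow_le_one₀ (abs_nonneg _) ht)

lemma hasSum_uu {t : ℝ} (ht : |t| ≤ 1) :
    HasSum (fun n : ℕ => al n * (1 - t ^ (2 * n + 1))) (uu t) := by
  have h1 := (summable_mul_pow summable_al al_pos (t := 1) (by simp) fun n => 2 * n + 1).hasSum
  have h2 := (summable_mul_pow summable_al al_pos ht fun n => 2 * n + 1).hasSum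
  have h3 := h1.sub h2
  simp only [one_pow, ← mul_sub] at h3
  simpa only [uu, xs, one_pow] using h3

lemma hasSum_ww {t : ℝ} (ht : |t| ≤ 1) :
    HasSum (fun n : ℕ => al n * (1 - t ^ (2 * n + 1)) - be n * (1 - t ^ (2 * n + 2))) (ww t) := by
  have h1 := (summable_mul_pow summable_be be_pos (t := 1) (by simp) fun n => 2 * n + 2).hasSum
  have h2 := (summable_mul_pow summable_be be_pos ht fun n => 2 * n + 2).hasSum
  have h3 := h1.sub h2
  simp only [one_pow, ← mul_sub] at h3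
  have h4 := (hasSum_uu ht).sub h3
  have e : ww t = uu t - (∑' n : ℕ, be n * 1 - ∑' n : ℕ, be n * t ^ (2 * n + 2)) := by
    simp only [ww, ys, one_pow]; ring
  rwa [e]

lemma poly_nonneg {t : ℝ} (h0 : 0 ≤ t) (m : ℕ) : 0 ≤ 1 - (m + 1) * t ^ m + m * t ^ (m + 1) := by
  induction m with
  | zero => simp
  | succ m ih =>
    have : 0 ≤ ((m : ℝ) + 1) * t ^ m * (1 - t) ^ 2 := by positivity
    push_cast
    have e1 : t ^ (m + 1) = t ^ m * t := pow_succ t m
    have e2 : t ^ (m + 1 + 1) = t ^ m * t * t := by rw [pow_succ, e1]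
    rw [e1] at ih
    rw [e2, e1]
    nlinarith

lemma term_eq (t : ℝ) (n : ℕ) : al n * (1 - t ^ (2 * n + 1)) - be n * (1 - t ^ (2 * n + 2)) =
    al n / (2 * n + 2) * (1 - ((2 * n + 1 : ℕ) + 1) * t ^ (2 * n + 1) +
      (2 * n + 1 : ℕ) * t ^ (2 * n + 1 + 1)) := by
  unfold be
  push_cast
  field_simp
  ring

lemma le_ww {t : ℝ} (h0 : 0 ≤ t) (h1 : t ≤ 1) : (1 - t) ^ 2 / 4 ≤ ww t := by
  have h := le_hasSum (hasSum_ww (t := t) (by rwa [abs_of_nonneg h0])) 0 fun n _ => by
    rw [term_eq]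
    exact mul_nonneg (by have := al_pos n; positivity) (poly_nonneg h0 _)
  refine le_trans (le_of_eq ?_) h
  simp [al, be, cb]
  ring

lemma ww_le {t : ℝ} (h0 : 0 ≤ t) (h1 : t ≤ 1) : ww t ≤ (1 - t) * uu t := by
  have ht : |t| ≤ 1 := by rwa [abs_of_nonneg h0]
  refine hasSum_le (fun n => ?_) (hasSum_ww ht) ((hasSum_uu ht).mul_left _)
  have hb := one_add_mul_le_pow (a := t - 1) (by linarith) (2 * n + 2)
  rw [add_sub_cancel] at hb
  have e : (1 - t) * (al n * (1 - t ^ (2 * n + 1))) - (al n * (1 - t ^ (2 * n + 1)) -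
      be n * (1 - t ^ (2 * n + 2))) =
      al n / (2 * n + 2) * (t ^ (2 * n + 2) - (1 + ((2 * n + 2 : ℕ) : ℝ) * (t - 1))) := by
    unfold be
    push_cast
    field_simp
    ring
  have : 0 ≤ al n / (2 * n + 2) * (t ^ (2 * n + 2) - (1 + ((2 * n + 2 : ℕ) : ℝ) * (t - 1))) :=
    mul_nonneg (by have := al_pos n; positivity) (sub_nonneg.2 hb)
  linarith

lemma uu_le {θ : ℝ} (hθ0 : 0 ≤ θ) (hθ : θ < 1) :
    ∃ C, ∀ t, 0 ≤ t → t ≤ 1 → uu t ≤ C * (1 - t) ^ θ := by
  refine ⟨_, fun t h0 h1 => hasSum_le (fun n => ?_) (hasSum_uu (by rwa [abs_of_nonneg h0]))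
    ((summable_al_rpow hθ).hasSum.mul_right _)⟩
  rw [mul_assoc, ← Real.mul_rpow (by positivity) (by linarith)]
  refine mul_le_mul_of_nonneg_left ?_ (al_pos n).le
  have hb := one_add_mul_le_pow (a := t - 1) (by linarith) (2 * n + 1)
  rw [add_sub_cancel] at hb
  push_cast at hb
  have hp : 0 ≤ t ^ (2 * n + 1) := by positivity
  rcases le_total ((2 * n + 1 : ℝ) * (1 - t)) 1 with h | h
  · refine le_trans (by linarith) (Real.self_le_rpow_of_le_one ?_ h hθ.le)
    exact mul_nonneg (by positivity) (by linarith)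
  · exact le_trans (by linarith) (Real.one_le_rpow h hθ0)

lemma one_sub_pow_ge {t : ℝ} (h0 : 0 ≤ t) (m : ℕ) :
    m * t ^ m * (1 - t) ≤ 1 - t ^ m := by
  have h := poly_nonneg h0 m
  rw [pow_succ] at h
  nlinarith

lemma uu_large (M : ℝ) : ∀ᶠ t in 𝓝[<] (1 : ℝ), M * (1 - t) ≤ uu t := by
  obtain ⟨K, hK⟩ := (Real.tendsto_sum_range_one_div_nat_succ_atTop.eventually
    (eventually_gt_atTop (8 * M))).exists
  have h1 : M < ∑ n ∈ Finset.range K, al n * (2 * n + 1 : ℕ) * (1 : ℝ) ^ (2 * n + 1) := by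
    have : ∑ n ∈ Finset.range K, (1 / (n + 1) : ℝ) ≤
        8 * ∑ n ∈ Finset.range K, al n * (2 * n + 1 : ℕ) * (1 : ℝ) ^ (2 * n + 1) := by
      rw [Finset.mul_sum]
      refine Finset.sum_le_sum fun n _ => ?_
      have h := le_cb_sq n
      rw [div_le_iff₀ (by positivity)] at h
      have hn : (0 : ℝ) ≤ n := Nat.cast_nonneg n
      rw [one_pow, mul_one, al, div_le_iff₀ (by positivity)]
      push_cast
      have e : 8 * (cb n ^ 2 / (2 * n + 2) * (2 * n + 1)) * (n + 1) = cb n ^ 2 * (8 * n + 4) := by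
        field_simp; ring
      rw [e]
      nlinarith [sq_nonneg (cb n)]
    linarith
  have hc : ContinuousAt
      (fun t : ℝ => ∑ n ∈ Finset.range K, al n * (2 * n + 1 : ℕ) * t ^ (2 * n + 1)) 1 := by
    fun_prop
  filter_upwards [nhdsWithin_le_nhds (hc.eventually (lt_mem_nhds h1)),
    Ioo_mem_nhdsLT (zero_lt_one' ℝ)] with t ht ht2
  have h2 := sum_le_hasSum (Finset.range K) (fun n _ => mul_nonneg (al_pos n).le
    (sub_nonneg.2 (pow_le_one₀ ht2.1.le ht2.2.le)))
    (hasSum_uu (t := t) (by rw [abs_of_pos ht2.1]; exact ht2.2.le))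
  refine le_trans ?_ h2
  refine (mul_le_mul_of_nonneg_right (le_of_lt ht) (by linarith [ht2.2])).trans ?_
  rw [Finset.sum_mul]
  refine Finset.sum_le_sum fun n _ => ?_
  rw [mul_assoc, mul_assoc, ← mul_assoc ((2 * n + 1 : ℕ) : ℝ)]
  exact mul_le_mul_of_nonneg_left (one_sub_pow_ge ht2.1.le _) (al_pos n).le

lemma ev_pos : ∀ᶠ t in 𝓝[<] (1 : ℝ), t ∈ Ioo (0 : ℝ) 1 ∧ 0 < uu t ∧ 0 < ww t := by
  filter_upwards [uu_large 1, Ioo_mem_nhdsLT (zero_lt_one' ℝ)] with t h1 h2
  have h3 := le_ww h2.1.le h2.2.le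
  have h4 : 0 < 1 - t := by linarith [h2.2]
  exact ⟨h2, by linarith, lt_of_lt_of_le (by positivity) h3⟩

lemma tendsto_rpow_half : Tendsto (fun t : ℝ => (1 - t) ^ (1 / 2 : ℝ)) (𝓝[<] 1) (𝓝 0) := by
  have : ContinuousAt (fun t : ℝ => (1 - t) ^ (1 / 2 : ℝ)) 1 :=
    (continuousAt_const.sub continuousAt_id).rpow_const (Or.inr (by norm_num))
  have h := this.tendsto.mono_left (nhdsWithin_le_nhds (s := Iio 1))
  simpa using h

lemma tendsto_uu : Tendsto uu (𝓝[<] 1) (𝓝 0) := by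
  obtain ⟨C, hC⟩ := uu_le (θ := 1 / 2) (by norm_num) (by norm_num)
  have h := tendsto_rpow_half.const_mul C
  rw [mul_zero] at h
  exact squeeze_zero' (ev_pos.mono fun t ht => ht.2.1.le)
    (ev_pos.mono fun t ht => hC t ht.1.1.le ht.1.2.le) h

lemma tendsto_om : Tendsto (fun t => ww t / uu t ^ 2) (𝓝[<] 1) (𝓝 0) := by
  rw [Metric.tendsto_nhds]
  intro ε hε
  filter_upwards [ev_pos, uu_large (2 / ε)] with t ⟨h1, h2, h3⟩ h4
  rw [Real.dist_eq, sub_zero, abs_of_pos (by positivity), div_lt_iff₀ (by positivity)]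
  have h5 := ww_le h1.1.le h1.2.le
  rw [div_mul_eq_mul_div, div_le_iff₀ hε] at h4
  have h6 : 0 < 1 - t := by linarith [h1.2]
  nlinarith [mul_pos h6 h2]

lemma tendsto_div_om (k : ℕ) :
    Tendsto (fun t => uu t / (ww t / uu t ^ 2) ^ k) (𝓝[<] 1) (𝓝 0) := by
  have hk : (0 : ℝ) < 2 * k + 1 := by positivity
  obtain ⟨C, hC⟩ := uu_le (θ := (2 * k + 1 / 2) / (2 * k + 1)) (by positivity)
    (by rw [div_lt_one hk]; linarith)
  have h := tendsto_rpow_half.const_mul (C ^ (2 * k + 1) * 4 ^ k)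
  rw [mul_zero] at h
  refine squeeze_zero' (ev_pos.mono fun t ⟨_, h2, h3⟩ => by positivity) ?_ h
  filter_upwards [ev_pos] with t ⟨h1, h2, h3⟩
  have h6 : 0 < 1 - t := by linarith [h1.2]
  have e : uu t / (ww t / uu t ^ 2) ^ k = uu t ^ (2 * k + 1) / ww t ^ k := by
    rw [div_pow, ← pow_mul, pow_succ]; field_simp
  have h4 : uu t ^ (2 * k + 1) ≤ C ^ (2 * k + 1) * ((1 - t) ^ (2 * k) * (1 - t) ^ (1 / 2 : ℝ)) := by
    refine (pow_le_pow_left₀ h2.le (hC t h1.1.le h1.2.le) _).trans (le_of_eq ?_)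
    rw [mul_pow, ← Real.rpow_natCast ((1 - t) ^ _), ← Real.rpow_mul h6.le,
      ← Real.rpow_natCast (1 - t), ← Real.rpow_add h6]
    congr 2
    push_cast
    field_simp
  have h5 : ((1 - t) ^ 2 / 4) ^ k ≤ ww t ^ k :=
    pow_le_pow_left₀ (by positivity) (le_ww h1.1.le h1.2.le) k
  have h7 : 0 ≤ C ^ (2 * k + 1) * ((1 - t) ^ (2 * k) * (1 - t) ^ (1 / 2 : ℝ)) :=
    (pow_pos h2 _).le.trans h4
  rw [e]
  refine (div_le_div₀ h7 h4 (by positivity) h5).trans (le_of_eq ?_)
  rw [div_pow, ← pow_mul]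
  field_simp

open MvPolynomial in
/-- No nonzero polynomial vanishes along the curve near its end point. -/
lemma eq_zero_of_ev (Q : MvPolynomial (Fin 2) ℝ)
    (h : ∀ᶠ t in 𝓝[<] (1 : ℝ), eval ![uu t, ww t] Q = 0) : Q = 0 := by
  by_contra hQ
  obtain ⟨d₀, hd₀, hmin⟩ := Finset.exists_min_image Q.support
    (fun d => toLex (d 0 + 2 * d 1, d 1)) (support_nonempty.2 hQ)
  have key : ∀ d ∈ Q.support, Tendsto (fun t => coeff d Q * (uu t ^ d 0 * ww t ^ d 1) /
      (uu t ^ d₀ 0 * ww t ^ d₀ 1)) (𝓝[<] 1) (𝓝 (if d = d₀ then coeff d₀ Q else 0)) := by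
    intro d hd
    split_ifs with hdd
    · subst hdd
      refine tendsto_const_nhds.congr' ?_
      filter_upwards [ev_pos] with t ⟨_, h2, h3⟩
      field_simp
    · have hw : ∀ (t : ℝ) (j : ℕ), 0 < uu t → ww t ^ j = (ww t / uu t ^ 2) ^ j * uu t ^ (2 * j) :=
        fun t j h2 => by rw [div_pow, ← pow_mul]; field_simp
      rcases Prod.Lex.toLex_le_toLex.1 (hmin d hd) with h1 | ⟨h1, h2⟩
      · obtain ⟨e, he⟩ := Nat.exists_eq_add_of_lt h1
        simp only at he
        have h3 := (((tendsto_div_om (d₀ 1)).mul (tendsto_uu.pow e)).mul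
          (tendsto_om.pow (d 1))).const_mul (coeff d Q)
        simp only [zero_mul, mul_zero] at h3
        refine h3.congr' ?_
        filter_upwards [ev_pos] with t ⟨_, h2, h3⟩
        rw [hw t (d 1) h2, hw t (d₀ 1) h2]
        have e1 : uu t ^ d 0 * uu t ^ (2 * d 1) =
            uu t ^ d₀ 0 * uu t ^ (2 * d₀ 1) * uu t ^ e * uu t := by
          rw [← pow_add, he, pow_succ, pow_add, pow_add]
        have h4 : 0 < ww t / uu t ^ 2 := by positivity
        generalize ww t / uu t ^ 2 = o at h4 ⊢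
        rw [mul_left_comm (uu t ^ d 0), e1]
        field_simp
      · simp only at h1 h2
        have h3 : d₀ 1 < d 1 := lt_of_le_of_ne h2 fun h3 => hdd (by
          ext i
          fin_cases i
          · simp only [Fin.zero_eta]; omega
          · simp only [Fin.mk_one]; omega)
        obtain ⟨e, he⟩ := Nat.exists_eq_add_of_lt h3
        have h4 := (tendsto_om.pow (e + 1)).const_mul (coeff d Q)
        rw [zero_pow (Nat.succ_ne_zero e), mul_zero] at h4
        refine h4.congr' ?_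
        filter_upwards [ev_pos] with t ⟨_, h2, h3⟩
        rw [hw t (d 1) h2, hw t (d₀ 1) h2]
        have e1 : uu t ^ d 0 * uu t ^ (2 * d 1) = uu t ^ d₀ 0 * uu t ^ (2 * d₀ 1) := by
          rw [← pow_add, ← h1, pow_add]
        have h4 : 0 < ww t / uu t ^ 2 := by positivity
        generalize ww t / uu t ^ 2 = o at h4 ⊢
        rw [mul_left_comm (uu t ^ d 0), e1, he]
        field_simp
        ring
  have h2 := tendsto_finsetSum _ key
  rw [Finset.sum_ite_eq' Q.support d₀, if_pos hd₀] at h2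
  have h3 : Tendsto (fun t => ∑ d ∈ Q.support, coeff d Q * (uu t ^ d 0 * ww t ^ d 1) /
      (uu t ^ d₀ 0 * ww t ^ d₀ 1)) (𝓝[<] 1) (𝓝 0) := by
    refine tendsto_const_nhds.congr' ?_
    filter_upwards [h] with t ht
    rw [eval_eq'] at ht
    simp only [Fin.prod_univ_two, Matrix.cons_val_zero, Matrix.cons_val_one] at ht
    rw [← Finset.sum_div, ht, zero_div]
  exact mem_support_iff.1 hd₀ (tendsto_nhds_unique h2 h3)

lemma analytic_series {a : ℕ → ℝ} (ha : Summable a) (h0 : ∀ n, 0 < a n) (e : ℕ → ℕ) :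
    AnalyticOnNhd ℝ (fun t : ℝ => ∑' n, a n * t ^ e n) (Ioo (-1) 1) := by
  have hd := Complex.differentiableOn_tsum_of_summable_norm
    (F := fun (n : ℕ) (w : ℂ) => (a n : ℂ) * w ^ e n) (U := Metric.ball 0 1) ha
    (fun n => by fun_prop) Metric.isOpen_ball fun n w hw => by
      rw [norm_mul, norm_pow, Complex.norm_real, Real.norm_of_nonneg (h0 n).le]
      exact mul_le_of_le_one_right (h0 n).le
        (pow_le_one₀ (norm_nonneg _) (mem_ball_zero_iff.1 hw).le)
  intro t ht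
  have h1 : AnalyticAt ℂ (fun w : ℂ => ∑' n, (a n : ℂ) * w ^ e n) (t : ℂ) :=
    hd.analyticOnNhd Metric.isOpen_ball _ (by simpa [abs_lt] using ht)
  have h2 : AnalyticAt ℝ (fun s : ℝ => (∑' n, (a n : ℂ) * (s : ℂ) ^ e n).re) t :=
    (Complex.reCLM.analyticAt _).comp ((h1.restrictScalars (𝕜 := ℝ)).comp
      (Complex.ofRealCLM.analyticAt t))
  refine h2.congr (.of_forall fun s => ?_)
  simp only
  rw [← Complex.ofReal_re (∑' n, a n * s ^ e n), Complex.ofReal_tsum]
  push_cast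
  rfl

open MvPolynomial in
/-- No nonzero polynomial vanishes along the curve near its centre. -/
theorem eq_zero_of_ev_zero (Q : MvPolynomial (Fin 2) ℝ)
    (h : ∀ᶠ t in 𝓝 (0 : ℝ), eval ![uu t, ww t] Q = 0) : Q = 0 := by
  have hx : AnalyticOnNhd ℝ xs (Ioo (-1) 1) := analytic_series summable_al al_pos _
  have hy : AnalyticOnNhd ℝ ys (Ioo (-1) 1) :=
    analyticOnNhd_const.sub (analytic_series summable_be be_pos _)
  have hu : AnalyticOnNhd ℝ uu (Ioo (-1) 1) := analyticOnNhd_const.sub hx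
  have hw : AnalyticOnNhd ℝ ww (Ioo (-1) 1) := (analyticOnNhd_const.add hu).sub hy
  have ha : AnalyticOnNhd ℝ (fun t => aeval ![uu t, ww t] Q) (Ioo (-1) 1) :=
    AnalyticOnNhd.aeval_mvPolynomial (f := fun t => ![uu t, ww t]) (fun i => by
      fin_cases i
      · simpa using hu
      · simpa using hw) Q
  have h2 := ha.eqOn_zero_of_preconnected_of_eventuallyEq_zero isPreconnected_Ioo
    (z₀ := 0) ⟨by norm_num, by norm_num⟩ h
  refine eq_zero_of_ev Q ?_
  filter_upwards [Ioo_mem_nhdsLT (show (-1 : ℝ) < 1 by norm_num)] with t ht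
  exact h2 ht

end Pool.Agent.MP_faa29e_an
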