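import Mathlib.Algebra.MvPolynomial.Eval
import Mathlib.Data.Complex.Basic

/-!
Semialgebraic subsets of a complex coordinate space.
-/

namespace Pool.Agent.MP_faa29e_an

/-- The real coordinates (real parts, then imaginary parts) of a complex vector. -/
def coords {ι : Type} (v : ι → ℂ) : ι ⊕ ι → ℝ := Sum.elim (fun j => (v j).re) fun j => (v j).im

/-- A set is semialgebraic if it is a finite union of sets, each given by finitely many real
polynomial equations `P = 0` and strict inequalities `Q > 0` in the real coordinates. -/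
def IsSemialg {ι : Type} (S : Set (ι → ℂ)) : Prop :=
  ∃ 𝒮 : Finset (Finset (MvPolynomial (ι ⊕ ι) ℝ) × Finset (MvPolynomial (ι ⊕ ι) ℝ)),
    ∀ v, v ∈ S ↔ ∃ e ∈ 𝒮, (∀ P ∈ e.1, MvPolynomial.eval (coords v) P = 0) ∧
      ∀ Q ∈ e.2, 0 < MvPolynomial.eval (coords v) Q

end Pool.Agent.MP_faa29e_an
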