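import Pool.Agent.MP_faa29e_an.Defs

/-!
Toeplitz relaxations of the Laurent coefficient body.
-/

namespace Pool.Agent.MP_faa29e_an

/-- The square matrix `A` has operator norm at most one on Euclidean space. -/
def Contr {n : ℕ} (A : Fin n → Fin n → ℂ) : Prop :=
  ∀ x : Fin n → ℂ, ∑ i, ‖∑ j, A i j * x j‖ ^ 2 ≤ ∑ j, ‖x j‖ ^ 2

/-- The vectors `(a_{-N}, ..., a_N)` that extend to a sequence `a` for which the Toeplitz matrices
`(a_{i-j})` and `(r^{i-j} a_{i-j})`, `0 ≤ i, j ≤ M`, both have operator norm at most one. -/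
def shadow (r : ℝ) (N M : ℕ) : Set (Fin (2 * N + 1) → ℂ) :=
  {v | ∃ a : ℤ → ℂ, (∀ j : Fin (2 * N + 1), a ((j : ℤ) - N) = v j) ∧
    Contr (fun i j : Fin (M + 1) => a ((i : ℤ) - j)) ∧
    Contr fun i j : Fin (M + 1) => (r : ℂ) ^ ((i : ℤ) - j) * a ((i : ℤ) - j)}

end Pool.Agent.MP_faa29e_an
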