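import Mathlib.Data.Int.Star
import Mathlib.Analysis.Analytic.Binomial
import Mathlib.Topology.Separation.CompletelyRegular
import Mathlib.RingTheory.MvPolynomial.IrreducibleQuadratic
import Mathlib.Topology.Algebra.MvPolynomial
import Pool.Agent.MP_faa29e_an.Types
import Pool.Agent.MP_faa29e_an.Curve
import Pool.Agent.MP_faa29e_an.DefsAlg

/-!
The coefficient body is not semialgebraic.
-/

open Metric Set Filter Topology
open Real (circleAverage)
open scoped Real ComplexConjugate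

namespace Pool.Agent.MP_faa29e_an

lemma choose_neg_half (n : ℕ) : Ring.choose (-(1 / 2) : ℂ) n = (-1) ^ n * (cb n : ℂ) := by
  induction n with
  | zero => simp [cb]
  | succ n ih =>
    have h := Ring.choose_smul_choose (-(1 / 2) : ℂ) (n := n + 1) (k := n) (Nat.le_succ n)
    rw [Nat.choose_succ_self_right, Nat.add_sub_cancel_left, Ring.choose_one_right, ih,
      nsmul_eq_mul] at h
    have h2 : ((n + 1 : ℕ) : ℂ) ≠ 0 := by exact_mod_cast Nat.succ_ne_zero n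
    refine mul_left_cancel₀ h2 ?_
    rw [h, cb]
    have h3 : (2 * (n : ℂ) + 2) ≠ 0 := by exact_mod_cast (show 2 * n + 2 ≠ 0 by omega)
    push_cast
    field_simp
    ring

/-- The principal branch of `(1 + w)^{-1/2}`. -/
noncomputable def Bc (w : ℂ) : ℂ := (1 + w) ^ (-(1 / 2) : ℂ)

lemma hasSum_Bc {w : ℂ} (hw : ‖w‖ < 1) :
    HasSum (fun n : ℕ => (-1) ^ n * (cb n : ℂ) * w ^ n) (Bc w) := by
  have h := (Complex.one_add_cpow_hasFPowerSeriesOnBall_zero (a := -(1 / 2))).hasSum (y := w)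
    (by simpa [← ofReal_norm, ENNReal.ofReal_lt_one] using hw)
  refine hasSum_cast h (fun n => ?_) (by simp [Bc])
  rw [binomialSeries_apply, choose_neg_half]
  simp

lemma Bc_sq {w : ℂ} (hw : ‖w‖ < 1) : Bc w ^ 2 * (1 + w) = 1 := by
  have h0 : 1 + w ≠ 0 := Complex.slitPlane_ne_zero (Complex.mem_slitPlane_of_norm_lt_one hw)
  rw [Bc, ← Complex.cpow_nat_mul]
  have : ((2 : ℕ) : ℂ) * -(1 / 2) = -1 := by push_cast; ring
  rw [this, Complex.cpow_neg_one, inv_mul_cancel₀ h0]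

lemma differentiableAt_Bc {w : ℂ} (hw : ‖w‖ < 1) : DifferentiableAt ℂ Bc w :=
  (differentiableAt_const _ |>.add differentiableAt_id).cpow_const
    (Complex.mem_slitPlane_of_norm_lt_one hw)

/-- The product of the two branches. -/
noncomputable def Gt (M : ℕ) (t : ℝ) (z : ℂ) : ℂ := Bc (t * z ^ (-(M : ℤ))) * Bc (t * z ^ (M : ℤ))

lemma small1 {r t : ℝ} (hr0 : 0 < r) {M : ℕ} (ht : |t| < r ^ M) {z : ℂ} (hz : r ≤ ‖z‖) :
    ‖(t : ℂ) * z ^ (-(M : ℤ))‖ < 1 := by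
  have h0 : 0 < ‖z‖ := hr0.trans_le hz
  rw [norm_mul, norm_zpow, Complex.norm_real, Real.norm_eq_abs, zpow_neg, zpow_natCast,
    ← div_eq_mul_inv, div_lt_one (pow_pos h0 M)]
  exact ht.trans_le (pow_le_pow_left₀ hr0.le hz M)

lemma small2 {r t : ℝ} (hr0 : 0 < r) (hr1 : r < 1) {M : ℕ} (ht : |t| < r ^ M) {z : ℂ}
    (hz : ‖z‖ ≤ 1) : ‖(t : ℂ) * z ^ (M : ℤ)‖ < 1 := by
  rw [norm_mul, norm_zpow, Complex.norm_real, Real.norm_eq_abs, zpow_natCast]
  have h1 : ‖z‖ ^ M ≤ 1 := pow_le_one₀ (norm_nonneg _) hz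
  have h2 : r ^ M ≤ 1 := pow_le_one₀ hr0.le hr1.le
  exact (mul_le_of_le_one_right (abs_nonneg _) h1).trans_lt (ht.trans_le h2)

lemma differentiableAt_Gt {r t : ℝ} (hr0 : 0 < r) (hr1 : r < 1) {M : ℕ} (ht : |t| < r ^ M) {z : ℂ}
    (hz : z ∈ cann r 1) : DifferentiableAt ℂ (Gt M t) z := by
  have hz0 : z ≠ 0 := norm_pos_iff.1 (hr0.trans_le hz.1)
  have h1 : DifferentiableAt ℂ (fun z : ℂ => Bc (t * z ^ (-(M : ℤ)))) z :=
    DifferentiableAt.comp (g := Bc) (f := fun z : ℂ => (t : ℂ) * z ^ (-(M : ℤ))) z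
      (differentiableAt_Bc (small1 hr0 ht hz.1))
      ((differentiableAt_zpow.2 (Or.inl hz0)).const_mul _)
  have h2 : DifferentiableAt ℂ (fun z : ℂ => Bc (t * z ^ (M : ℤ))) z :=
    DifferentiableAt.comp (g := Bc) (f := fun z : ℂ => (t : ℂ) * z ^ (M : ℤ)) z
      (differentiableAt_Bc (small2 hr0 hr1 ht hz.2))
      ((differentiableAt_zpow.2 (Or.inl hz0)).const_mul _)
  exact h1.mul h2

lemma hasSum_CA_Gt {r t σ : ℝ} (hr0 : 0 < r) (hr1 : r < 1) {M : ℕ} (ht : |t| < r ^ M)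
    (hσ : σ ∈ Ioo r 1) (j : ℤ) :
    HasSum (fun x : ℕ × ℕ => (-1) ^ (x.1 + x.2) * (cb x.1 * cb x.2 * t ^ (x.1 + x.2) : ℝ) *
      (if j + M * (x.2 - x.1 : ℤ) = 0 then (1 : ℂ) else 0))
      (circleAverage (fun z => z ^ j * Gt M t z) 0 σ) := by
  have hσ0 : 0 < σ := hr0.trans hσ.1
  have hσn : ‖(σ : ℂ)‖ = σ := by rw [Complex.norm_real, Real.norm_of_nonneg hσ0.le]
  have a1 := small1 hr0 ht (z := σ) (by rw [hσn]; exact hσ.1.le)
  have a2 := small2 hr0 hr1 ht (z := σ) (by rw [hσn]; exact hσ.2.le)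
  have hn : ∀ (w : ℂ) (n : ℕ), ‖(-1) ^ n * (cb n : ℂ) * w ^ n‖ ≤ ‖w‖ ^ n := fun w n => by
    rw [norm_mul, norm_mul, norm_pow, norm_pow, norm_neg, norm_one, one_pow, one_mul,
      Complex.norm_real, Real.norm_of_nonneg (cb_pos n).le]
    exact mul_le_of_le_one_left (by positivity) (cb_le_one n)
  have hs : ∀ w : ℂ, ‖w‖ < 1 → Summable fun n : ℕ => ‖(-1) ^ n * (cb n : ℂ) * w ^ n‖ :=
    fun w hw => Summable.of_nonneg_of_le (fun _ => norm_nonneg _) (hn w)
      (summable_geometric_of_lt_one (norm_nonneg _) hw)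
  set F : ℕ × ℕ → ℂ → ℂ := fun x z => z ^ j *
      (((-1) ^ x.1 * (cb x.1 : ℂ) * (t * z ^ (-(M : ℤ))) ^ x.1) *
        ((-1) ^ x.2 * (cb x.2 : ℂ) * (t * z ^ (M : ℤ)) ^ x.2)) with hF
  set b : ℕ × ℕ → ℝ := fun x => σ ^ j * (‖(t : ℂ) * (σ : ℂ) ^ (-(M : ℤ))‖ ^ x.1 *
      ‖(t : ℂ) * (σ : ℂ) ^ (M : ℤ)‖ ^ x.2) with hb
  have c1 : ∀ x, ContinuousOn (F x) (sphere 0 σ) := fun x => by
    have d1 := continuousOn_zpow_sphere hσ0 j
    have d2 := continuousOn_zpow_sphere hσ0 (-(M : ℤ))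
    have d3 := continuousOn_zpow_sphere hσ0 (M : ℤ)
    exact d1.mul ((continuousOn_const.mul ((continuousOn_const.mul d2).pow _)).mul
      (continuousOn_const.mul ((continuousOn_const.mul d3).pow _)))
  have c2 : Summable b := by
    have d1 := summable_geometric_of_lt_one (norm_nonneg _) a1
    have d2 := summable_geometric_of_lt_one (norm_nonneg _) a2
    exact (d1.mul_of_nonneg d2 (fun _ => pow_nonneg (norm_nonneg _) _)
      (fun _ => pow_nonneg (norm_nonneg _) _)).mul_left _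
  have c3 : ∀ x z, ‖z‖ = σ → ‖F x z‖ ≤ b x := fun x z hz => by
    simp only [hF, hb]
    rw [norm_mul, norm_zpow, hz, norm_mul]
    refine mul_le_mul_of_nonneg_left (mul_le_mul ((hn _ _).trans (le_of_eq ?_))
      ((hn _ _).trans (le_of_eq ?_)) (norm_nonneg _) (by positivity)) (by positivity)
    · simp only [norm_mul, norm_zpow, hz, hσn]
    · simp only [norm_mul, norm_zpow, hz, hσn]
  have c4 : ∀ z : ℂ, ‖z‖ = σ → HasSum (fun x => F x z) (z ^ j * Gt M t z) := fun z hz => by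
    have b1 := small1 hr0 ht (z := z) (by rw [hz]; exact hσ.1.le)
    have b2 := small2 hr0 hr1 ht (z := z) (by rw [hz]; exact hσ.2.le)
    have b3 := summable_mul_of_summable_norm (hs _ b1) (hs _ b2)
    exact ((hasSum_Bc b1).mul (hasSum_Bc b2) b3).mul_left _
  have h := hasSum_CA (G := fun z => z ^ j * Gt M t z) hσ0 c1 c2 c3 c4
  refine hasSum_cast h (fun x => ?_) rfl
  rw [← CA_zpow hσ0, ← CA_const_mul]
  refine CA_congr hσ0 fun z hz => ?_
  have hz0 : z ≠ 0 := norm_pos_iff.1 (by rw [hz]; exact hσ0)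
  simp only [hF]
  rw [mul_sub, sub_eq_add_neg, zpow_add₀ hz0, zpow_add₀ hz0, ← neg_mul, zpow_mul, zpow_mul,
    zpow_natCast (z ^ (M : ℤ)), zpow_natCast (z ^ (-(M : ℤ)))]
  push_cast
  ring

section
variable {r t σ : ℝ} (hr0 : 0 < r) (hr1 : r < 1) {M : ℕ} (hM : 0 < M) (ht : |t| < r ^ M)
  (hσ : σ ∈ Ioo r 1)
include hr0 hr1 hM ht hσ

lemma CA_Gt_zero {j : ℤ} (hj : ¬(M : ℤ) ∣ j) :
    circleAverage (fun z => z ^ j * Gt M t z) 0 σ = 0 := by
  have _ := hM
  refine (hasSum_CA_Gt hr0 hr1 ht hσ j).unique (hasSum_cast hasSum_zero (fun x => ?_) rfl)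
  rw [if_neg, mul_zero]
  intro h
  exact hj ⟨-(x.2 - x.1 : ℤ), by linarith⟩

lemma hasSum_diag (j : ℤ) (φ : ℕ → ℕ × ℕ) (hφ : Function.Injective φ)
    (h1 : ∀ x : ℕ × ℕ, j + M * (x.2 - x.1 : ℤ) = 0 ↔ x ∈ range φ) :
    HasSum (fun n : ℕ => (-1) ^ ((φ n).1 + (φ n).2) *
      ((cb (φ n).1 * cb (φ n).2 * t ^ ((φ n).1 + (φ n).2) : ℝ) : ℂ))
      (circleAverage (fun z => z ^ j * Gt M t z) 0 σ) := by
  have _ := hM
  have h := (hφ.hasSum_iff (fun x hx => by rw [if_neg (mt (h1 x).1 hx), mul_zero])).2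
    (hasSum_CA_Gt hr0 hr1 ht hσ j)
  refine hasSum_cast h (fun n => ?_) rfl
  simp only [Function.comp]
  rw [if_pos ((h1 _).2 (mem_range_self n)), mul_one]

lemma hasSum_K : HasSum (fun n : ℕ => ((cb n ^ 2 * t ^ (2 * n) : ℝ) : ℂ))
    (circleAverage (fun z => z ^ (0 : ℤ) * Gt M t z) 0 σ) := by
  refine hasSum_cast (hasSum_diag hr0 hr1 hM ht hσ 0 (fun n => (n, n))
    (fun a b h => (Prod.ext_iff.1 h).1) fun x => ?_) (fun n => ?_) rfl
  · rw [zero_add, mul_eq_zero]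
    constructor
    · rintro (h | h)
      · omega
      · exact ⟨x.1, Prod.ext rfl (by simp only; omega)⟩
    · rintro ⟨n, rfl⟩; simp
  · simp only [← two_mul, pow_mul]; push_cast; ring

lemma hasSum_J1 : HasSum (fun n : ℕ => ((-(cb n * cb (n + 1) * t ^ (2 * n + 1)) : ℝ) : ℂ))
    (circleAverage (fun z => z ^ (M : ℤ) * Gt M t z) 0 σ) := by
  refine hasSum_cast (hasSum_diag hr0 hr1 hM ht hσ M (fun n => (n + 1, n))
    (fun a b h => (Prod.ext_iff.1 h).2) fun x => ?_) (fun n => ?_) rfl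
  · have e : (M : ℤ) + M * (x.2 - x.1 : ℤ) = M * (1 + x.2 - x.1) := by ring
    rw [e, mul_eq_zero]
    constructor
    · rintro (h | h)
      · omega
      · exact ⟨x.2, Prod.ext (by simp only; omega) rfl⟩
    · rintro ⟨n, rfl⟩; right; push_cast; ring
  · have e : n + 1 + n = 2 * n + 1 := by ring
    simp only [e, pow_succ, pow_mul]; push_cast; ring

lemma hasSum_J2 : HasSum (fun n : ℕ => ((-(cb n * cb (n + 1) * t ^ (2 * n + 1)) : ℝ) : ℂ))
    (circleAverage (fun z => z ^ (-(M : ℤ)) * Gt M t z) 0 σ) := by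
  refine hasSum_cast (hasSum_diag hr0 hr1 hM ht hσ (-M) (fun n => (n, n + 1))
    (fun a b h => (Prod.ext_iff.1 h).1) fun x => ?_) (fun n => ?_) rfl
  · have e : -(M : ℤ) + M * (x.2 - x.1 : ℤ) = M * (-1 + x.2 - x.1) := by ring
    rw [e, mul_eq_zero]
    constructor
    · rintro (h | h)
      · omega
      · exact ⟨x.1, Prod.ext rfl (by simp only; omega)⟩
    · rintro ⟨n, rfl⟩; right; push_cast; ring
  · have e : n + (n + 1) = 2 * n + 1 := by ring
    simp only [e, pow_succ, pow_mul]; push_cast; ring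

lemma CA_x : circleAverage (fun z => z ^ (M : ℤ) * Gt M t z) 0 σ +
    t * circleAverage (fun z => z ^ (0 : ℤ) * Gt M t z) 0 σ = xs t := by
  have h := (hasSum_J1 hr0 hr1 hM ht hσ).add ((hasSum_K hr0 hr1 hM ht hσ).mul_left (t : ℂ))
  rw [xs, Complex.ofReal_tsum]
  refine (hasSum_cast h (fun n => ?_) rfl).tsum_eq.symm
  rw [← Complex.ofReal_mul, ← Complex.ofReal_add, cb, al]
  congr 1
  field_simp
  ring

lemma CA_y : circleAverage (fun z => z ^ (0 : ℤ) * Gt M t z) 0 σ +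
    t * circleAverage (fun z => z ^ (-(M : ℤ)) * Gt M t z) 0 σ = ys t := by
  have h0 := (hasSum_nat_add_iff' 1).2 (hasSum_K hr0 hr1 hM ht hσ)
  have h := (h0.add ((hasSum_J2 hr0 hr1 hM ht hσ).mul_left (t : ℂ))).neg
  rw [ys, Complex.ofReal_sub, Complex.ofReal_tsum]
  have h2 := (hasSum_cast h (g := fun n : ℕ => ((be n * t ^ (2 * n + 2) : ℝ) : ℂ))
    (fun n => ?_) rfl).tsum_eq
  · rw [h2]; simp [cb]; ring
  · rw [← Complex.ofReal_mul, ← Complex.ofReal_add, ← Complex.ofReal_neg, cb, be, al]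
    congr 1
    field_simp
    ring

end

/-- The extremal function of the second kind for `z^{-N} + t z^N`. -/
noncomputable def ft (N : ℕ) (t : ℝ) (z : ℂ) : ℂ :=
  (z ^ (N : ℤ) + t * z ^ (-(N : ℤ))) * Gt (2 * N) t z

/-- A vector supported on the two extreme indices. -/
def two (N : ℕ) (x y : ℂ) : Fin (2 * N + 1) → ℂ := Pi.single 0 x + Pi.single (Fin.last _) y

lemma lpoly_two (N : ℕ) (x y z : ℂ) :
    lpoly N (two N x y) z = x * z ^ (-(N : ℤ)) + y * z ^ (N : ℤ) := by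
  simp only [lpoly, two, Pi.add_apply, add_mul, Finset.sum_add_distrib, Pi.single_apply, ite_mul,
    zero_mul, Finset.sum_ite_eq', Finset.mem_univ, if_true, Fin.val_zero, Fin.val_last]
  congr 3
  · simp
  · push_cast; ring

lemma ft_sq {r t : ℝ} (hr0 : 0 < r) (hr1 : r < 1) {N : ℕ} (ht : |t| < r ^ (2 * N)) {z : ℂ}
    (hz : z ∈ cann r 1) :
    ft N t z ^ 2 * (z ^ (-(N : ℤ)) + t * z ^ (N : ℤ)) = z ^ (N : ℤ) + t * z ^ (-(N : ℤ)) := by
  have hz0 : z ≠ 0 := norm_pos_iff.1 (hr0.trans_le hz.1)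
  have h1 := Bc_sq (small1 hr0 ht hz.1)
  have h2 := Bc_sq (small2 hr0 hr1 ht hz.2)
  have e1 : z ^ (((2 * N : ℕ) : ℤ)) = z ^ (N : ℤ) * z ^ (N : ℤ) := by
    rw [← zpow_add₀ hz0]; congr 1; push_cast; ring
  have e2 : z ^ (-((2 * N : ℕ) : ℤ)) = z ^ (-(N : ℤ)) * z ^ (-(N : ℤ)) := by
    rw [← zpow_add₀ hz0]; congr 1; push_cast; ring
  have e3 : z ^ (N : ℤ) * z ^ (-(N : ℤ)) = 1 := by rw [← zpow_add₀ hz0]; simp
  rw [ft, Gt]
  generalize Bc (t * z ^ (-((2 * N : ℕ) : ℤ))) = A at h1 ⊢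
  generalize Bc (t * z ^ (((2 * N : ℕ) : ℤ))) = B at h2 ⊢
  rw [e2] at h1
  rw [e1] at h2
  generalize z ^ (N : ℤ) = u at *
  generalize z ^ (-(N : ℤ)) = v at *
  have f1 : A ^ 2 * (u + t * v) = u := by linear_combination u * h1 - A ^ 2 * t * v * e3
  have f2 : B ^ 2 * (v + t * u) = v := by linear_combination v * h2 - B ^ 2 * t * u * e3
  linear_combination (u + t * v) * (B ^ 2 * (v + t * u)) * f1 + (u + t * v) * u * f2 +
    (u + t * v) * e3

lemma ft_Bd {r t : ℝ} (hr0 : 0 < r) (hr1 : r < 1) {N : ℕ} (ht : |t| < r ^ (2 * N)) :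
    Bd r (ft N t) := by
  refine ⟨fun z hz => ?_, fun z hz => ?_⟩
  · have hz0 := ne_zero_of_mem_ann hr0.le hz
    exact (((differentiableAt_zpow.2 (Or.inl hz0)).add
      ((differentiableAt_zpow.2 (Or.inl hz0)).const_mul _)).mul
      (differentiableAt_Gt hr0 hr1 ht (ann_subset_cann _ _ hz))).differentiableWithinAt
  · have hz0 := ne_zero_of_mem_ann hr0.le hz
    have h := ft_sq hr0 hr1 ht (ann_subset_cann _ _ hz)
    have e3 : z ^ (N : ℤ) * z ^ (-(N : ℤ)) = 1 := by rw [← zpow_add₀ hz0]; simp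
    set u := z ^ (N : ℤ) * z ^ (N : ℤ)
    have h2 : ft N t z ^ 2 * (1 + t * u) = u + t := by
      linear_combination z ^ (N : ℤ) * h - (ft N t z ^ 2 - t) * e3
    have hu : ‖u‖ ≤ 1 := by
      rw [norm_mul, norm_zpow, zpow_natCast]
      have : ‖z‖ ^ N ≤ 1 := pow_le_one₀ (norm_nonneg _) hz.2.le
      exact mul_le_one₀ this (by positivity) this
    have ht1 : |t| < 1 := ht.trans_le (pow_le_one₀ hr0.le hr1.le)
    have h3 : ‖u + t‖ ≤ ‖1 + t * u‖ := by
      rw [← sq_le_sq₀ (norm_nonneg _) (norm_nonneg _), Complex.sq_norm, Complex.sq_norm,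
        Complex.normSq_apply, Complex.normSq_apply]
      have h4 : u.re ^ 2 + u.im ^ 2 ≤ 1 := by
        have := pow_le_one₀ (n := 2) (norm_nonneg u) hu
        rw [Complex.sq_norm, Complex.normSq_apply] at this
        nlinarith
      have h5 : t ^ 2 ≤ 1 := by rw [← sq_abs]; nlinarith [abs_nonneg t]
      simp
      nlinarith [mul_nonneg (sub_nonneg.2 h4) (sub_nonneg.2 h5)]
    have h6 : 0 < ‖1 + t * u‖ := by
      refine norm_pos_iff.2 (Complex.slitPlane_ne_zero (Complex.mem_slitPlane_of_norm_lt_one ?_))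
      rw [norm_mul, Complex.norm_real, Real.norm_eq_abs]
      exact (mul_le_of_le_one_right (abs_nonneg _) hu).trans_lt ht1
    rw [← h2, norm_mul, norm_pow] at h3
    have h7 : ‖ft N t z‖ ^ 2 ≤ 1 := by
      by_contra hc
      nlinarith
    exact (pow_le_one_iff_of_nonneg (norm_nonneg _) two_ne_zero).1 h7

lemma ft_typeII {r t : ℝ} (hr0 : 0 < r) (hr1 : r < 1) {N : ℕ} (hN : 0 < N)
    (ht : |t| < r ^ (2 * N)) : TypeII r N (ft N t) := by
  refine ⟨two N 1 t, fun h => ?_, fun z hz => ?_⟩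
  · have := congrFun h 0
    have h0 : (0 : Fin (2 * N + 1)) ≠ Fin.last _ := by
      intro h1; have := congrArg Fin.val h1; simp at this; omega
    simp [two, h0] at this
  · rw [lpoly_two, lpoly_two, one_mul, ft_sq hr0 hr1 ht (ann_subset_cann _ _ hz)]
    simp

lemma coeffVec_ft {r t : ℝ} (hr0 : 0 < r) (hr1 : r < 1) {N : ℕ} (hN : 0 < N)
    (ht : |t| < r ^ (2 * N)) : coeffVec r N (ft N t) = two N (xs t) (ys t) := by
  have hσ := sqrt_mem hr0 hr1
  have hσ0 : 0 < √r := Real.sqrt_pos.2 hr0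
  have hM : 0 < 2 * N := by omega
  have hG : ContinuousOn (Gt (2 * N) t) (sphere 0 √r) := fun z hz =>
    (differentiableAt_Gt hr0 hr1 ht (ann_subset_cann _ _
      (sphere_subset_ann hσ.1 hσ.2 hz))).continuousAt.continuousWithinAt
  have key : ∀ k : ℤ, lc (ft N t) (√r) k =
      circleAverage (fun z => z ^ (N - k) * Gt (2 * N) t z) 0 √r +
        t * circleAverage (fun z => z ^ (-N - k) * Gt (2 * N) t z) 0 √r := fun k => by
    rw [← CA_const_mul, ← CA_add (F := fun z => z ^ (N - k) * Gt (2 * N) t z)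
      (G := fun z => t * (z ^ (-N - k) * Gt (2 * N) t z)) hσ0
      ((continuousOn_zpow_sphere hσ0 _).mul hG)
      (((continuousOn_zpow_sphere hσ0 _).mul hG).const_mul _), lc]
    refine CA_congr hσ0 fun z hz => ?_
    have hz0 : z ≠ 0 := norm_pos_iff.1 (by rw [hz]; exact hσ0)
    rw [ft, sub_eq_add_neg, sub_eq_add_neg, zpow_add₀ hz0, zpow_add₀ hz0]
    ring
  have h0 : (0 : Fin (2 * N + 1)) ≠ Fin.last _ := by
    intro h1; have := congrArg Fin.val h1; simp at this; omega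
  ext j
  rw [coeffVec, coeff_eq_lc hr0, key]
  by_cases j0 : j = 0
  · subst j0
    have e1 : (N : ℤ) - (((0 : Fin (2 * N + 1)) : ℕ) - N) = ((2 * N : ℕ) : ℤ) := by simp; ring
    have e2 : -(N : ℤ) - (((0 : Fin (2 * N + 1)) : ℕ) - N) = 0 := by simp
    rw [e1, e2, CA_x hr0 hr1 hM ht hσ]
    simp [two, h0]
  · by_cases j1 : j = Fin.last _
    · subst j1
      have e1 : (N : ℤ) - (((Fin.last (2 * N)) : ℕ) - N) = 0 := by simp; ring
      have e2 : -(N : ℤ) - (((Fin.last (2 * N)) : ℕ) - N) = -((2 * N : ℕ) : ℤ) := by simp; ring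
      rw [e1, e2, CA_y hr0 hr1 hM ht hσ]
      simp [two, h0.symm]
    · have a1 : (j : ℕ) ≠ 0 := fun h => j0 (Fin.ext h)
      have a2 : (j : ℕ) ≠ 2 * N := fun h => j1 (Fin.ext h)
      have a3 := j.isLt
      rw [CA_Gt_zero hr0 hr1 hM ht hσ, CA_Gt_zero hr0 hr1 hM ht hσ]
      · simp [two, j0, j1]
      · intro h
        have := Int.le_of_dvd (by omega) ((dvd_neg).2 h)
        omega
      · intro h
        have := Int.le_of_dvd (by omega) h
        omega

lemma not_mem_of_frontier {r : ℝ} (hr0 : 0 < r) (hr1 : r < 1) {N : ℕ} {v : Fin (2 * N + 1) → ℂ}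
    (hv : v ∈ frontier (body r N)) {ε : ℝ} (hε : 0 < ε) : (1 + ε) • v ∉ body r N := fun h => by
  have h1 := (convex_body hr0 hr1 N).combo_interior_self_mem_interior
    (zero_mem_interior_body hr0 hr1 N) h (a := ε / (1 + ε)) (b := 1 / (1 + ε)) (by positivity)
    (by positivity) (by field_simp; ring)
  rw [smul_zero, zero_add, smul_smul, one_div_mul_cancel (by positivity), one_smul] at h1
  exact hv.2 h1

open MvPolynomial in
theorem not_semialg {r : ℝ} (hr0 : 0 < r) (hr1 : r < 1) {N : ℕ} (hN : 0 < N) :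
    ¬IsSemialg (body r N) := by
  classical
  rintro ⟨𝒮, h𝒮⟩
  set pt : ℝ → ℝ → Fin (2 * N + 1) → ℂ :=
    fun u w => two N ((xs 1 - u : ℝ) : ℂ) ((ys 1 + u - w : ℝ) : ℂ) with hpt
  set sub : Fin (2 * N + 1) ⊕ Fin (2 * N + 1) → MvPolynomial (Fin 2) ℝ :=
    Sum.elim (Pi.single 0 (C (xs 1) - X 0) + Pi.single (Fin.last _) (C (ys 1) + X 0 - X 1))
      fun _ => 0 with hsub
  have hev : ∀ (u w : ℝ) (P : MvPolynomial (Fin (2 * N + 1) ⊕ Fin (2 * N + 1)) ℝ),
      eval ![u, w] (aeval sub P) = eval (coords (pt u w)) P := fun u w P => by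
    rw [← aeval_eq_eval, ← aeval_eq_eval, ← AlgHom.comp_apply, comp_aeval]
    congr 2
    ext i
    rcases i with j | j
    · simp only [hsub, hpt, two, coords, Sum.elim_inl, Pi.add_apply, Pi.single_apply, map_add,
        Complex.add_re, apply_ite Complex.re, apply_ite (aeval ![u, w])]
      simp
    · simp only [hsub, hpt, two, coords, Sum.elim_inr, Pi.add_apply, Pi.single_apply,
        Complex.add_im, apply_ite Complex.im]
      simp
  set T := (𝒮.biUnion fun e => e.1 ∪ e.2).filter fun P => aeval sub P ≠ 0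
  have hQ : ∏ P ∈ T, aeval sub P ≠ 0 :=
    Finset.prod_ne_zero_iff.2 fun P hP => (Finset.mem_filter.1 hP).2
  refine hQ (eq_zero_of_ev_zero _ ?_)
  have hb : ∀ᶠ t in 𝓝 (0 : ℝ), |t| < r ^ (2 * N) :=
    continuous_abs.continuousAt.eventually (gt_mem_nhds (by simpa using pow_pos hr0 _))
  filter_upwards [hb] with t ht
  by_contra hne
  rw [map_prod, Finset.prod_eq_zero_iff] at hne
  push Not at hne
  have hv : pt (uu t) (ww t) = coeffVec r N (ft N t) := by
    rw [coeffVec_ft hr0 hr1 hN ht, hpt]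
    simp only [uu, ww]
    congr 2 <;> ring
  have hfr : pt (uu t) (ww t) ∈ frontier (body r N) := by
    rw [hv]
    exact (extremal_iff hr0 hr1 (ft_Bd hr0 hr1 ht)).2 (Or.inr (Or.inl (ft_typeII hr0 hr1 hN ht)))
  obtain ⟨e, he, he1, he2⟩ := (h𝒮 _).1 ((isClosed_body hr0 hr1 N).frontier_subset hfr)
  set U : ℝ → ℝ := fun ε => xs 1 - (1 + ε) * (xs 1 - uu t)
  set W : ℝ → ℝ := fun ε => ys 1 + U ε - (1 + ε) * (ys 1 + uu t - ww t)
  have hscale : ∀ ε : ℝ, pt (U ε) (W ε) = (1 + ε) • pt (uu t) (ww t) := fun ε => by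
    ext j
    simp only [hpt, two, U, W, Pi.add_apply, Pi.smul_apply, Pi.single_apply, Complex.real_smul]
    split_ifs <;> push_cast <;> ring
  have hpos : ∀ᶠ ε in 𝓝 (0 : ℝ), ∀ Q ∈ e.2, 0 < eval (coords (pt (U ε) (W ε))) Q := by
    rw [Finset.eventually_all]
    intro Q hQ
    have hc : Continuous fun ε => eval ![U ε, W ε] (aeval sub Q) :=
      (MvPolynomial.continuous_eval _).comp (by
        refine continuous_pi fun i => ?_
        fin_cases i
        · simp only [U]; fun_prop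
        · simp only [W, U]; fun_prop)
    have h0 : 0 < eval ![U 0, W 0] (aeval sub Q) := by
      rw [hev, hscale]; simpa using he2 Q hQ
    filter_upwards [hc.continuousAt.eventually (lt_mem_nhds h0)] with ε hε
    rwa [hev] at hε
  obtain ⟨ε, hε1, hε2⟩ := ((hpos.filter_mono nhdsWithin_le_nhds).and
    (self_mem_nhdsWithin (a := (0 : ℝ)) (s := Ioi 0))).exists
  refine not_mem_of_frontier hr0 hr1 hfr hε2 ?_
  rw [← hscale]
  refine (h𝒮 _).2 ⟨e, he, fun P hP => ?_, hε1⟩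
  have hP0 : aeval sub P = 0 := by
    by_contra h0
    refine hne P (Finset.mem_filter.2 ⟨Finset.mem_biUnion.2 ⟨e, he, Finset.mem_union_left _ hP⟩,
      h0⟩) ?_
    rw [hev]
    exact he1 P hP
  rw [← hev, hP0, map_zero]

end Pool.Agent.MP_faa29e_an
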