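import Mathlib.Analysis.Complex.JensenFormula
import Pool.Agent.MP_faa29e_an.NonAlg

/-!
Extremal theta products have unbounded degree.
-/

open Metric Set Filter Topology
open Real (circleAverage)
open scoped Real ComplexConjugate

namespace Pool.Agent.MP_faa29e_an

/-- A nonvanishing continuous function on a circle with given logarithmic mean. -/
def Good (ρ : ℝ) (g : ℂ → ℂ) (c : ℝ) : Prop :=
  ContinuousOn g (sphere 0 ρ) ∧ (∀ z ∈ sphere (0 : ℂ) ρ, g z ≠ 0) ∧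
    circleAverage (fun z => Real.log ‖g z‖) 0 ρ = c

lemma Good.contLog {ρ c : ℝ} {g : ℂ → ℂ} (h : Good ρ g c) :
    ContinuousOn (fun z => Real.log ‖g z‖) (sphere 0 ρ) :=
  h.1.norm.log fun z hz => norm_ne_zero_iff.2 (h.2.1 z hz)

lemma Good.mul {ρ c d : ℝ} (hρ : 0 < ρ) {g h : ℂ → ℂ} (hg : Good ρ g c) (hh : Good ρ h d) :
    Good ρ (fun z => g z * h z) (c + d) := by
  refine ⟨hg.1.mul hh.1, fun z hz => mul_ne_zero (hg.2.1 z hz) (hh.2.1 z hz), ?_⟩
  rw [← hg.2.2, ← hh.2.2, ← CA_add hρ hg.contLog hh.contLog]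
  refine CA_congr hρ fun z hz => ?_
  have hz' : z ∈ sphere (0 : ℂ) ρ := by simpa using hz
  rw [norm_mul, Real.log_mul (norm_ne_zero_iff.2 (hg.2.1 z hz')) (norm_ne_zero_iff.2 (hh.2.1 z hz'))]

lemma Good.div {ρ c d : ℝ} (hρ : 0 < ρ) {g h : ℂ → ℂ} (hg : Good ρ g c) (hh : Good ρ h d) :
    Good ρ (fun z => g z / h z) (c - d) := by
  refine ⟨hg.1.div hh.1 hh.2.1, fun z hz => div_ne_zero (hg.2.1 z hz) (hh.2.1 z hz), ?_⟩
  rw [← hg.2.2, ← hh.2.2, ← CA_sub hρ hg.contLog hh.contLog]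
  refine CA_congr hρ fun z hz => ?_
  have hz' : z ∈ sphere (0 : ℂ) ρ := by simpa using hz
  rw [norm_div, Real.log_div (norm_ne_zero_iff.2 (hg.2.1 z hz')) (norm_ne_zero_iff.2 (hh.2.1 z hz'))]

lemma Good.congr {ρ c : ℝ} (hρ : 0 < ρ) {g h : ℂ → ℂ} (hg : Good ρ g c)
    (e : ∀ z : ℂ, ‖z‖ = ρ → h z = g z) : Good ρ h c :=
  ⟨hg.1.congr fun z hz => e z (norm_of_mem_sphere hz),
    fun z hz => by rw [e z (norm_of_mem_sphere hz)]; exact hg.2.1 z hz,
    (CA_congr hρ fun z hz => by rw [e z hz]).trans hg.2.2⟩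

lemma good_of_norm {ρ c : ℝ} (hρ : 0 < ρ) (hc : 0 < c) {g : ℂ → ℂ}
    (hg : ContinuousOn g (sphere 0 ρ)) (h : ∀ z : ℂ, ‖z‖ = ρ → ‖g z‖ = c) :
    Good ρ g (Real.log c) :=
  ⟨hg, fun z hz => norm_pos_iff.1 (by rw [h z (norm_of_mem_sphere hz)]; exact hc), by
    rw [CA_congr (G := fun _ => Real.log c) hρ fun z hz => by rw [h z hz],
      Real.circleAverage_const]⟩

lemma good_of_disc {ρ : ℝ} (hρ : 0 < ρ) {g : ℂ → ℂ} (hg : Differentiable ℂ g)
    (h : ∀ z : ℂ, ‖z‖ ≤ ρ → g z ≠ 0) (h0 : g 0 = 1) : Good ρ g 0 := by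
  refine ⟨hg.continuous.continuousOn, fun z hz => h z (norm_of_mem_sphere hz).le, ?_⟩
  rw [AnalyticOnNhd.circleAverage_log_norm_of_ne_zero (fun z _ => hg.analyticAt z)
    fun u hu => h u (by simpa [abs_of_pos hρ] using hu), h0]
  simp

lemma Pq_zero (q : ℝ) : Pq q 0 = 1 := by simp [Pq]

lemma good_Pq_mul {q ρ : ℝ} (h0 : 0 < q) (h1 : q < 1) (hρ : 0 < ρ) {l : ℂ}
    (hl : q * (‖l‖ * ρ) < 1) : Good ρ (fun z => Pq q (l * z)) 0 :=
  good_of_disc hρ ((differentiable_Pq h0 h1).comp (differentiable_id.const_mul l))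
    (fun z hz => Pq_ne_zero h0 h1 (lt_of_le_of_lt (by
      rw [norm_mul]; gcongr) hl)) (by simp [Pq_zero])

lemma good_Pq_div {q ρ : ℝ} (h0 : 0 < q) (h1 : q < 1) (hρ : 0 < ρ) {l : ℂ}
    (hl : q * (‖l‖ / ρ) < 1) : Good ρ (fun z => Pq q (l / z)) 0 := by
  have hρc : (ρ : ℂ) ≠ 0 := by exact_mod_cast hρ.ne'
  have h := good_Pq_mul h0 h1 hρ (l := l / (ρ : ℂ) ^ 2) (by
    rw [norm_div, norm_pow, Complex.norm_real, Real.norm_of_nonneg hρ.le]
    convert hl using 2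
    field_simp)
  have hz0 : ∀ z ∈ sphere (0 : ℂ) ρ, z ≠ 0 := fun z hz =>
    norm_pos_iff.1 (by rw [norm_of_mem_sphere hz]; exact hρ)
  refine ⟨(differentiable_Pq h0 h1).continuous.comp_continuousOn
    (continuousOn_const.div continuousOn_id hz0), fun z hz => Pq_ne_zero h0 h1 (by
      rwa [norm_div, norm_of_mem_sphere hz]), ?_⟩
  have e := CA_inv (fun v => Real.log ‖Pq q (l / (ρ : ℂ) ^ 2 * v)‖) (s := ρ ^ 2) (ρ := ρ)
  rw [show ρ ^ 2 / ρ = ρ by field_simp, h.2.2] at e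
  rw [← e]
  congr 1
  ext z
  congr 3
  push_cast
  field_simp

lemma good_fac {r ρ : ℝ} (hr0 : 0 < r) (hr1 : r < 1) (hρ : ρ ∈ Ioo r 1) {w : ℂ} (hw : w ∈ ann r 1)
    (hne : ‖w‖ ≠ ρ) : ∃ c, 0 ≤ c ∧
      Good ρ (fun z => theta (r ^ 2) (z / w) / theta (r ^ 2) (conj w * z)) c := by
  have a0 := sq_pos' hr0 hr1
  have a1 := sq_lt_one' hr0 hr1
  have hρ0 : 0 < ρ := hr0.trans hρ.1
  have hw0 := ne_zero_of_mem_ann hr0.le hw
  have hwn : 0 < ‖w‖ := norm_pos_iff.2 hw0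
  have g1 : Good ρ (fun z => z - w) (Real.log ρ + Real.posLog (ρ⁻¹ * ‖0 - w‖)) :=
    ⟨by fun_prop, fun z hz h => hne (by rw [← sub_eq_zero.1 h]; exact norm_of_mem_sphere hz),
      circleAverage_log_norm_sub_const_eq_log_radius_add_posLog hρ0.ne'⟩
  have g2 : Good ρ (fun _ => -w⁻¹) (Real.log ‖w‖⁻¹) :=
    good_of_norm hρ0 (by positivity) continuousOn_const fun z _ => by simp
  have g3 := good_Pq_mul a0 a1 hρ0 (l := w⁻¹) (by
    rw [norm_inv, ← div_eq_inv_mul, ← mul_div_assoc, div_lt_one hwn]; nlinarith [hw.1, hρ.2])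
  have g4 := good_Pq_div a0 a1 hρ0 (l := w) (by
    rw [← mul_div_assoc, div_lt_one hρ0]; nlinarith [hw.2, hρ.1])
  have g5 : Good ρ (fun z => 1 - conj w * z) 0 :=
    good_of_disc hρ0 (by fun_prop) (fun z hz h => by
      have := congrArg norm (sub_eq_zero.1 h)
      rw [norm_one, norm_mul, Complex.norm_conj] at this
      nlinarith [hw.2, hρ.2, norm_nonneg z]) (by simp)
  have g6 := good_Pq_mul a0 a1 hρ0 (l := conj w) (by
    rw [Complex.norm_conj]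
    have : ‖w‖ * ρ < 1 := by nlinarith [hw.2, hρ.2]
    nlinarith)
  have g7 := good_Pq_div a0 a1 hρ0 (l := (conj w)⁻¹) (by
    rw [norm_inv, Complex.norm_conj, div_eq_mul_inv, ← mul_inv, ← div_eq_mul_inv,
      div_lt_one (by positivity)]
    nlinarith [hw.1, hρ.1])
  have g := ((((g1.mul hρ0 g2).mul hρ0 g3).mul hρ0 g4).div hρ0 ((g5.mul hρ0 g6).mul hρ0 g7))
  refine ⟨_, ?_, g.congr hρ0 fun z hz => ?_⟩
  · have h1 : Real.log (ρ⁻¹ * ‖0 - w‖) ≤ Real.posLog (ρ⁻¹ * ‖0 - w‖) := le_max_right _ _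
    rw [zero_sub, norm_neg, Real.log_mul (by positivity) hwn.ne', Real.log_inv] at h1
    rw [zero_sub, norm_neg, Real.log_inv]
    linarith
  · rw [theta_eq a0 a1, theta_eq a0 a1]
    have e1 : z / w = w⁻¹ * z := by ring
    have e2 : (w⁻¹ * z)⁻¹ = w / z := by rw [mul_inv, inv_inv]; ring
    have e3 : (conj w * z)⁻¹ = (conj w)⁻¹ / z := by rw [mul_inv]; ring
    rw [e1, e2, e3]
    congr 3
    field_simp
    ring

lemma good_bla {r ρ : ℝ} (hr0 : 0 < r) (hr1 : r < 1) (hρ : ρ ∈ Ioo r 1) {κ : ℂ} {m : ℤ}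
    {a : Multiset ℂ} (h : BlaData r κ m a) (hne : ∀ w ∈ a, ‖w‖ ≠ ρ) :
    ∃ c, a.card * Real.log (r / ρ) ≤ c ∧ Good ρ (bla r κ m a) c := by
  have hρ0 : 0 < ρ := hr0.trans hρ.1
  obtain ⟨ha, hp, hκ⟩ := h
  have key : ∀ b : Multiset ℂ, (∀ w ∈ b, w ∈ ann r 1 ∧ ‖w‖ ≠ ρ) →
      r ^ b.card ≤ (b.map fun w => ‖w‖).prod ∧ ∃ c, 0 ≤ c ∧ Good ρ (fun z =>
        (b.map fun w => theta (r ^ 2) (z / w) / theta (r ^ 2) (conj w * z)).prod) c := by
    intro b
    induction b using Multiset.induction_on with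
    | empty =>
      exact fun _ => ⟨by simp, Real.log 1, by simp,
        good_of_norm hρ0 one_pos (by simpa using continuousOn_const) (by simp)⟩
    | cons w b ih =>
      intro hb
      obtain ⟨h1, c, hc, h2⟩ := ih fun v hv => hb v (Multiset.mem_cons_of_mem hv)
      have hw := hb w (Multiset.mem_cons_self w b)
      obtain ⟨d, hd, h3⟩ := good_fac hr0 hr1 hρ hw.1 hw.2
      simp only [Multiset.map_cons, Multiset.prod_cons, Multiset.card_cons]
      refine ⟨?_, d + c, by linarith, h3.mul hρ0 h2⟩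
      rw [pow_succ']
      exact mul_le_mul hw.1.1.le h1 (by positivity) (norm_nonneg _)
  obtain ⟨h1, c, hc, h2⟩ := key a fun w hw => ⟨ha w hw, hne w hw⟩
  have g1 : Good ρ (fun z : ℂ => κ * z ^ (-m)) (Real.log ((r / ρ) ^ m)) :=
    good_of_norm hρ0 (by positivity) ((continuousOn_zpow_sphere hρ0 _).const_mul _) fun z hz => by
      rw [norm_mul, norm_zpow, hz, hκ, div_zpow, zpow_neg, div_eq_mul_inv]
  refine ⟨_, ?_, g1.mul hρ0 h2⟩
  rw [hp, ← zpow_natCast, zpow_le_zpow_iff_right_of_lt_one₀ hr0 hr1] at h1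
  have h3 : Real.log (r / ρ) ≤ 0 :=
    Real.log_nonpos (by positivity) ((div_le_one hρ0).2 hρ.1.le)
  have h4 : (m : ℝ) ≤ a.card := by exact_mod_cast h1
  rw [Real.log_zpow]
  nlinarith

lemma Good.le_sq {ρ c : ℝ} (hρ : 0 < ρ) {g : ℂ → ℂ} (h : Good ρ g c) :
    1 + 2 * c ≤ circleAverage (fun z => ‖g z‖ ^ 2) 0 ρ := by
  have h1 := CA_mono hρ (F := fun z => 1 + 2 * Real.log ‖g z‖) (G := fun z => ‖g z‖ ^ 2)
    (continuousOn_const.add (h.contLog.const_mul _)) (h.1.norm.pow 2) fun z hz => by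
      have h2 := Real.log_le_sub_one_of_pos (pow_pos (norm_pos_iff.2
        (h.2.1 z (by simpa using hz))) 2)
      rw [Real.log_pow] at h2
      push_cast at h2
      linarith
  rwa [CA_add hρ continuousOn_const (h.contLog.const_mul _), Real.circleAverage_const,
    CA_const_mul_real, h.2.2] at h1

lemma tendsto_CA {ρ : ℝ} (hρ : 0 < ρ) {G : ℕ → ℂ → ℝ} {g : ℂ → ℝ}
    (hG : ∀ n, ContinuousOn (G n) (sphere 0 ρ)) (hb : ∀ n z, ‖z‖ = ρ → ‖G n z‖ ≤ 1)
    (hl : ∀ z, ‖z‖ = ρ → Tendsto (fun n => G n z) atTop (𝓝 (g z))) :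
    Tendsto (fun n => circleAverage (G n) 0 ρ) atTop (𝓝 (circleAverage g 0 ρ)) := by
  have hn : ∀ θ, ‖circleMap 0 ρ θ‖ = ρ := fun θ => by simp [abs_of_pos hρ]
  refine Tendsto.const_smul ?_ _
  refine intervalIntegral.tendsto_integral_filter_of_dominated_convergence (fun _ => 1)
    (.of_forall fun n => ?_) (.of_forall fun n => .of_forall fun θ _ => hb n _ (hn θ))
    intervalIntegrable_const (.of_forall fun θ _ => hl _ (hn θ))
  exact ((hG n).comp_continuous (continuous_circleMap 0 ρ)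
    fun θ => by simp [abs_of_pos hρ]).aestronglyMeasurable

lemma isCompact_body {r : ℝ} (hr0 : 0 < r) (hr1 : r < 1) (N : ℕ) : IsCompact (body r N) := by
  have hσ := sqrt_mem hr0 hr1
  refine (isCompact_univ_pi fun j : Fin (2 * N + 1) =>
    isCompact_closedBall (0 : ℂ) (√r ^ (-((j : ℤ) - N)))).of_isClosed_subset
    (isClosed_body hr0 hr1 N) ?_
  rintro _ ⟨f, hf, rfl⟩ j _
  rw [mem_closedBall_zero_iff, coeffVec, coeff_eq_lc hr0]
  exact hf.lc_le hr0 hσ hσ _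

lemma exists_max {r : ℝ} (hr0 : 0 < r) (hr1 : r < 1) {N : ℕ} (c : Fin (2 * N + 1) → ℂ) :
    ∃ f, Bd r f ∧ Cert r f (lpoly N c) := by
  obtain ⟨_, ⟨f, hf, rfl⟩, hmax⟩ := (isCompact_body hr0 hr1 N).exists_isMaxOn
    ⟨0, interior_subset (zero_mem_interior_body hr0 hr1 N)⟩
    (f := fun v => (∑ j, c j * v j.rev).re) (by fun_prop)
  refine ⟨f, hf, dual_exists hr0 hr1 hf (differentiableOn_lpoly_ann N c le_rfl) (sqrt_mem hr0 hr1)
    fun g hg => ?_⟩
  rw [CA_eq_pair hr0 hr1 hg.1, CA_eq_pair hr0 hr1 hf.1]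
  exact hmax ⟨g, hg, rfl⟩

lemma two_ne_zero' {N : ℕ} (hN : 0 < N) (y : ℂ) : two N 1 y ≠ 0 := fun h => by
  have := congrFun h 0
  have h0 : (0 : Fin (2 * N + 1)) ≠ Fin.last _ := by
    intro h1; have := congrArg Fin.val h1; simp at this; omega
  simp [two, h0] at this

lemma mul_lpoly_two {N : ℕ} (t : ℂ) {z : ℂ} (hz : z ≠ 0) :
    z ^ N * lpoly N (two N 1 t) z = 1 + t * z ^ (2 * N) := by
  rw [lpoly_two, zpow_neg, zpow_natCast, two_mul, pow_add]
  field_simp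

lemma not_typeII_two {r t : ℝ} (hr0 : 0 < r) {N : ℕ} (hN : 0 < N) (h1 : r ^ (2 * N) < t)
    (h2 : t < 1) {f : ℂ → ℂ} (hf : Bd r f)
    (h : ∀ z ∈ ann r 1, f z ^ 2 * lpoly N (two N 1 t) z =
      conj (lpoly N (two N 1 t) (1 / conj z))) : False := by
  have ht0 : 0 < t := (pow_pos hr0 _).trans h1
  have e : ∀ z ∈ ann r 1, f z ^ 2 * (1 + t * z ^ (2 * N)) = z ^ (2 * N) + t := fun z hz => by
    have hz0 := ne_zero_of_mem_ann hr0.le hz
    rw [← mul_lpoly_two _ hz0, mul_left_comm, h z hz, lpoly_two, two_mul, pow_add]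
    simp
    field_simp
  obtain ⟨z₀, hz₀⟩ := IsAlgClosed.exists_pow_nat_eq (-(t : ℂ)) (n := 2 * N) (by omega)
  have hn : ‖z₀‖ ^ (2 * N) = t := by
    rw [← norm_pow, hz₀, norm_neg, Complex.norm_real, Real.norm_of_nonneg ht0.le]
  have hm : z₀ ∈ ann r 1 := ⟨lt_of_pow_lt_pow_left₀ (2 * N) (norm_nonneg _) (by rwa [hn]),
    lt_of_pow_lt_pow_left₀ (2 * N) zero_le_one (by rwa [hn, one_pow])⟩
  have hz0 := ne_zero_of_mem_ann hr0.le hm
  have hf0 : f z₀ = 0 := by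
    have h3 := e z₀ hm
    rw [hz₀, neg_add_cancel, mul_eq_zero] at h3
    rcases h3 with h3 | h3
    · exact pow_eq_zero_iff two_ne_zero |>.1 h3
    · exfalso
      have : (1 : ℝ) + t * -t = 0 := by exact_mod_cast h3
      nlinarith
  have d1 := (hf.1.differentiableAt ((isOpen_ann _ _).mem_nhds hm)).hasDerivAt
  have d2 := (d1.fun_pow 2).fun_mul (((hasDerivAt_pow (2 * N) z₀).const_mul (t : ℂ)).const_add 1)
  have d3 := (hasDerivAt_pow (2 * N) z₀).add_const (t : ℂ)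
  have d4 := (d3.congr_of_eventuallyEq (f₁ := fun z => f z ^ 2 * (1 + t * z ^ (2 * N))) (by
    filter_upwards [(isOpen_ann _ _).mem_nhds hm] with z hz using e z hz)).unique d2
  simp [hf0, hz0] at d4
  omega

lemma not_typeIII_two {r t : ℝ} (hr0 : 0 < r) (hr1 : r < 1) {N : ℕ} (hN : 0 < N) (h1 : 0 < t)
    (h2 : t < 1) {f : ℂ → ℂ} (hf : Bd r f)
    (h : ∀ z ∈ ann r 1, f z ^ 2 * lpoly N (two N 1 t) z =
      conj (lpoly N (two N 1 t) ((r : ℂ) ^ 2 / conj z))) : False := by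
  have hrc : (r : ℂ) ≠ 0 := by exact_mod_cast hr0.ne'
  set q := r ^ (2 * N) with hq
  have hq0 : 0 < q := pow_pos hr0 _
  have hq1 : q < 1 := pow_lt_one₀ hr0.le hr1 (by omega)
  have e : ∀ z ∈ ann r 1, f z ^ 2 * (1 + t * z ^ (2 * N)) = z ^ (2 * N) / q + t * q :=
    fun z hz => by
      have hz0 := ne_zero_of_mem_ann hr0.le hz
      rw [← mul_lpoly_two _ hz0, mul_left_comm, h z hz, lpoly_two, hq]
      simp [div_pow, pow_mul', sq]
      simp only [mul_pow]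
      field_simp
  have h3 := le_of_le_on_ann hr0 (ζ := 1) (by simpa using hr1) (by simp)
    (u := fun z => ‖z ^ (2 * N) / q + t * q‖) (v := fun z => ‖1 + t * z ^ (2 * N)‖)
    (by fun_prop) (by fun_prop) fun z hz => by
      rw [← e z hz, norm_mul, norm_pow]
      exact mul_le_of_le_one_left (norm_nonneg _) (pow_le_one₀ (norm_nonneg _) (hf.2 z hz))
  simp only [one_pow, mul_one] at h3
  have e1 : (1 / (q : ℂ) + t * q) = ((1 / q + t * q : ℝ) : ℂ) := by push_cast; ring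
  have e2 : (1 + (t : ℂ)) = ((1 + t : ℝ) : ℂ) := by push_cast; ring
  rw [e1, e2, Complex.norm_real, Complex.norm_real, Real.norm_of_nonneg (by positivity),
    Real.norm_of_nonneg (by positivity), div_add' _ _ _ hq0.ne', div_le_iff₀ hq0] at h3
  nlinarith [mul_pos (sub_pos.2 hq1) (show 0 < 1 - t * q by nlinarith)]

lemma ft_crit {r : ℝ} (hr0 : 0 < r) (hr1 : r < 1) {N : ℕ} (hN : 0 < N) :
    Bd r (ft N (r ^ (2 * N))) ∧ ∀ z ∈ ann r 1, ft N (r ^ (2 * N)) z ^ 2 *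
      (z ^ (-(N : ℤ)) + (r ^ (2 * N) : ℝ) * z ^ (N : ℤ)) =
        z ^ (N : ℤ) + (r ^ (2 * N) : ℝ) * z ^ (-(N : ℤ)) := by
  have key : ∀ z ∈ ann r 1, ∃ s, 0 < s ∧ s < 1 ∧ |r ^ (2 * N)| < s ^ (2 * N) ∧ z ∈ ann s 1 := by
    intro z hz
    obtain ⟨s, h1, h2⟩ := exists_between hz.1
    refine ⟨s, hr0.trans h1, h2.trans hz.2, ?_, h2, hz.2⟩
    rw [abs_of_pos (pow_pos hr0 _)]
    exact pow_lt_pow_left₀ h1 hr0.le (by omega)
  have _ := hr1
  refine ⟨⟨fun z hz => ?_, fun z hz => ?_⟩, fun z hz => ?_⟩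
  · obtain ⟨s, h1, h2, h3, h4⟩ := key z hz
    exact ((ft_Bd h1 h2 h3).1.differentiableAt ((isOpen_ann _ _).mem_nhds h4)).differentiableWithinAt
  · obtain ⟨s, h1, h2, h3, h4⟩ := key z hz
    exact (ft_Bd h1 h2 h3).2 z h4
  · obtain ⟨s, h1, h2, h3, h4⟩ := key z hz
    exact ft_sq h1 h2 h3 (ann_subset_cann _ _ h4)

lemma pair_two (N : ℕ) (t : ℂ) (v : Fin (2 * N + 1) → ℂ) :
    ∑ j, two N 1 t j * v j.rev = v (Fin.last _) + t * v 0 := by
  simp [two, add_mul, Finset.sum_add_distrib, Pi.single_apply]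

lemma Bd.neg {r : ℝ} {f : ℂ → ℂ} (hf : Bd r f) : Bd r fun z => -f z :=
  ⟨hf.1.neg, fun z hz => by rw [norm_neg]; exact hf.2 z hz⟩

lemma blaschke_bound {q s : ℝ} (h0 : 0 < q) (h1 : q < 1) {u w : ℂ} (hu : ‖u‖ ^ 2 ≤ s) (hs : s ≤ 1)
    (h : w ^ 2 * (1 + q * u) = u + q) : ‖w‖ ^ 2 ≤ 1 - (1 - q ^ 2) * (1 - s) / 8 := by
  have e1 : ‖1 + q * u‖ ^ 2 - ‖u + q‖ ^ 2 = (1 - q ^ 2) * (1 - ‖u‖ ^ 2) := by
    simp only [Complex.sq_norm, Complex.normSq_apply]
    simp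
    ring
  have hu1 : ‖u‖ ≤ 1 := (pow_le_one_iff_of_nonneg (norm_nonneg _) two_ne_zero).1 (hu.trans hs)
  have e2 : ‖1 + q * u‖ ≤ 2 := by
    refine (norm_add_le _ _).trans ?_
    rw [norm_one, norm_mul, Complex.norm_real, Real.norm_of_nonneg h0.le]
    nlinarith [norm_nonneg u]
  have e3 : ‖u + q‖ = ‖w‖ ^ 2 * ‖1 + q * u‖ := by rw [← h, norm_mul, norm_pow]
  have e4 : 0 < ‖1 + q * u‖ := by
    refine norm_pos_iff.2 (Complex.slitPlane_ne_zero (Complex.mem_slitPlane_of_norm_lt_one ?_))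
    rw [norm_mul, Complex.norm_real, Real.norm_of_nonneg h0.le]
    nlinarith [norm_nonneg u]
  rw [e3] at e1
  set x := ‖w‖ ^ 2
  set A := ‖1 + q * u‖
  have hq : 0 < 1 - q ^ 2 := by nlinarith
  have e5 : (1 - q ^ 2) * (1 - s) ≤ A ^ 2 * (1 - x ^ 2) := by
    have : (1 - q ^ 2) * (1 - s) ≤ (1 - q ^ 2) * (1 - ‖u‖ ^ 2) :=
      mul_le_mul_of_nonneg_left (by linarith) hq.le
    nlinarith
  have e6 : 0 ≤ (1 - q ^ 2) * (1 - s) := mul_nonneg hq.le (by linarith)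
  have e7 : 0 ≤ 1 - x ^ 2 := by
    by_contra hc
    nlinarith [mul_pos (pow_pos e4 2) (neg_pos.2 (not_le.1 hc))]
  have e8 : A ^ 2 ≤ 4 := by nlinarith
  nlinarith [mul_le_mul_of_nonneg_right e8 e7, sq_nonneg (1 - x)]

theorem unbounded_degree {r : ℝ} (hr0 : 0 < r) (hr1 : r < 1) {N : ℕ} (hN : 0 < N) (D : ℕ) :
    ∃ κ m a, BlaData r κ m a ∧ D ≤ a.card ∧ Bd r (bla r κ m a) ∧
      coeffVec r N (bla r κ m a) ∈ frontier (body r N) := by
  by_contra hcon
  push Not at hcon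
  have hσ := sqrt_mem hr0 hr1
  set q := r ^ (2 * N) with hq
  have hq0 : 0 < q := pow_pos hr0 _
  have hq1 : q < 1 := pow_lt_one₀ hr0.le hr1 (by omega)
  set t : ℕ → ℝ := fun n => q + (1 - q) / 2 * (1 / (n + 1)) with ht
  have ht1 : ∀ n, q < t n := fun n => by
    have : 0 < (1 - q) / 2 * (1 / ((n : ℝ) + 1)) := by
      have := sub_pos.2 hq1; positivity
    simp only [ht]; linarith
  have ht2 : ∀ n, t n < 1 := fun n => by
    have h1 : 1 / ((n : ℝ) + 1) ≤ 1 := by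
      rw [div_le_one (by positivity)]; linarith [Nat.cast_nonneg (α := ℝ) n]
    simp only [ht]; nlinarith
  have ht3 : Tendsto t atTop (𝓝 q) := by
    have := (tendsto_one_div_add_atTop_nhds_zero_nat (𝕜 := ℝ)).const_mul ((1 - q) / 2) |>.const_add q
    simpa only [mul_zero, add_zero] using this
  have key : ∀ n, ∃ f, Bd r f ∧ Cert r f (lpoly N (two N 1 (t n))) ∧ ∃ κ m a, BlaData r κ m a ∧
      a.card < D ∧ ∀ z ∈ ann r 1, f z = bla r κ m a z := fun n => by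
    obtain ⟨f, hf, hc⟩ := exists_max hr0 hr1 (two N 1 (t n))
    refine ⟨f, hf, hc, ?_⟩
    rcases cert_cases hr0 hr1 hf (differentiableOn_lpoly N _) hc with h | h | h
    · obtain ⟨κ, m, a, h1, h2, -⟩ := h.typeI hr0 hr1 (two_ne_zero' hN _)
      refine ⟨κ, m, a, h1, ?_, h2⟩
      by_contra hD
      refine hcon κ m a h1 (not_lt.1 hD) ⟨hf.1.congr fun z hz => (h2 z hz).symm,
        fun z hz => h2 z hz ▸ hf.2 z hz⟩ ?_
      have e : coeffVec r N (bla r κ m a) = coeffVec r N f := by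
        ext j
        rw [coeffVec, coeffVec, coeff_congr hr0 hr1 h2, coeff_eq_lc hr0]
      rw [e]
      exact (frontier_iff_cert hr0 hr1 hf).2 ⟨_, two_ne_zero' hN _, hc⟩
    · exact (not_typeII_two hr0 hN (ht1 n) (ht2 n) hf h).elim
    · exact (not_typeIII_two hr0 hr1 hN (hq0.trans (ht1 n)) (ht2 n) hf h).elim
  choose F hF hC κ m a hdat hcard hFb using key
  obtain ⟨f, hf, φ, hφ, h1, h2⟩ := exists_subseq hr0 hσ hF
  have hcv : ∀ j, Tendsto (fun n => coeffVec r N (F (φ n)) j) atTop (𝓝 (coeffVec r N f j)) :=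
    fun j => by simpa only [coeffVec, coeff_eq_lc hr0] using h1 _
  have htc : Tendsto (fun n => (t (φ n) : ℂ)) atTop (𝓝 (q : ℂ)) :=
    (Complex.continuous_ofReal.tendsto q).comp (ht3.comp hφ.tendsto_atTop)
  have hmax : ∀ g, Bd r g →
      (circleAverage (fun z => g z * lpoly N (two N 1 q) z) 0 √r).re ≤
        (circleAverage (fun z => f z * lpoly N (two N 1 q) z) 0 √r).re := fun g hg => by
    rw [CA_eq_pair hr0 hr1 hg.1, CA_eq_pair hr0 hr1 hf.1, pair_two, pair_two]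
    refine le_of_tendsto_of_tendsto'
      ((Complex.continuous_re.tendsto _).comp ((htc.mul_const _).const_add _))
      ((Complex.continuous_re.tendsto _).comp ((hcv _).add (htc.mul (hcv _)))) fun n => ?_
    have := (hC (φ n)).le hr0 hr1 (hF _) hg hσ
    rwa [CA_eq_pair hr0 hr1 hg.1, CA_eq_pair hr0 hr1 (hF _).1, pair_two, pair_two] at this
  obtain ⟨hB, hsq⟩ := ft_crit hr0 hr1 hN
  rw [← hq] at hB hsq
  have hp0 := lpoly_ne_zero hr0.le hr1 (two_ne_zero' hN (q : ℂ))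
  have hdp := differentiableOn_lpoly_ann N (two N 1 q) (b := 1) hr0.le
  have hfsq : ∀ z ∈ ann r 1, f z ^ 2 = ft N q z ^ 2 := by
    have fin : ∀ g, Bd r g → Tight g (lpoly N (two N 1 q)) → ∀ z ∈ ann r 1, f z = g z :=
      fun g hg tg z hz => (cert_of_tight hdp tg).unique hr0 hr1 hg hf hp0 hσ
        (le_antisymm ((cert_of_tight hdp tg).le hr0 hr1 hg hf hσ) (hmax g hg)) hz
    rcases tight_of_sq hr0 hr1 hB (differentiableOn_lpoly N (two N 1 q)).continuousOn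
      (fun z hz h0 => by
        have hz0 : z ≠ 0 := norm_pos_iff.1 (by rw [hz]; exact one_pos)
        have h3 := mul_lpoly_two (N := N) (q : ℂ) hz0
        rw [h0, mul_zero] at h3
        have h4 := congrArg norm (neg_eq_of_add_eq_zero_right h3.symm)
        rw [norm_neg, norm_one, norm_mul, norm_pow, hz, Complex.norm_real,
          Real.norm_of_nonneg hq0.le] at h4
        simp at h4
        linarith)
      (fun z hz => by
        rw [refl, lpoly_two, lpoly_two, one_mul, hsq z hz]; simp) with h3 | h3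
    · exact fun z hz => by rw [fin _ hB h3 z hz]
    · intro z hz
      rw [fin _ hB.neg (by simpa [Tight] using h3) z hz]
      ring
  set η := (1 - q ^ 2) * (1 - q) / 8 with hη
  have hη0 : 0 < η := by
    have : 0 < 1 - q ^ 2 := by nlinarith
    have := sub_pos.2 hq1
    positivity
  have hbd : ∀ z ∈ ann r 1, ‖z‖ ≤ √r → ‖f z‖ ^ 2 ≤ 1 - η := fun z hz hzr => by
    have hz0 := ne_zero_of_mem_ann hr0.le hz
    refine blaschke_bound hq0 hq1 (u := z ^ (2 * N)) ?_ hq1.le ?_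
    · have h3 : ‖z‖ ^ 2 ≤ r := by
        have := pow_le_pow_left₀ (norm_nonneg _) hzr 2
        rwa [Real.sq_sqrt hr0.le] at this
      rw [norm_pow, ← pow_mul, mul_comm, pow_mul, hq]
      exact pow_le_pow_left₀ (by positivity) h3 _
    · have h3 := hsq z hz
      rw [← hfsq z hz, zpow_neg, zpow_natCast] at h3
      have h4 : z ^ N * (z ^ N)⁻¹ = 1 := mul_inv_cancel₀ (pow_ne_zero _ hz0)
      rw [two_mul, pow_add]
      linear_combination z ^ N * h3 - (f z ^ 2 - q) * h4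
  have hcount : (⋃ n, (fun w : ℂ => ‖w‖) '' {w | w ∈ a n}).Countable :=
    countable_iUnion fun n => ((a n).finite_toSet.image _).countable
  have hexp : r < r * Real.exp (η / (2 * D + 1)) :=
    lt_mul_of_one_lt_right hr0 (Real.one_lt_exp_iff.2 (by positivity))
  obtain ⟨ρ, hρ1, hρ2⟩ := (hcount.dense_compl ℝ).exists_mem_open isOpen_Ioo
    (nonempty_Ioo.2 (lt_min hσ.1 hexp))
  have hρ : ρ ∈ Ioo r 1 := ⟨hρ2.1, (hρ2.2.trans_le (min_le_left _ _)).trans hσ.2⟩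
  have hρ0 : 0 < ρ := hr0.trans hρ.1
  have hlog : -(η / (2 * D + 1)) ≤ Real.log (r / ρ) := by
    rw [Real.le_log_iff_exp_le (by positivity), Real.exp_neg, le_div_iff₀ hρ0, inv_mul_le_iff₀
      (Real.exp_pos _), mul_comm]
    exact (hρ2.2.trans_le (min_le_right _ _)).le
  have hlog0 : Real.log (r / ρ) ≤ 0 :=
    Real.log_nonpos (by positivity) ((div_le_one hρ0).2 hρ.1.le)
  have hlow : ∀ n, 1 + 2 * (D * Real.log (r / ρ)) ≤ circleAverage (fun z => ‖F n z‖ ^ 2) 0 ρ :=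
    fun n => by
      obtain ⟨c, hc1, hc2⟩ := good_bla hr0 hr1 hρ (hdat n) fun w hw h =>
        hρ1 (mem_iUnion.2 ⟨n, w, hw, h⟩)
      have h3 := (hc2.congr hρ0 fun z hz => hFb n z (mem_ann_of_norm hρ hz)).le_sq hρ0
      have h4 : ((a n).card : ℝ) ≤ D := by exact_mod_cast (hcard n).le
      nlinarith
  have hlim := tendsto_CA hρ0 (G := fun n z => ‖F (φ n) z‖ ^ 2) (g := fun z => ‖f z‖ ^ 2)
    (fun n => (contOn_sphere (hF _).1 hρ).norm.pow 2)
    (fun n z hz => by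
      rw [Real.norm_of_nonneg (by positivity)]
      exact pow_le_one₀ (norm_nonneg _) ((hF _).2 z (mem_ann_of_norm hρ hz)))
    fun z hz => (h2 z (mem_ann_of_norm hρ hz)).norm.pow 2
  have h5 := ge_of_tendsto' hlim fun n => hlow (φ n)
  have h6 := CA_mono hρ0 ((contOn_sphere hf.1 hρ).norm.pow 2) (continuousOn_const (c := 1 - η))
    fun z hz => hbd z (mem_ann_of_norm hρ hz) (by rw [hz]; exact (hρ2.2.trans_le (min_le_left _ _)).le)
  rw [Real.circleAverage_const] at h6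
  have h7 : -(η / (2 * D + 1)) * (2 * D + 1) = -η := by field_simp
  have h8 : 0 < η / (2 * D + 1) := by positivity
  have h9 := mul_le_mul_of_nonneg_left hlog (show (0 : ℝ) ≤ 2 * D by positivity)
  have h10 : circleAverage (fun z => ‖f z‖ ^ 2) 0 ρ ≤ 1 - η := h6
  nlinarith

end Pool.Agent.MP_faa29e_an
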