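import Mathlib.RingTheory.Flat.TorsionFree
import Mathlib.RingTheory.TotallySplit
import Mathlib.RingTheory.Etale.Weakly
import Pool.Agent.MP_faa29e_an.Degree
import Pool.Agent.MP_faa29e_an.DefsDesc

/-!
Descriptions of the Laurent coefficient body.
-/

open Metric Set Filter Topology
open Real (circleAverage)
open scoped Real ComplexConjugate

namespace Pool.Agent.MP_faa29e_an

/-- The polynomial with coefficients `x` in the variable `z / ρ`. -/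
noncomputable def tp {n : ℕ} (ρ : ℝ) (x : Fin n → ℂ) (z : ℂ) : ℂ := ∑ j, x j * (z / ρ) ^ (j : ℕ)

lemma continuous_tp {n : ℕ} (ρ : ℝ) (x : Fin n → ℂ) : Continuous (tp ρ x) := by
  unfold tp; fun_prop

lemma CA_form {n : ℕ} {ρ : ℝ} (hρ : 0 < ρ) {g : ℂ → ℂ} (hg : ContinuousOn g (sphere 0 ρ))
    (x y : Fin n → ℂ) :
    circleAverage (fun z => g z * (tp ρ x z * conj (tp ρ y z))) 0 ρ =
      ∑ i, conj (y i) * ∑ j : Fin n, (ρ : ℂ) ^ ((i : ℤ) - j) * lc g ρ ((i : ℤ) - j) * x j := by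
  have hρc : (ρ : ℂ) ≠ 0 := by exact_mod_cast hρ.ne'
  rw [CA_congr hρ (G := fun z => ∑ i : Fin n, ∑ j : Fin n,
    (conj (y i) * ((ρ : ℂ) ^ ((i : ℤ) - j) * x j)) * (g z * z ^ (-((i : ℤ) - j)))) fun z hz => ?_]
  · rw [CA_sum _ hρ fun i _ => continuousOn_finsetSum _ fun j _ =>
      (hg.fun_mul (continuousOn_zpow_sphere hρ _)).const_mul _]
    refine Finset.sum_congr rfl fun i _ => ?_
    rw [CA_sum _ hρ fun j _ => (hg.fun_mul (continuousOn_zpow_sphere hρ _)).const_mul _,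
      Finset.mul_sum]
    refine Finset.sum_congr rfl fun j _ => ?_
    rw [CA_const_mul, lc]
    ring
  · have hz0 : z ≠ 0 := norm_pos_iff.1 (by rw [hz]; exact hρ)
    simp only [tp, map_sum, Finset.mul_sum, Finset.sum_mul]
    refine Finset.sum_congr rfl fun i _ => Finset.sum_congr rfl fun j _ => ?_
    rw [map_mul, map_pow, map_div₀, conj_eq_of_norm hρ hz, Complex.conj_ofReal, neg_sub,
      zpow_sub₀ hρc, zpow_sub₀ hz0, zpow_natCast, zpow_natCast, zpow_natCast, zpow_natCast,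
      show (ρ : ℂ) ^ 2 * z⁻¹ / ρ = ρ / z by field_simp, div_pow, div_pow]
    field_simp

lemma sum_conj_mul {n : ℕ} (x : Fin n → ℂ) :
    ∑ i, conj (x i) * x i = ((∑ i, ‖x i‖ ^ 2 : ℝ) : ℂ) := by
  push_cast
  exact Finset.sum_congr rfl fun i _ => Complex.conj_mul' _

lemma CA_tp_sq {n : ℕ} {ρ : ℝ} (hρ : 0 < ρ) (x : Fin n → ℂ) :
    circleAverage (fun z => ‖tp ρ x z‖ ^ 2) 0 ρ = ∑ j, ‖x j‖ ^ 2 := by
  have h := CA_form hρ (g := fun _ => 1) continuousOn_const x x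
  have h1 : ∀ k : ℤ, lc (fun _ => 1) ρ k = if k = 0 then 1 else 0 := fun k => by
    simp only [lc, one_mul, CA_zpow hρ, neg_eq_zero]
  simp only [h1, sub_eq_zero, Nat.cast_inj, Fin.val_inj, mul_ite, mul_one, mul_zero, ite_mul,
    zero_mul, Finset.sum_ite_eq, Finset.mem_univ, if_true, sub_self, zpow_zero, one_mul,
    Complex.mul_conj'] at h
  rw [sum_conj_mul] at h
  have h2 := CA_ofReal hρ (F := fun z => ‖tp ρ x z‖ ^ 2)
    ((continuous_tp ρ x).norm.pow 2).continuousOn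
  push_cast at h2
  exact_mod_cast h2.symm.trans h

lemma contr_Ioo {r ρ σ : ℝ} (hr0 : 0 < r) {f : ℂ → ℂ} (hf : Bd r f) (hρ : ρ ∈ Ioo r 1)
    (hσ : σ ∈ Ioo r 1) (n : ℕ) :
    Contr fun i j : Fin n => (ρ : ℂ) ^ ((i : ℤ) - j) * lc f σ ((i : ℤ) - j) := by
  intro x
  have hρ0 := hr0.trans hρ.1
  simp only [lc_eq_ann hr0.le hf.1 hσ hρ]
  set y : Fin n → ℂ := fun i =>
    ∑ j : Fin n, (ρ : ℂ) ^ ((i : ℤ) - j) * lc f ρ ((i : ℤ) - j) * x j with hy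
  have h := CA_form hρ0 (contOn_sphere hf.1 hρ) x y
  change _ = ∑ i, conj (y i) * y i at h
  rw [sum_conj_mul] at h
  have cx := (continuous_tp ρ x).continuousOn (s := sphere 0 ρ)
  have cy := (continuous_tp ρ y).continuousOn (s := sphere 0 ρ)
  have h1 := norm_CA_le (fun z => f z * (tp ρ x z * conj (tp ρ y z))) ρ
  have h2 := CA_mono hρ0 (F := fun z => ‖f z * (tp ρ x z * conj (tp ρ y z))‖)
    (G := fun z => 2⁻¹ * (‖tp ρ x z‖ ^ 2 + ‖tp ρ y z‖ ^ 2))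
    ((contOn_sphere hf.1 hρ).mul (cx.mul (Complex.continuous_conj.comp_continuousOn cy))).norm
    (((cx.norm.pow 2).add (cy.norm.pow 2)).const_mul _) fun z hz => by
      rw [norm_mul, norm_mul, Complex.norm_conj]
      have := hf.2 z (mem_ann_of_norm hρ hz)
      nlinarith [mul_le_of_le_one_left (mul_nonneg (norm_nonneg (tp ρ x z))
        (norm_nonneg (tp ρ y z))) this, sq_nonneg (‖tp ρ x z‖ - ‖tp ρ y z‖)]
  rw [CA_const_mul_real, CA_add hρ0 (F := fun z => ‖tp ρ x z‖ ^ 2) (G := fun z => ‖tp ρ y z‖ ^ 2)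
    (cx.norm.pow 2) (cy.norm.pow 2), CA_tp_sq hρ0, CA_tp_sq hρ0] at h2
  rw [h, Complex.norm_real, Real.norm_of_nonneg (by positivity)] at h1
  change ∑ i, ‖y i‖ ^ 2 ≤ _
  linarith

lemma neBot_Icc {r ρ : ℝ} (hr1 : r < 1) (hρ : ρ ∈ Icc r 1) : (𝓝[Ioo r 1] ρ).NeBot :=
  mem_closure_iff_nhdsWithin_neBot.1 (by rwa [closure_Ioo hr1.ne])

lemma contr_Icc {r ρ σ : ℝ} (hr0 : 0 < r) (hr1 : r < 1) {f : ℂ → ℂ} (hf : Bd r f)
    (hρ : ρ ∈ Icc r 1) (hσ : σ ∈ Ioo r 1) (n : ℕ) :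
    Contr fun i j : Fin n => (ρ : ℂ) ^ ((i : ℤ) - j) * lc f σ ((i : ℤ) - j) := by
  intro x
  have := neBot_Icc hr1 hρ
  have hρc : (ρ : ℂ) ≠ 0 := by exact_mod_cast (hr0.trans_le hρ.1).ne'
  have hc : ContinuousAt (fun t : ℝ =>
      ∑ i : Fin n, ‖∑ j : Fin n, (t : ℂ) ^ ((i : ℤ) - j) * lc f σ ((i : ℤ) - j) * x j‖ ^ 2) ρ :=
    tendsto_finsetSum _ fun i _ => (tendsto_finsetSum _ fun j _ =>
      ((Complex.continuous_ofReal.continuousAt.zpow₀ _ (Or.inl hρc)).mul_const _).mul_const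
        _).norm.pow 2
  refine le_of_tendsto (hc.tendsto.mono_left (nhdsWithin_le_nhds (s := Ioo r 1))) ?_
  filter_upwards [self_mem_nhdsWithin] with t ht
  exact contr_Ioo hr0 hf ht hσ n x

lemma body_subset_shadow {r : ℝ} (hr0 : 0 < r) (hr1 : r < 1) (N M : ℕ) :
    body r N ⊆ shadow r N M := by
  rintro _ ⟨f, hf, rfl⟩
  have hσ := sqrt_mem hr0 hr1
  refine ⟨lc f √r, fun j => by rw [coeffVec, coeff_eq_lc hr0], ?_,
    contr_Icc hr0 hr1 hf ⟨le_rfl, hr1.le⟩ hσ _⟩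
  simpa using contr_Icc hr0 hr1 hf ⟨hr1.le, le_rfl⟩ hσ (M + 1)

/-- The Toeplitz form of `a` in the vector `u`. -/
noncomputable def tf {n : ℕ} (a : ℤ → ℂ) (u : Fin n → ℂ) (z : ℂ) : ℂ :=
  ∑ i, ∑ j, conj (u i) * u j * a ((i : ℤ) - j) * z ^ ((i : ℤ) - j)

lemma differentiableOn_tf {n : ℕ} (a : ℤ → ℂ) (u : Fin n → ℂ) :
    DifferentiableOn ℂ (tf a u) {0}ᶜ :=
  DifferentiableOn.fun_sum fun _ _ => DifferentiableOn.fun_sum fun _ _ _ hz =>
    ((differentiableAt_zpow.2 (Or.inl hz)).const_mul _).differentiableWithinAt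

lemma norm_tf_le {n : ℕ} {ρ : ℝ} (hρ : 0 < ρ) {a : ℤ → ℂ} {u : Fin n → ℂ}
    (h : Contr fun i j : Fin n => (ρ : ℂ) ^ ((i : ℤ) - j) * a ((i : ℤ) - j))
    (hu : ∑ j, ‖u j‖ ^ 2 ≤ 1) {z : ℂ} (hz : ‖z‖ = ρ) : ‖tf a u z‖ ≤ 1 := by
  have hρc : (ρ : ℂ) ≠ 0 := by exact_mod_cast hρ.ne'
  have hz0 : z ≠ 0 := norm_pos_iff.1 (by rw [hz]; exact hρ)
  have hn : ‖z / ρ‖ = 1 := by
    rw [norm_div, hz, Complex.norm_real, Real.norm_of_nonneg hρ.le, div_self hρ.ne']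
  set x : Fin n → ℂ := fun j => u j / (z / ρ) ^ (j : ℕ) with hx
  set y : Fin n → ℂ := fun i =>
    ∑ j : Fin n, (ρ : ℂ) ^ ((i : ℤ) - j) * a ((i : ℤ) - j) * x j with hy
  have h1 : ∑ i, ‖y i‖ ^ 2 ≤ ∑ j, ‖x j‖ ^ 2 := h x
  have h2 : ∀ j, ‖x j‖ = ‖u j‖ := fun j => by simp only [hx, norm_div (u j), norm_pow, hn]; simp
  have h3 : tf a u z = ∑ i, conj (u i) * (z / ρ) ^ (i : ℕ) * y i := by
    simp only [tf, hy, hx, Finset.mul_sum]
    refine Finset.sum_congr rfl fun i _ => Finset.sum_congr rfl fun j _ => ?_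
    rw [zpow_sub₀ hρc, zpow_sub₀ hz0, zpow_natCast, zpow_natCast, zpow_natCast, zpow_natCast,
      div_pow, div_pow]
    field_simp
  simp only [h2] at h1
  rw [h3]
  refine (norm_sum_le _ _).trans ((Finset.sum_le_sum (g := fun i => 2⁻¹ * (‖u i‖ ^ 2 + ‖y i‖ ^ 2))
    fun i _ => ?_).trans ?_)
  · rw [norm_mul, norm_mul, norm_pow, hn, Complex.norm_conj, one_pow, mul_one]
    nlinarith [sq_nonneg (‖u i‖ - ‖y i‖)]
  · rw [← Finset.mul_sum, Finset.sum_add_distrib]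
    linarith

lemma lc_tf {n : ℕ} {σ : ℝ} (hσ : 0 < σ) (a : ℤ → ℂ) (u : Fin n → ℂ) (k : ℤ) :
    lc (tf a u) σ k =
      (∑ i : Fin n, ∑ j : Fin n, if (i : ℤ) - j = k then conj (u i) * u j else 0) * a k := by
  have c := fun l : ℤ => continuousOn_zpow_sphere hσ l
  simp only [lc, tf, Finset.sum_mul]
  rw [CA_sum _ hσ fun i _ => continuousOn_finsetSum _ fun j _ =>
    ((c _).const_mul _).fun_mul (c _)]
  refine Finset.sum_congr rfl fun i _ => ?_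
  rw [CA_sum _ hσ fun j _ => ((c _).const_mul _).fun_mul (c _)]
  refine Finset.sum_congr rfl fun j _ => ?_
  rw [CA_congr hσ (G := fun z => conj (u i) * u j * a ((i : ℤ) - j) * z ^ ((i : ℤ) - j - k))
    fun z hz => by
      rw [mul_assoc, ← zpow_add₀ (norm_pos_iff.1 (by rw [hz]; exact hσ)), sub_eq_add_neg _ k],
    CA_const_mul, CA_zpow hσ]
  simp only [sub_eq_zero]
  split_ifs with h
  · rw [h, mul_one]
  · simp

lemma count_pairs (n : ℕ) (k : ℤ) (hk : |k| ≤ n) :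
    (∑ i : Fin n, ∑ j : Fin n, if (i : ℤ) - j = k then (1 : ℤ) else 0) = n - |k| := by
  have h1 : ∀ (m : ℕ) (i : ℤ), (∑ j ∈ Finset.range m, if i - j = k then (1 : ℤ) else 0) =
      if 0 ≤ i - k ∧ i - k < m then 1 else 0 := fun m i => by
    induction m with
    | zero => simp
    | succ m ih => rw [Finset.sum_range_succ, ih]; push_cast; split_ifs <;> omega
  have h2 : ∀ m : ℕ, (∑ i ∈ Finset.range m, if 0 ≤ (i : ℤ) - k ∧ (i : ℤ) - k < n then (1 : ℤ) else 0)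
      = max 0 (min (m : ℤ) (n + k) - max 0 k) := fun m => by
    induction m with
    | zero => simp
    | succ m ih => rw [Finset.sum_range_succ, ih]; push_cast; split_ifs <;> omega
  rw [Fin.sum_univ_eq_sum_range (fun i => ∑ j : Fin n, if (i : ℤ) - j = k then (1 : ℤ) else 0)]
  have h3 : ∀ i : ℤ, (∑ j : Fin n, if i - j = k then (1 : ℤ) else 0) =
      if 0 ≤ i - k ∧ i - k < n then 1 else 0 := fun i => by
    rw [← h1, Fin.sum_univ_eq_sum_range (fun j => if i - (j : ℤ) = k then (1 : ℤ) else 0)]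
  simp only [h3, h2]
  rcases abs_cases k with h | h <;> omega

theorem fejer_mem {r : ℝ} (hr0 : 0 < r) {N M : ℕ} (hM : N ≤ M) {v : Fin (2 * N + 1) → ℂ}
    (hv : v ∈ shadow r N M) :
    (fun j : Fin (2 * N + 1) => (1 - (|(j : ℤ) - N| : ℤ) / (M + 1) : ℂ) * v j) ∈ body r N := by
  obtain ⟨a, ha, h1, h2⟩ := hv
  have hM0 : (0 : ℝ) < M + 1 := by positivity
  set u : Fin (M + 1) → ℂ := fun _ => (√((M : ℝ) + 1)⁻¹ : ℝ) with hu
  have hu1 : ∀ j, ‖u j‖ ^ 2 = ((M : ℝ) + 1)⁻¹ := fun j => by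
    rw [hu, Complex.norm_real, Real.norm_of_nonneg (Real.sqrt_nonneg _), Real.sq_sqrt (by positivity)]
  have hu2 : ∑ j, ‖u j‖ ^ 2 ≤ 1 := by
    simp only [hu1, Finset.sum_const, Finset.card_univ, Fintype.card_fin, nsmul_eq_mul]
    push_cast
    rw [mul_inv_cancel₀ hM0.ne']
  have hd := differentiableOn_tf a u
  refine ⟨tf a u, ⟨hd.mono (ann_subset_compl hr0.le), fun z hz => max_principle
    (hd.continuousOn.mono fun w hw => norm_pos_iff.1 (hr0.trans_le hw.1))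
    (hd.mono (ann_subset_compl hr0.le)) (fun w hw => norm_tf_le hr0 h2 hu2 hw)
    (fun w hw => norm_tf_le one_pos (by simpa using h1) hu2 hw) hz⟩, funext fun j => ?_⟩
  rw [coeffVec, coeff_eq_lc hr0, lc_tf (Real.sqrt_pos.2 hr0), ha]
  congr 1
  have h3 : ∀ i l, conj (u i) * u l = ((M : ℂ) + 1)⁻¹ := fun i l => by
    have := Complex.conj_mul' (u i)
    rw [← Complex.ofReal_pow, hu1 i] at this
    push_cast at this
    exact this
  have h4 := count_pairs (M + 1) ((j : ℤ) - N) (by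
    have := j.isLt
    rw [abs_le]; constructor <;> omega)
  have h5 := congrArg (fun t : ℤ => (t : ℂ) * ((M : ℂ) + 1)⁻¹) h4
  have hMc : (M : ℂ) + 1 ≠ 0 := by exact_mod_cast hM0.ne'
  simp only [Int.cast_sum, Int.cast_ite, Int.cast_one, Int.cast_zero, Finset.sum_mul, ite_mul,
    one_mul, zero_mul] at h5
  simp only [h3]
  rw [h5]
  push_cast
  field_simp

theorem mem_body_of_shadow {r : ℝ} (hr0 : 0 < r) (hr1 : r < 1) {N : ℕ} {v : Fin (2 * N + 1) → ℂ}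
    (hv : ∀ M, v ∈ shadow r N M) : v ∈ body r N := by
  refine (isClosed_body hr0 hr1 N).mem_of_tendsto (b := atTop) (f := fun (M : ℕ) j =>
    (1 - (|(j : ℤ) - N| : ℤ) / (M + 1) : ℂ) * v j) (tendsto_pi_nhds.2 fun j => ?_) ?_
  · have h := (((tendsto_one_div_add_atTop_nhds_zero_nat (𝕜 := ℂ)).const_mul
      ((|(j : ℤ) - N| : ℤ) : ℂ)).const_sub 1).mul_const (v j)
    simpa only [mul_zero, sub_zero, one_mul, mul_one_div] using h
  · filter_upwards [eventually_ge_atTop N] with M hM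
    exact fejer_mem hr0 hM (hv M)

lemma re_CA_le {r ρ σ : ℝ} (hr0 : 0 < r) (hr1 : r < 1) {f γ : ℂ → ℂ} (hf : Bd r f)
    (hγ : DifferentiableOn ℂ γ {0}ᶜ) (hρ : ρ ∈ Icc r 1) (hσ : σ ∈ Ioo r 1) :
    (circleAverage (fun z => f z * γ z) 0 σ).re ≤ circleAverage (fun z => ‖γ z‖) 0 ρ := by
  have := neBot_Icc hr1 hρ
  have hγ' := hγ.mono (ann_subset_compl (b := 1) hr0.le)
  have h1 : ContinuousOn (circleAverage (fun z => ‖γ z‖) 0) (Icc r 1) :=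
    Real.ContinuousOn.circleAverage (c := 0) (hγ.continuousOn.norm.mono fun z hz =>
      norm_pos_iff.1 (hr0.trans_le (by simpa using hz.1))) fun t ht => (hr0.trans_le ht.1).le
  refine ge_of_tendsto ((h1 ρ hρ).tendsto.mono_left (nhdsWithin_mono _ Ioo_subset_Icc_self)) ?_
  filter_upwards [self_mem_nhdsWithin] with t ht
  have h2 := tight_nonneg hr0 hf ht (γ := γ)
  rw [tight_eq hr0 hf hγ' ht hσ] at h2
  linarith

lemma differentiableOn_fin (t : Finset ℤ) (b : ℤ → ℂ) :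
    DifferentiableOn ℂ (fun z : ℂ => ∑ k ∈ t, b k * z ^ k) {0}ᶜ :=
  DifferentiableOn.fun_sum fun _ _ _ hz =>
    ((differentiableAt_zpow.2 (Or.inl hz)).const_mul _).differentiableWithinAt

theorem dual_le {r : ℝ} (hr0 : 0 < r) (hr1 : r < 1) {N : ℕ} {v : Fin (2 * N + 1) → ℂ}
    (hv : v ∈ body r N) (c : Fin (2 * N + 1) → ℂ) (t : Finset ℤ) (b : ℤ → ℂ) :
    (∑ j, c j * v j.rev).re ≤
      circleAverage (fun z => ‖lpoly N c z - ∑ k ∈ t, b k * z ^ k‖) 0 1 +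
        circleAverage (fun z : ℂ => ‖∑ k ∈ t, b k * z ^ k‖) 0 r := by
  obtain ⟨f, hf, rfl⟩ := hv
  have hσ := sqrt_mem hr0 hr1
  have hb := differentiableOn_fin t b
  have hp := (differentiableOn_lpoly N c).sub hb
  have h1 := re_CA_le hr0 hr1 hf hp ⟨hr1.le, le_rfl⟩ hσ
  have h2 := re_CA_le hr0 hr1 hf hb ⟨le_rfl, hr1.le⟩ hσ
  have h3 := CA_add (hr0.trans hσ.1)
    (contOn_sphere (hf.1.mul (hp.mono (ann_subset_compl hr0.le))) hσ)
    (contOn_sphere (hf.1.mul (hb.mono (ann_subset_compl hr0.le))) hσ)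
  simp only [Pi.mul_apply, Pi.sub_apply, ← mul_add, sub_add_cancel] at h1 h3
  rw [← CA_eq_pair hr0 hr1 hf.1, h3, Complex.add_re]
  exact add_le_add h1 h2

lemma Tight.value {r σ : ℝ} (hr0 : 0 < r) (hr1 : r < 1) {f γ Γ : ℂ → ℂ} (hf : Bd r f)
    (hγ : DifferentiableOn ℂ γ (ann r 1)) (h : Tight f γ) (hσ : σ ∈ Ioo r 1)
    (a1 : DifferentiableOn ℂ Γ (ann r r⁻¹)) (a2 : ∀ z ∈ ann r 1, Γ z = γ z) :
    (circleAverage (fun z => f z * γ z) 0 σ).re = circleAverage (fun z => ‖Γ z‖) 0 1 := by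
  refine tendsto_nhds_unique_of_eventuallyEq (h.tendsto_M1 hr0 hr1 hf hγ hσ)
    (tendsto_CA_one hr0 hr1 (H := fun z => ‖Γ z‖) (a1.continuousOn.norm.mono fun z hz =>
      ⟨hz.1, hz.2.trans_lt (one_lt_inv' hr0 hr1)⟩)) ?_
  filter_upwards [ev_Ioo hr1] with ρ hρ
  exact CA_congr (hr0.trans hρ.1) fun z hz => by rw [a2 z (mem_ann_of_norm hρ hz)]

lemma Cert.value {r σ : ℝ} (hr0 : 0 < r) (hr1 : r < 1) {f p : ℂ → ℂ} (hf : Bd r f)
    (hp : DifferentiableOn ℂ p {0}ᶜ) (h : Cert r f p) (hσ : σ ∈ Ioo r 1) :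
    ∃ β, AnalyticOnNhd ℂ β (cann r 1) ∧ (circleAverage (fun z => f z * p z) 0 σ).re =
      circleAverage (fun z => ‖p z - β z‖) 0 1 + circleAverage (fun z => ‖β z‖) 0 r := by
  obtain ⟨γ₁, γ₂, h₁, h₂, hs, t₁, t₂⟩ := h
  have hri := one_lt_inv' hr0 hr1
  obtain ⟨Γ₁, a1, a2, -⟩ := t₁.structure hr0 hr1 hf h₁
  obtain ⟨Γ₂, b1, b2, -⟩ := t₂.structure hr0 hr1 (hf.inv hr0) h₂
  have hT : ∀ z : ℂ, ‖z‖ = r → ‖(r : ℂ) / z‖ = 1 := fun z hz => by
    rw [norm_r_div hr0, hz, div_self hr0.ne']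
  have hz0 : ∀ z : ℂ, ‖z‖ = r → z ≠ 0 := fun z hz => norm_pos_iff.1 (by rw [hz]; exact hr0)
  have hmem : ∀ z : ℂ, ‖z‖ = 1 → z ∈ ann r r⁻¹ := fun z hz => mem_ann_of_norm ⟨hr1, hri⟩ hz
  obtain ⟨β, B1, B2, B3, B4⟩ := glue hr0 hr1 (u₁ := fun z => p z - Γ₁ z)
    (u₂ := fun z => Γ₂ (r / z)) (differentiableOn_inv_comp hr0 h₂)
    (fun z hz => by rw [a2 z hz, ← hs z hz]; ring)
    (fun z hz => b2 _ (inv_mem_ann hr0 hz))
    (fun z hz => (hp.analyticOnNhd isOpen_compl_singleton z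
      (ne_zero_of_mem_ann hr0.le (hmem z hz))).sub (a1.analyticOnNhd (isOpen_ann _ _) z (hmem z hz)))
    (fun z hz => (b1.analyticOnNhd (isOpen_ann _ _) _ (hmem _ (hT z hz))).comp
      (f := fun z => (r : ℂ) / z) (analyticAt_r_div (hz0 z hz)))
  refine ⟨β, B1, ?_⟩
  rw [split_CA hr0 hf.1 h₁ h₂ hs hσ, Complex.add_re, t₁.value hr0 hr1 hf h₁ hσ a1 a2,
    t₂.value hr0 hr1 (hf.inv hr0) h₂ (inv_mem_Ioo hr0 hσ) b1 b2]
  congr 1
  · exact CA_congr one_pos fun z hz => by rw [B3 z hz, sub_sub_cancel]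
  · rw [CA_congr hr0 (G := fun z => ‖Γ₂ (r / z)‖) fun z hz => by rw [B4 z hz],
      CA_inv (fun z => ‖Γ₂ z‖), div_self hr0.ne']

lemma approx {β : ℂ → ℂ} {a b ρ σ : ℝ} (ha : 0 ≤ a) (hd : DifferentiableOn ℂ β (ann a b))
    (hρ : ρ ∈ Ioo a b) (hσ : σ ∈ Ioo a b) {ε : ℝ} (hε : 0 < ε) :
    ∀ᶠ t : Finset ℤ in atTop, ∀ z : ℂ, ‖z‖ = ρ → ‖β z - ∑ k ∈ t, lc β σ k * z ^ k‖ ≤ ε := by
  have h := tendstoUniformlyOn_tsum (f := fun k (z : ℂ) => lc β σ k * z ^ k) (s := {z | ‖z‖ = ρ})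
    (summable_lc ha hd hσ hρ) fun k z hz => by rw [norm_mul, norm_zpow, hz]
  filter_upwards [Metric.tendstoUniformlyOn_iff.1 h ε hε] with t ht z hz
  have h1 := ht z hz
  rw [(hasSum_lc ha hd hσ (mem_ann_of_norm hρ hz)).tsum_eq, dist_eq_norm] at h1
  exact h1.le

theorem mem_body_of_dual {r : ℝ} (hr0 : 0 < r) (hr1 : r < 1) {N : ℕ} {v : Fin (2 * N + 1) → ℂ}
    (hv : ∀ (c : Fin (2 * N + 1) → ℂ) (t : Finset ℤ) (b : ℤ → ℂ), (∑ j, c j * v j.rev).re ≤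
      circleAverage (fun z => ‖lpoly N c z - ∑ k ∈ t, b k * z ^ k‖) 0 1 +
        circleAverage (fun z : ℂ => ‖∑ k ∈ t, b k * z ^ k‖) 0 r) : v ∈ body r N := by
  by_contra hn
  have hσ := sqrt_mem hr0 hr1
  obtain ⟨φ, u, h1, h2⟩ := RCLike.geometric_hahn_banach_closed_point (𝕜 := ℂ)
    (convex_body hr0 hr1 N) (isClosed_body hr0 hr1 N) hn
  set c : Fin (2 * N + 1) → ℂ := fun j => φ (Pi.single j.rev 1)
  have hφc : ∀ v, φ v = ∑ j, c j * v j.rev := fun v => by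
    conv_lhs => rw [pi_eq_sum_univ' v]
    rw [map_sum, ← Equiv.sum_comp Fin.revPerm]
    simp [c, mul_comm]
  obtain ⟨f, hf, hc⟩ := exists_max hr0 hr1 c
  have hp := differentiableOn_lpoly N c
  obtain ⟨β, hβ, hval⟩ := hc.value hr0 hr1 hf hp hσ
  have h3 : (φ (coeffVec r N f)).re < u := h1 _ ⟨f, hf, rfl⟩
  have h4 : u < (φ v).re := h2
  rw [hφc, ← CA_eq_pair hr0 hr1 hf.1, hval] at h3
  rw [hφc] at h4
  obtain ⟨a, b, ha0, ha, hb, hd⟩ := exists_larger hr0 hr1 hβ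
  have hε : 0 < ((∑ j, c j * v j.rev).re - u) / 2 := by linarith
  have m1 : (1 : ℝ) ∈ Ioo a b := ⟨ha.trans hr1, hb⟩
  have m2 : r ∈ Ioo a b := ⟨ha, hr1.trans hb⟩
  obtain ⟨t, t1, t2⟩ := ((approx ha0.le hd m1 m1 hε).and (approx ha0.le hd m2 m1 hε)).exists
  have h5 := hv c t (lc β 1)
  have hs : ∀ ρ : ℝ, 0 < ρ → sphere (0 : ℂ) ρ ⊆ {0}ᶜ := fun ρ hρ z hz =>
    norm_pos_iff.1 (by rw [norm_of_mem_sphere hz]; exact hρ)
  have ct := (differentiableOn_fin t (lc β 1)).continuousOn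
  have c1 := ((hp.continuousOn.mono (hs 1 one_pos)).sub (contOn_sphere hd m1)).norm
  have c2 := (contOn_sphere hd m2).norm
  have h6 := CA_mono one_pos (F := fun z => ‖lpoly N c z - ∑ k ∈ t, lc β 1 k * z ^ k‖)
    (G := fun z => ‖lpoly N c z - β z‖ + ((∑ j, c j * v j.rev).re - u) / 2)
    ((hp.continuousOn.sub ct).mono (hs 1 one_pos)).norm (c1.add continuousOn_const)
    fun z hz => (norm_sub_le_norm_sub_add_norm_sub _ (β z) _).trans (add_le_add le_rfl (t1 z hz))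
  have h7 := CA_mono hr0 (F := fun z : ℂ => ‖∑ k ∈ t, lc β 1 k * z ^ k‖)
    (G := fun z => ‖β z‖ + ((∑ j, c j * v j.rev).re - u) / 2)
    (ct.mono (hs r hr0)).norm (c2.add continuousOn_const)
    fun z hz => (norm_le_insert (β z) _).trans (add_le_add le_rfl (t2 z hz))
  rw [CA_add one_pos (F := fun z => ‖lpoly N c z - β z‖) c1 continuousOn_const,
    Real.circleAverage_const] at h6
  rw [CA_add hr0 (F := fun z => ‖β z‖) c2 continuousOn_const, Real.circleAverage_const] at h7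
  linarith

theorem exists_scaled {r : ℝ} (hr0 : 0 < r) (hr1 : r < 1) {N : ℕ} {v : Fin (2 * N + 1) → ℂ}
    (hv : v ∈ body r N) : ∃ s ∈ Icc (0 : ℝ) 1, ∃ w ∈ frontier (body r N), v = s • w := by
  have h0 : body r N ∈ 𝓝 0 := mem_interior_iff_mem_nhds.1 (zero_mem_interior_body hr0 hr1 N)
  have key : ∀ x ≠ 0, 0 < gauge (body r N) x ∧ (gauge (body r N) x)⁻¹ • x ∈ frontier (body r N) :=
    fun x hx => by
      have h1 : 0 < gauge (body r N) x := (gauge_pos (absorbent_nhds_zero h0)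
        ((isCompact_body hr0 hr1 N).totallyBounded.isVonNBounded ℝ)).2 hx
      refine ⟨h1, (gauge_eq_one_iff_mem_frontier (convex_body hr0 hr1 N) h0).1 ?_⟩
      rw [gauge_smul_of_nonneg (inv_nonneg.2 h1.le), smul_eq_mul, inv_mul_cancel₀ h1.ne']
  by_cases h : v = 0
  · exact ⟨0, ⟨le_rfl, zero_le_one⟩, _, (key 1 one_ne_zero).2, by rw [h, zero_smul]⟩
  · obtain ⟨h1, h2⟩ := key v h
    exact ⟨_, ⟨h1.le, gauge_le_one_of_mem hv⟩, _, h2, by rw [smul_inv_smul₀ h1.ne']⟩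

end Pool.Agent.MP_faa29e_an
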